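import Mathlib

set_option autoImplicit false

/-!
# Convex polygons in `ℝ³` and polyhedral maps: definitions and geometric lemmas
-/

namespace Pool.Agent.R180.CV

open Matrix

/-- Three-space, with the standard dot product `a ⬝ᵥ b`. -/
abbrev E3 := Fin 3 → ℝ

/-- The pairs of consecutive members of a cyclic list: for `[a, b, c]` these are
`(a, b), (b, c), (c, a)`. -/
def cycPairs {V : Type} : List V → List (V × V)
  | [] => []
  | a :: l => (a :: l).zip (l ++ [a])

/-- `L` is the cyclic list of the vertices of a (planar, strictly) convex polygon: there are at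
least three points, they are distinct, they lie in a plane, and every pair of consecutive points
`a, b` is the set of maximizers in `L` of some linear functional (so that the segment `ab` is an
edge of the convex hull of `L`). -/
def IsConvexPolygon (L : List E3) : Prop :=
  3 ≤ L.length ∧ L.Nodup ∧
  (∃ m : E3, m ≠ 0 ∧ ∀ a ∈ L, ∀ b ∈ L, m ⬝ᵥ a = m ⬝ᵥ b) ∧
  ∀ e ∈ cycPairs L, ∃ k : E3, k ⬝ᵥ e.1 = k ⬝ᵥ e.2 ∧
    ∀ c ∈ L, c ≠ e.1 → c ≠ e.2 → k ⬝ᵥ c < k ⬝ᵥ e.1

/-- The boundary of the polygon with cyclic list of vertices `L`: the union of its sides. -/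
def boundary (L : List E3) : Set E3 := ⋃ e ∈ cycPairs L, segment ℝ e.1 e.2

lemma dot_eq (a b : E3) : a ⬝ᵥ b = a 0 * b 0 + a 1 * b 1 + a 2 * b 2 := by
  simp [dotProduct, Fin.sum_univ_three]

/-- determinant of three vectors -/
def det3 (a b c : E3) : ℝ :=
  a 0 * (b 1 * c 2 - b 2 * c 1) - a 1 * (b 0 * c 2 - b 2 * c 0) + a 2 * (b 0 * c 1 - b 1 * c 0)

/-- cross product -/
def crs (a b : E3) : E3 :=
  ![a 1 * b 2 - a 2 * b 1, a 2 * b 0 - a 0 * b 2, a 0 * b 1 - a 1 * b 0]

lemma crs_dot (a b c : E3) : crs a b ⬝ᵥ c = det3 a b c := by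
  rw [dot_eq]
  simp [crs, det3]
  ring

lemma det3_rot (a b c : E3) : det3 a b c = det3 b c a := by
  simp only [det3]; ring

lemma det3_swap (a b c : E3) : det3 a b c = - det3 b a c := by
  simp only [det3]; ring

lemma det3_self_left (a b : E3) : det3 a b a = 0 := by simp only [det3]; ring
lemma det3_self_right (a b : E3) : det3 a b b = 0 := by simp only [det3]; ring
lemma det3_self (a b : E3) : det3 a a b = 0 := by simp only [det3]; ring

/-- a vector orthogonal to three independent vectors is zero -/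
lemma eq_zero_of_det (m a b d : E3) (hD : det3 m a b ≠ 0) (h1 : m ⬝ᵥ d = 0) (h2 : a ⬝ᵥ d = 0)
    (h3 : b ⬝ᵥ d = 0) : d = 0 := by
  rw [dot_eq] at h1 h2 h3
  have e0 : det3 m a b * d 0 = 0 := by
    simp only [det3]
    linear_combination (a 1 * b 2 - a 2 * b 1) * h1 + (b 1 * m 2 - b 2 * m 1) * h2 +
      (m 1 * a 2 - m 2 * a 1) * h3
  have e1 : det3 m a b * d 1 = 0 := by
    simp only [det3]
    linear_combination (a 2 * b 0 - a 0 * b 2) * h1 + (b 2 * m 0 - b 0 * m 2) * h2 +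
      (m 2 * a 0 - m 0 * a 2) * h3
  have e2 : det3 m a b * d 2 = 0 := by
    simp only [det3]
    linear_combination (a 0 * b 1 - a 1 * b 0) * h1 + (b 0 * m 1 - b 1 * m 0) * h2 +
      (m 0 * a 1 - m 1 * a 0) * h3
  funext i
  fin_cases i
  · exact (mul_eq_zero.1 e0).resolve_left hD
  · exact (mul_eq_zero.1 e1).resolve_left hD
  · exact (mul_eq_zero.1 e2).resolve_left hD

/-- Gram type identity -/
lemma det_mul (m k l m' s t : E3) :
    det3 m k l * det3 m' s t =
      (m ⬝ᵥ m') * ((k ⬝ᵥ s) * (l ⬝ᵥ t) - (k ⬝ᵥ t) * (l ⬝ᵥ s)) -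
      (m ⬝ᵥ s) * ((k ⬝ᵥ m') * (l ⬝ᵥ t) - (k ⬝ᵥ t) * (l ⬝ᵥ m')) +
      (m ⬝ᵥ t) * ((k ⬝ᵥ m') * (l ⬝ᵥ s) - (k ⬝ᵥ s) * (l ⬝ᵥ m')) := by
  simp only [dot_eq, det3]
  ring

lemma dot_self_pos (m : E3) (h : m ≠ 0) : 0 < m ⬝ᵥ m := by
  rw [dot_eq]
  by_contra hn
  apply h
  have h0 : m 0 = 0 := by nlinarith [sq_nonneg (m 0), sq_nonneg (m 1), sq_nonneg (m 2)]
  have h1 : m 1 = 0 := by nlinarith [sq_nonneg (m 0), sq_nonneg (m 1), sq_nonneg (m 2)]
  have h2 : m 2 = 0 := by nlinarith [sq_nonneg (m 0), sq_nonneg (m 1), sq_nonneg (m 2)]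
  funext i
  fin_cases i
  · exact h0
  · exact h1
  · exact h2

/-- if the vectors `s, t` are orthogonal to `m` and separated by `k, l`, then `m, k, l` are
independent and so are `m, s, t` -/
lemma det_ne (m k l s t : E3) (hm : m ≠ 0) (hs : m ⬝ᵥ s = 0) (ht : m ⬝ᵥ t = 0)
    (hks : k ⬝ᵥ s = 0) (hkt : k ⬝ᵥ t < 0) (hlt : l ⬝ᵥ t = 0) (hls : l ⬝ᵥ s < 0) :
    det3 m k l ≠ 0 ∧ det3 m s t ≠ 0 := by
  have h := det_mul m k l m s t
  rw [hs, ht, hks, hlt] at h
  have h2 : det3 m k l * det3 m s t < 0 := by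
    have := dot_self_pos m hm
    rw [h]
    have h3 := mul_pos_of_neg_of_neg hkt hls
    nlinarith [mul_pos this h3]
  constructor
  · intro h0
    rw [h0] at h2
    simp at h2
  · intro h0
    rw [h0] at h2
    simp at h2

/-- the decomposition of a vector of the plane `m^⊥` -/
lemma decomp (m k l s t c : E3) (hm : m ≠ 0) (hs : m ⬝ᵥ s = 0) (ht : m ⬝ᵥ t = 0)
    (hc : m ⬝ᵥ c = 0)
    (hks : k ⬝ᵥ s = 0) (hkt : k ⬝ᵥ t < 0) (hlt : l ⬝ᵥ t = 0) (hls : l ⬝ᵥ s < 0) :
    c = ((l ⬝ᵥ c) / (l ⬝ᵥ s)) • s + ((k ⬝ᵥ c) / (k ⬝ᵥ t)) • t := by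
  have hD := (det_ne m k l s t hm hs ht hks hkt hlt hls).1
  have h0 : c - (((l ⬝ᵥ c) / (l ⬝ᵥ s)) • s + ((k ⬝ᵥ c) / (k ⬝ᵥ t)) • t) = 0 := by
    apply eq_zero_of_det m k l _ hD
    · simp only [dotProduct_sub, dotProduct_add, dotProduct_smul, hs, ht, hc]
      simp
    · simp only [dotProduct_sub, dotProduct_add, dotProduct_smul, hks, smul_eq_mul]
      field_simp [hkt.ne]
      ring
    · simp only [dotProduct_sub, dotProduct_add, dotProduct_smul, hlt, smul_eq_mul]
      field_simp [hls.ne]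
      ring
  exact sub_eq_zero.1 h0

lemma mem_of_cycPairs {V : Type} {L : List V} {a b : V} (h : (a, b) ∈ cycPairs L) :
    a ∈ L ∧ b ∈ L := by
  cases L with
  | nil => simp [cycPairs] at h
  | cons x l =>
    have h' := List.of_mem_zip h
    refine ⟨h'.1, ?_⟩
    have := h'.2
    simp only [List.mem_append, List.mem_singleton] at this
    rcases this with h1 | h1
    · exact List.mem_cons_of_mem _ h1
    · rw [h1]; exact List.mem_cons_self

lemma cycPairs_map {V W : Type} (p : V → W) (f : List V) :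
    cycPairs (f.map p) = (cycPairs f).map (Prod.map p p) := by
  cases f with
  | nil => rfl
  | cons a l =>
    simp only [cycPairs, List.map_cons]
    rw [← List.zip_map]
    simp

/-- three consecutive vertices `s, u, t` of a convex polygon -/
structure Corner (L : List E3) (s u t : E3) : Prop where
  pair1 : (s, u) ∈ cycPairs L
  pair2 : (u, t) ∈ cycPairs L
  hst : s ≠ t
  hsu : s ≠ u
  htu : t ≠ u

lemma corner_functionals (L : List E3) (hL : IsConvexPolygon L) {s u t : E3}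
    (h : Corner L s u t) :
    ∃ k l : E3, k ⬝ᵥ (s - u) = 0 ∧ k ⬝ᵥ (t - u) < 0 ∧ l ⬝ᵥ (t - u) = 0 ∧ l ⬝ᵥ (s - u) < 0 ∧
      ∀ c ∈ L, k ⬝ᵥ (c - u) ≤ 0 ∧ l ⬝ᵥ (c - u) ≤ 0 ∧
        (c ≠ u → c ≠ s → k ⬝ᵥ (c - u) < 0) ∧ (c ≠ u → c ≠ t → l ⬝ᵥ (c - u) < 0) := by
  obtain ⟨h3, hnd, hpl, hed⟩ := hL
  obtain ⟨k, hk1, hk2⟩ := hed _ h.pair1
  obtain ⟨l, hl1, hl2⟩ := hed _ h.pair2
  have hs := (mem_of_cycPairs h.pair1).1
  have hu := (mem_of_cycPairs h.pair1).2
  have ht := (mem_of_cycPairs h.pair2).2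
  simp only at hk1 hk2 hl1 hl2
  have kt := hk2 t ht h.hst.symm h.htu
  have ls := hl2 s hs h.hsu h.hst
  refine ⟨k, l, ?_, ?_, ?_, ?_, ?_⟩
  · rw [dotProduct_sub, hk1, sub_self]
  · rw [dotProduct_sub]; linarith
  · rw [dotProduct_sub, hl1, sub_self]
  · rw [dotProduct_sub]; linarith
  · intro c hc
    have a1 : c ≠ u → c ≠ s → k ⬝ᵥ (c - u) < 0 := by
      intro h1 h2
      have := hk2 c hc h2 h1
      rw [dotProduct_sub]; linarith
    have a2 : c ≠ u → c ≠ t → l ⬝ᵥ (c - u) < 0 := by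
      intro h1 h2
      have := hl2 c hc h1 h2
      rw [dotProduct_sub]; linarith
    refine ⟨?_, ?_, a1, a2⟩
    · by_cases h1 : c = u
      · rw [h1]; simp
      · by_cases h2 : c = s
        · rw [h2, dotProduct_sub, hk1, sub_self]
        · exact (a1 h1 h2).le
    · by_cases h1 : c = u
      · rw [h1]; simp
      · by_cases h2 : c = t
        · rw [h2, dotProduct_sub, hl1, sub_self]
        · exact (a2 h1 h2).le

/-- all vertices of a convex polygon lie in the angle at a corner -/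
lemma cone (L : List E3) (hL : IsConvexPolygon L) {s u t : E3} (h : Corner L s u t) :
    ∀ c ∈ L, ∃ A B : ℝ, 0 ≤ A ∧ 0 ≤ B ∧ c = u + (A • (s - u) + B • (t - u)) ∧
      (c ≠ u → c ≠ s → c ≠ t → 0 < A ∧ 0 < B) := by
  obtain ⟨k, l, k1, k2, l1, l2, hkl⟩ := corner_functionals L hL h
  obtain ⟨h3, hnd, ⟨m, hm, hpl⟩, hed⟩ := hL
  have hs := (mem_of_cycPairs h.pair1).1
  have hu := (mem_of_cycPairs h.pair1).2
  have ht := (mem_of_cycPairs h.pair2).2
  intro c hc
  have mz : ∀ c ∈ L, m ⬝ᵥ (c - u) = 0 := by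
    intro c hc
    rw [dotProduct_sub, hpl c hc u hu, sub_self]
  have hd := decomp m k l (s - u) (t - u) (c - u) hm (mz s hs) (mz t ht) (mz c hc) k1 k2 l1 l2
  obtain ⟨c1, c2, c3, c4⟩ := hkl c hc
  refine ⟨(l ⬝ᵥ (c - u)) / (l ⬝ᵥ (s - u)), (k ⬝ᵥ (c - u)) / (k ⬝ᵥ (t - u)), ?_, ?_, ?_, ?_⟩
  · exact div_nonneg_of_nonpos c2 l2.le
  · exact div_nonneg_of_nonpos c1 k2.le
  · rw [← hd]; abel
  · intro x1 x2 x3
    exact ⟨div_pos_of_neg_of_neg (c4 x1 x3) l2, div_pos_of_neg_of_neg (c3 x1 x2) k2⟩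

/-- independence of the two edges at a corner -/
lemma corner_indep (L : List E3) (hL : IsConvexPolygon L) {s u t : E3} (h : Corner L s u t)
    (m : E3) (hm : m ≠ 0) (hs : m ⬝ᵥ (s - u) = 0) (ht : m ⬝ᵥ (t - u) = 0) :
    det3 m (s - u) (t - u) ≠ 0 := by
  obtain ⟨k, l, k1, k2, l1, l2, hkl⟩ := corner_functionals L hL h
  exact (det_ne m k l _ _ hm hs ht k1 k2 l1 l2).2

/-- the convex hull of the vertices of a face -/
def cell {V : Type} (p : V → E3) (f : List V) : Set E3 := convexHull ℝ (p '' {x | x ∈ f})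

/-- the cone condition passes to the convex hull -/
lemma cone_hull {V : Type} (p : V → E3) (f : List V) (s u t : E3)
    (hc : ∀ c ∈ f.map p, ∃ A B : ℝ, 0 ≤ A ∧ 0 ≤ B ∧ c = u + (A • (s - u) + B • (t - u))) :
    ∀ z ∈ cell p f, ∃ A B : ℝ, 0 ≤ A ∧ 0 ≤ B ∧ z = u + (A • (s - u) + B • (t - u)) := by
  intro z hz
  have key : cell p f ⊆ {z | ∃ A B : ℝ, 0 ≤ A ∧ 0 ≤ B ∧ z = u + (A • (s - u) + B • (t - u))} := by
    apply convexHull_min
    · rintro _ ⟨x, hx, rfl⟩
      exact hc _ (List.mem_map_of_mem hx)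
    · rintro x ⟨A, B, hA, hB, rfl⟩ y ⟨A', B', hA', hB', rfl⟩ a b ha hb hab
      refine ⟨a * A + b * A', a * B + b * B', by positivity, by positivity, ?_⟩
      have hb' : b = 1 - a := by linarith
      subst hb'
      ext i
      simp only [Pi.add_apply, Pi.smul_apply, Pi.sub_apply, smul_eq_mul]
      ring
  exact key hz

/-- The part of a plane which cuts off the corner `u` of a polygon. -/
lemma slice {V : Type} (p : V → E3) (f : List V) (s u t : V) (hs : s ∈ f) (hu : u ∈ f)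
    (ht : t ∈ f)
    (hc : ∀ c ∈ f.map p, ∃ A B : ℝ, 0 ≤ A ∧ 0 ≤ B ∧
      c = p u + (A • (p s - p u) + B • (p t - p u)))
    (m : E3) (ε : ℝ) (hε : 0 < ε) (h1 : m ⬝ᵥ (p s - p u) < -ε) (h2 : m ⬝ᵥ (p t - p u) < -ε) :
    {z | m ⬝ᵥ z = m ⬝ᵥ p u - ε} ∩ cell p f =
      segment ℝ (p u + (ε / (-(m ⬝ᵥ (p s - p u)))) • (p s - p u))
        (p u + (ε / (-(m ⬝ᵥ (p t - p u)))) • (p t - p u)) := by
  set S := m ⬝ᵥ (p s - p u) with hS
  set T := m ⬝ᵥ (p t - p u) with hT
  have hSp : 0 < -S := by linarith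
  have hTp : 0 < -T := by linarith
  have memS : ∀ x ∈ f, ∀ X : ℝ, X = m ⬝ᵥ (p x - p u) → X < -ε →
      p u + (ε / (-X)) • (p x - p u) ∈ {z | m ⬝ᵥ z = m ⬝ᵥ p u - ε} ∩ cell p f := by
    intro x hx X hX hXe
    have hXp : 0 < -X := by linarith
    constructor
    · show m ⬝ᵥ (p u + (ε / (-X)) • (p x - p u)) = m ⬝ᵥ p u - ε
      rw [dotProduct_add, dotProduct_smul, ← hX, smul_eq_mul]
      have : X ≠ 0 := by linarith
      field_simp
      ring
    · have hconv := convex_convexHull ℝ (p '' {x | x ∈ f})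
      have a1 : p u ∈ convexHull ℝ (p '' {x | x ∈ f}) := subset_convexHull ℝ _ ⟨u, hu, rfl⟩
      have a2 : p x ∈ convexHull ℝ (p '' {x | x ∈ f}) := subset_convexHull ℝ _ ⟨x, hx, rfl⟩
      have hq : 0 ≤ ε / (-X) := by positivity
      have hq1 : ε / (-X) ≤ 1 := by
        rw [div_le_one hXp]; linarith
      have := hconv a1 a2 (sub_nonneg.2 hq1) hq (by ring)
      have e : p u + (ε / (-X)) • (p x - p u) = (1 - ε / (-X)) • p u + (ε / (-X)) • p x := by
        ext i
        simp only [Pi.add_apply, Pi.smul_apply, Pi.sub_apply, smul_eq_mul]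
        ring
      show _ ∈ convexHull ℝ (p '' {x | x ∈ f})
      rw [e]
      exact this
  apply Set.Subset.antisymm
  · rintro z ⟨hz1, hz2⟩
    obtain ⟨A, B, hA, hB, rfl⟩ := cone_hull p f (p s) (p u) (p t) hc z hz2
    have hz1' : m ⬝ᵥ (p u + (A • (p s - p u) + B • (p t - p u))) = m ⬝ᵥ p u - ε := hz1
    rw [dotProduct_add, dotProduct_add, dotProduct_smul, dotProduct_smul, ← hS, ← hT,
      smul_eq_mul, smul_eq_mul] at hz1'
    have hsum : A * (-S) + B * (-T) = ε := by linarith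
    refine ⟨A * (-S) / ε, B * (-T) / ε, by positivity, by positivity, ?_, ?_⟩
    · rw [← add_div, hsum, div_self hε.ne']
    · have e1 : A * (-S) / ε * (ε / (-S)) = A := by
        rw [div_mul_div_comm, mul_comm (A * -S) ε, mul_comm A (-S), ← mul_assoc,
          mul_div_cancel_left₀ _ (by positivity)]
      have e2 : B * (-T) / ε * (ε / (-T)) = B := by
        rw [div_mul_div_comm, mul_comm (B * -T) ε, mul_comm B (-T), ← mul_assoc,
          mul_div_cancel_left₀ _ (by positivity)]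
      have e3 : A * (-S) / ε + B * (-T) / ε = 1 := by rw [← add_div, hsum, div_self hε.ne']
      rw [smul_add, smul_add, smul_smul, smul_smul, e1, e2]
      have e4 : (A * (-S) / ε) • p u + (B * (-T) / ε) • p u = p u := by
        rw [← add_smul, e3, one_smul]
      calc (A * -S / ε) • p u + A • (p s - p u) + ((B * -T / ε) • p u + B • (p t - p u))
          = ((A * (-S) / ε) • p u + (B * (-T) / ε) • p u) +
              (A • (p s - p u) + B • (p t - p u)) := by abel
        _ = _ := by rw [e4]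
  · have hconv : Convex ℝ ({z | m ⬝ᵥ z = m ⬝ᵥ p u - ε} ∩ cell p f) := by
      apply Convex.inter _ (convex_convexHull ℝ _)
      intro x hx y hy a b ha hb hab
      have hx' : m ⬝ᵥ x = m ⬝ᵥ p u - ε := hx
      have hy' : m ⬝ᵥ y = m ⬝ᵥ p u - ε := hy
      show m ⬝ᵥ (a • x + b • y) = m ⬝ᵥ p u - ε
      rw [dotProduct_add, dotProduct_smul, dotProduct_smul, hx', hy', smul_eq_mul, smul_eq_mul,
        ← add_mul, hab, one_mul]
    exact hconv.segment_subset (memS s hs S hS h1) (memS t ht T hT h2)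

/-! ### Polyhedral maps and their realizations -/

/-- Two vertices are joined by an edge. -/
def Adj {V : Type} (F : List (List V)) (a b : V) : Prop :=
  ∃ f ∈ F, (a, b) ∈ cycPairs f ∨ (b, a) ∈ cycPairs f

/-- `p` realizes the polyhedral map with list of faces `F`: the vertices are sent to distinct
points, the vertices of each face, in their cyclic order, to the vertices of a convex polygon, and
any two faces meet exactly in the convex hull of their common vertices. -/
structure IsRealization {V : Type} (F : List (List V)) (p : V → E3) : Prop where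
  inj : Function.Injective p
  polygon : ∀ f ∈ F, IsConvexPolygon (f.map p)
  inter : ∀ f ∈ F, ∀ g ∈ F, f ≠ g →
    cell p f ∩ cell p g = convexHull ℝ (p '' {x | x ∈ f ∧ x ∈ g})

/-- The vertex `v` is convex: some plane `{z | m ⬝ᵥ z = c}` strictly separates `v` from all its
neighbours, and the intersection of this plane with the union of the faces containing `v` (the
vertex figure) is a convex polygon (the boundary of one). -/
def IsConvexVertex {V : Type} (F : List (List V)) (p : V → E3) (v : V) : Prop :=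
  ∃ (m : E3) (c : ℝ), c < m ⬝ᵥ p v ∧ (∀ w, Adj F v w → m ⬝ᵥ p w < c) ∧
    ∃ Q : List E3, IsConvexPolygon Q ∧
      {z | m ⬝ᵥ z = c} ∩ (⋃ f ∈ {f | f ∈ F ∧ v ∈ f}, cell p f) = boundary Q

section plane

lemma det_of_plane (m a b c : E3) :
    det3 a b c * (m ⬝ᵥ m) =
      det3 m b c * (m ⬝ᵥ a) - det3 m a c * (m ⬝ᵥ b) + det3 m a b * (m ⬝ᵥ c) := by
  simp only [dot_eq, det3]
  ring

lemma plane_id (m a b c : E3) (hm : m ≠ 0) (ha : m ⬝ᵥ a = 0) (hb : m ⬝ᵥ b = 0)
    (hc : m ⬝ᵥ c = 0) : det3 m a b • c = det3 m c b • a + det3 m a c • b := by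
  have h := det_of_plane m a b c
  rw [ha, hb, hc] at h
  have h0 : det3 a b c = 0 := by
    have h1 := dot_self_pos m hm
    have : det3 a b c * (m ⬝ᵥ m) = 0 := by rw [h]; ring
    exact (mul_eq_zero.1 this).resolve_right h1.ne'
  ext i
  simp only [Pi.add_apply, Pi.smul_apply, smul_eq_mul]
  fin_cases i
  · simp only [det3] at h0 ⊢
    simp only [Fin.isValue, Fin.zero_eta]
    linear_combination (m 0) * h0
  · simp only [det3] at h0 ⊢
    simp only [Fin.isValue, Fin.mk_one]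
    linear_combination (m 1) * h0
  · simp only [det3] at h0 ⊢
    simp only [Fin.isValue, Fin.reduceFinMk]
    linear_combination (m 2) * h0

lemma plane_k (m k a b c : E3) (hm : m ≠ 0) (ha : m ⬝ᵥ a = 0) (hb : m ⬝ᵥ b = 0)
    (hc : m ⬝ᵥ c = 0) :
    det3 m a b * (k ⬝ᵥ c) + det3 m b c * (k ⬝ᵥ a) + det3 m c a * (k ⬝ᵥ b) = 0 := by
  have h := plane_id m a b c hm ha hb hc
  have h2 : k ⬝ᵥ (det3 m a b • c) = k ⬝ᵥ (det3 m c b • a + det3 m a c • b) := by rw [h]
  rw [dotProduct_add, dotProduct_smul, dotProduct_smul, dotProduct_smul] at h2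
  simp only [smul_eq_mul] at h2
  have e1 : det3 m c b = - det3 m b c := by simp only [det3]; ring
  have e2 : det3 m a c = - det3 m c a := by simp only [det3]; ring
  rw [e1, e2] at h2
  linarith

lemma cycle3_false (m k a b c : E3) (hm : m ≠ 0) (ha : m ⬝ᵥ a = 0) (hb : m ⬝ᵥ b = 0)
    (hc : m ⬝ᵥ c = 0) (ka : k ⬝ᵥ a < 0) (kb : k ⬝ᵥ b < 0) (kc : k ⬝ᵥ c < 0)
    (h1 : 0 < det3 m a b * det3 m b c) (h2 : 0 < det3 m b c * det3 m c a) : False := by
  have h := plane_k m k a b c hm ha hb hc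
  rcases lt_trichotomy (det3 m b c) 0 with h0 | h0 | h0
  · have x1 : det3 m a b < 0 := by
      by_contra hh; push Not at hh; nlinarith
    have x2 : det3 m c a < 0 := by
      by_contra hh; push Not at hh; nlinarith
    nlinarith [mul_pos_of_neg_of_neg x1 kc, mul_pos_of_neg_of_neg h0 ka,
      mul_pos_of_neg_of_neg x2 kb]
  · rw [h0] at h1; simp at h1
  · have x1 : 0 < det3 m a b := by
      by_contra hh; push Not at hh; nlinarith
    have x2 : 0 < det3 m c a := by
      by_contra hh; push Not at hh; nlinarith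
    nlinarith [mul_neg_of_pos_of_neg x1 kc, mul_neg_of_pos_of_neg h0 ka,
      mul_neg_of_pos_of_neg x2 kb]

lemma cycle4_false (m k a b c d : E3) (hm : m ≠ 0) (ha : m ⬝ᵥ a = 0) (hb : m ⬝ᵥ b = 0)
    (hc : m ⬝ᵥ c = 0) (hd : m ⬝ᵥ d = 0)
    (ka : k ⬝ᵥ a < 0) (kb : k ⬝ᵥ b < 0) (kc : k ⬝ᵥ c < 0) (kd : k ⬝ᵥ d < 0)
    (h1 : 0 < det3 m a b * det3 m b c) (h2 : 0 < det3 m b c * det3 m c d)
    (h3 : 0 < det3 m c d * det3 m d a) : False := by
  have e1 := plane_k m k a b c hm ha hb hc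
  have e2 := plane_k m k a c d hm ha hc hd
  have e3 : det3 m c a = - det3 m a c := by simp only [det3]; ring
  rw [e3] at e1
  rcases lt_trichotomy (det3 m b c) 0 with h0 | h0 | h0
  · have x1 : det3 m a b < 0 := by
      by_contra hh; push Not at hh; nlinarith
    have x2 : det3 m c d < 0 := by
      by_contra hh; push Not at hh; nlinarith
    have x3 : det3 m d a < 0 := by
      by_contra hh; push Not at hh; nlinarith
    have y1 := mul_pos_of_neg_of_neg x1 kc
    have y2 := mul_pos_of_neg_of_neg h0 ka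
    have y3 := mul_pos_of_neg_of_neg x2 ka
    have y4 := mul_pos_of_neg_of_neg x3 kc
    have z1 : det3 m a c < 0 := by
      by_contra hh; push Not at hh; nlinarith
    have z2 : 0 < det3 m a c := by
      by_contra hh; push Not at hh; nlinarith
    linarith
  · rw [h0] at h1; simp at h1
  · have x1 : 0 < det3 m a b := by
      by_contra hh; push Not at hh; nlinarith
    have x2 : 0 < det3 m c d := by
      by_contra hh; push Not at hh; nlinarith
    have x3 : 0 < det3 m d a := by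
      by_contra hh; push Not at hh; nlinarith
    have y1 := mul_neg_of_pos_of_neg x1 kc
    have y2 := mul_neg_of_pos_of_neg h0 ka
    have y3 := mul_neg_of_pos_of_neg x2 ka
    have y4 := mul_neg_of_pos_of_neg x3 kc
    have z1 : 0 < det3 m a c := by
      by_contra hh; push Not at hh; nlinarith
    have z2 : det3 m a c < 0 := by
      by_contra hh; push Not at hh; nlinarith
    linarith

end plane

section real

variable {V : Type} {F : List (List V)} {p : V → E3}

/-- `s → u → t` are consecutive in the face `f` -/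
structure Cor (f : List V) (s u t : V) : Prop where
  pair1 : (s, u) ∈ cycPairs f
  pair2 : (u, t) ∈ cycPairs f
  hst : s ≠ t
  hsu : s ≠ u
  htu : t ≠ u

lemma Cor.corner {f : List V} {s u t : V} (h : Cor f s u t) (hp : Function.Injective p) :
    Corner (f.map p) (p s) (p u) (p t) := by
  refine ⟨?_, ?_, hp.ne h.hst, hp.ne h.hsu, hp.ne h.htu⟩
  · rw [cycPairs_map]; exact List.mem_map.2 ⟨_, h.pair1, rfl⟩
  · rw [cycPairs_map]; exact List.mem_map.2 ⟨_, h.pair2, rfl⟩

lemma Cor.mem {f : List V} {s u t : V} (h : Cor f s u t) : s ∈ f ∧ u ∈ f ∧ t ∈ f :=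
  ⟨(mem_of_cycPairs h.pair1).1, (mem_of_cycPairs h.pair1).2, (mem_of_cycPairs h.pair2).2⟩

lemma tri_mem (p : V → E3) (f : List V) {u x y : V} (hu : u ∈ f) (hx : x ∈ f) (hy : y ∈ f)
    (α β : ℝ) (hα : 0 ≤ α) (hβ : 0 ≤ β) (h : α + β ≤ 1) :
    p u + (α • (p x - p u) + β • (p y - p u)) ∈ cell p f := by
  have hconv := convex_convexHull ℝ (p '' {x | x ∈ f})
  have a1 : p u ∈ convexHull ℝ (p '' {x | x ∈ f}) := subset_convexHull ℝ _ ⟨u, hu, rfl⟩
  have a2 : p x ∈ convexHull ℝ (p '' {x | x ∈ f}) := subset_convexHull ℝ _ ⟨x, hx, rfl⟩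
  have a3 : p y ∈ convexHull ℝ (p '' {x | x ∈ f}) := subset_convexHull ℝ _ ⟨y, hy, rfl⟩
  have key := hconv.sum_mem (t := Finset.univ) (w := ![1 - α - β, α, β]) (z := ![p u, p x, p y])
    (by intro i _; fin_cases i <;> simp <;> linarith)
    (by simp [Fin.sum_univ_three]; ring)
    (by intro i _; fin_cases i <;> simp [a1, a2, a3])
  rw [Fin.sum_univ_three] at key
  show _ ∈ convexHull ℝ (p '' {x | x ∈ f})
  convert key using 1
  ext i
  simp only [Pi.add_apply, Pi.smul_apply, Pi.sub_apply, smul_eq_mul, cons_val_zero,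
    cons_val_one, cons_val]
  ring

/-- two coplanar adjacent faces lie on different sides of their common edge -/
lemma opp (hR : IsRealization F p) {f g : List V} (hf : f ∈ F) (hg : g ∈ F) (hne : f ≠ g)
    {s u t r : V} (h1 : Cor f s u t) (h2 : Cor g t u r) (hfg : ∀ x, x ∈ f → x ∈ g → x = u ∨ x = t)
    (m : E3) (hm : m ≠ 0) (ms : m ⬝ᵥ (p s - p u) = 0) (mt : m ⬝ᵥ (p t - p u) = 0)
    (mr : m ⬝ᵥ (p r - p u) = 0) :
    0 < det3 m (p s - p u) (p t - p u) * det3 m (p t - p u) (p r - p u) := by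
  have i1 := corner_indep _ (hR.polygon f hf) (h1.corner hR.inj) m hm ms mt
  have i2 := corner_indep _ (hR.polygon g hg) (h2.corner hR.inj) m hm mt mr
  by_contra hcon
  have hneg : det3 m (p s - p u) (p t - p u) * det3 m (p t - p u) (p r - p u) < 0 :=
    lt_of_le_of_ne (not_lt.1 hcon) (mul_ne_zero i1 i2)
  obtain ⟨k, l, -, -, l1, l2, -⟩ := corner_functionals _ (hR.polygon f hf) (h1.corner hR.inj)
  obtain ⟨ms1, mu1, mt1⟩ := h1.mem
  obtain ⟨mt2, mu2, mr2⟩ := h2.mem
  set s' := p s - p u with hs'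
  set t' := p t - p u with ht'
  set r' := p r - p u with hr'
  -- `s' = a • t' + b • r'` with `b > 0`
  have hid := plane_id m t' r' s' hm mt mr ms
  set w := det3 m t' r' with hw
  have e1 : det3 m t' s' = - det3 m s' t' := by simp only [det3]; ring
  set a := det3 m s' r' / w with ha
  set b := det3 m t' s' / w with hb
  have hs : s' = a • t' + b • r' := by
    have : w • s' = w • (a • t' + b • r') := by
      rw [hid, smul_add, smul_smul, smul_smul, ha, hb, mul_div_cancel₀ _ i2,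
        mul_div_cancel₀ _ i2]
    exact smul_right_injective _ i2 this
  have hbpos : 0 < b := by
    rw [hb, e1]
    have h3 : (-det3 m s' t') / w = (-(det3 m s' t' * w)) / (w * w) := by
      field_simp
    rw [h3]
    apply div_pos (by linarith)
    exact mul_self_pos.2 i2
  -- small coefficient
  set β : ℝ := 1 / (4 * (1 + |a| + b)) with hβ
  have hden : 0 < 1 + |a| + b := by positivity
  have hβpos : 0 < β := by positivity
  have hβ1 : β * (1 + |a| + b) = 1 / 4 := by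
    rw [hβ]; field_simp
  have hβa : |β * a| ≤ 1 / 4 := by
    rw [abs_mul, abs_of_pos hβpos]
    nlinarith [mul_pos hβpos hbpos, abs_nonneg a]
  have hβb : β * b ≤ 1 / 4 := by
    nlinarith [mul_nonneg hβpos.le (abs_nonneg a)]
  have hβ4 : β ≤ 1 / 4 := by
    nlinarith [mul_nonneg hβpos.le (abs_nonneg a), mul_pos hβpos hbpos]
  have hab := abs_le.1 hβa
  have z1 := tri_mem p f mu1 mt1 ms1 (1 / 4) β (by norm_num) hβpos.le (by linarith)
  have z2 := tri_mem p g mu2 mt2 mr2 (1 / 4 + β * a) (β * b) (by linarith) (by positivity)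
    (by linarith)
  rw [← hs', ← ht'] at z1
  rw [← hr', ← ht'] at z2
  have ez : p u + ((1 / 4 + β * a) • t' + (β * b) • r') = p u + ((1 / 4 : ℝ) • t' + β • s') := by
    rw [hs, smul_add, smul_smul, smul_smul, add_smul, ← add_assoc ((1 / 4 : ℝ) • t')]
  rw [ez] at z2
  have z3 : p u + ((1 / 4 : ℝ) • t' + β • s') ∈ cell p f ∩ cell p g := ⟨z1, z2⟩
  rw [hR.inter f hf g hg hne] at z3
  have hsub : convexHull ℝ (p '' {x | x ∈ f ∧ x ∈ g}) ⊆ {z | l ⬝ᵥ z = l ⬝ᵥ p u} := by
    apply convexHull_min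
    · rintro _ ⟨x, ⟨hx1, hx2⟩, rfl⟩
      rcases hfg x hx1 hx2 with rfl | rfl
      · rfl
      · show l ⬝ᵥ p x = l ⬝ᵥ p u
        rw [ht', dotProduct_sub] at l1
        linarith
    · intro x hx y hy a b ha hb hab
      have hx' : l ⬝ᵥ x = l ⬝ᵥ p u := hx
      have hy' : l ⬝ᵥ y = l ⬝ᵥ p u := hy
      show l ⬝ᵥ (a • x + b • y) = l ⬝ᵥ p u
      rw [dotProduct_add, dotProduct_smul, dotProduct_smul, hx', hy', smul_eq_mul, smul_eq_mul,
        ← add_mul, hab, one_mul]
  have z4 : l ⬝ᵥ (p u + ((1 / 4 : ℝ) • t' + β • s')) = l ⬝ᵥ p u := hsub z3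
  rw [dotProduct_add, dotProduct_add, dotProduct_smul, dotProduct_smul, l1] at z4
  simp only [smul_eq_mul] at z4
  nlinarith [mul_neg_of_pos_of_neg hβpos l2]

end real

end Pool.Agent.R180.CV
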