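import Mathlib
import Pool.Agent.R180.CVGeo

set_option autoImplicit false

/-!
# Convex vertices: the two cases
-/

namespace Pool.Agent.R180.CV

open Matrix

/-- the four faces at a vertex of valence four, in cyclic order -/
structure Star4 {V : Type} (F : List (List V)) (u a b c d : V) (fab fbc fcd fda : List V) :
    Prop where
  mab : fab ∈ F
  mbc : fbc ∈ F
  mcd : fcd ∈ F
  mda : fda ∈ F
  cab : Cor fab a u b
  cbc : Cor fbc b u c
  ccd : Cor fcd c u d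
  cda : Cor fda d u a
  only : ∀ f ∈ F, u ∈ f → f = fab ∨ f = fbc ∨ f = fcd ∨ f = fda
  nb : ∀ w, Adj F u w → w = a ∨ w = b ∨ w = c ∨ w = d
  ib : ∀ x, x ∈ fab → x ∈ fbc → x = u ∨ x = b
  ic : ∀ x, x ∈ fbc → x ∈ fcd → x = u ∨ x = c
  id : ∀ x, x ∈ fcd → x ∈ fda → x = u ∨ x = d
  ia : ∀ x, x ∈ fda → x ∈ fab → x = u ∨ x = a
  nab : fab ≠ fbc
  nbc : fbc ≠ fcd
  ncd : fcd ≠ fda
  nda : fda ≠ fab

/-- the three faces at a vertex of valence three, in cyclic order -/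
structure Star3 {V : Type} (F : List (List V)) (u a b c : V) (fab fbc fca : List V) :
    Prop where
  mab : fab ∈ F
  mbc : fbc ∈ F
  mca : fca ∈ F
  cab : Cor fab a u b
  cbc : Cor fbc b u c
  cca : Cor fca c u a
  ib : ∀ x, x ∈ fab → x ∈ fbc → x = u ∨ x = b
  ic : ∀ x, x ∈ fbc → x ∈ fca → x = u ∨ x = c
  nab : fab ≠ fbc
  nbc : fbc ≠ fca

section

variable {V : Type} {F : List (List V)} {p : V → E3}

/-- the cut of the plane with a face at `u` -/
lemma Cor.slice (hR : IsRealization F p) {f : List V} (hf : f ∈ F) {s u t : V}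
    (h : Cor f s u t) (m : E3) (ε : ℝ) (hε : 0 < ε) (h1 : m ⬝ᵥ (p s - p u) < -ε)
    (h2 : m ⬝ᵥ (p t - p u) < -ε) :
    {z | m ⬝ᵥ z = m ⬝ᵥ p u - ε} ∩ cell p f =
      segment ℝ (p u + (ε / (-(m ⬝ᵥ (p s - p u)))) • (p s - p u))
        (p u + (ε / (-(m ⬝ᵥ (p t - p u)))) • (p t - p u)) := by
  obtain ⟨ms, mu, mt⟩ := h.mem
  apply CV.slice p f s u t ms mu mt _ m ε hε h1 h2
  intro c hc
  obtain ⟨A, B, hA, hB, he, -⟩ := cone _ (hR.polygon f hf) (h.corner hR.inj) c hc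
  exact ⟨A, B, hA, hB, he⟩

/-- the vertex figure at a vertex of valence four -/
lemma Star4.figure (hR : IsRealization F p) {u a b c d : V} {fab fbc fcd fda : List V}
    (S : Star4 F u a b c d fab fbc fcd fda) (m : E3) (ε : ℝ) (hε : 0 < ε)
    (ha : m ⬝ᵥ (p a - p u) < -ε) (hb : m ⬝ᵥ (p b - p u) < -ε)
    (hc : m ⬝ᵥ (p c - p u) < -ε) (hd : m ⬝ᵥ (p d - p u) < -ε)
    (A B C D : E3)
    (hA : A = p u + (ε / (-(m ⬝ᵥ (p a - p u)))) • (p a - p u))
    (hB : B = p u + (ε / (-(m ⬝ᵥ (p b - p u)))) • (p b - p u))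
    (hC : C = p u + (ε / (-(m ⬝ᵥ (p c - p u)))) • (p c - p u))
    (hD : D = p u + (ε / (-(m ⬝ᵥ (p d - p u)))) • (p d - p u)) :
    {z | m ⬝ᵥ z = m ⬝ᵥ p u - ε} ∩ (⋃ f ∈ {f | f ∈ F ∧ u ∈ f}, cell p f) =
      segment ℝ A B ∪ segment ℝ B C ∪ segment ℝ C D ∪ segment ℝ D A := by
  have s1 := S.cab.slice hR S.mab m ε hε ha hb
  have s2 := S.cbc.slice hR S.mbc m ε hε hb hc
  have s3 := S.ccd.slice hR S.mcd m ε hε hc hd
  have s4 := S.cda.slice hR S.mda m ε hε hd ha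
  rw [← hA, ← hB] at s1
  rw [← hB, ← hC] at s2
  rw [← hC, ← hD] at s3
  rw [← hD, ← hA] at s4
  rw [← s1, ← s2, ← s3, ← s4, ← Set.inter_union_distrib_left, ← Set.inter_union_distrib_left,
    ← Set.inter_union_distrib_left]
  congr 1
  ext z
  simp only [Set.mem_iUnion, Set.mem_ofPred_eq, Set.mem_union, exists_prop]
  constructor
  · rintro ⟨f, ⟨hf, hu⟩, hz⟩
    rcases S.only f hf hu with rfl | rfl | rfl | rfl
    · exact Or.inl (Or.inl (Or.inl hz))
    · exact Or.inl (Or.inl (Or.inr hz))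
    · exact Or.inl (Or.inr hz)
    · exact Or.inr hz
  · rintro (((hz | hz) | hz) | hz)
    · exact ⟨fab, ⟨S.mab, S.cab.mem.2.1⟩, hz⟩
    · exact ⟨fbc, ⟨S.mbc, S.cbc.mem.2.1⟩, hz⟩
    · exact ⟨fcd, ⟨S.mcd, S.ccd.mem.2.1⟩, hz⟩
    · exact ⟨fda, ⟨S.mda, S.cda.mem.2.1⟩, hz⟩

lemma ne_of_dot_lt {k a b : E3} (h : k ⬝ᵥ a < k ⬝ᵥ b) : a ≠ b := by
  rintro rfl
  exact lt_irrefl _ h

/-- a quadrilateral is convex if the four functionals are -/
lemma quad_polygon (m n1 n2 n3 n4 A B C D : E3) (hm : m ≠ 0)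
    (h1 : m ⬝ᵥ A = m ⬝ᵥ B) (h2 : m ⬝ᵥ B = m ⬝ᵥ C) (h3 : m ⬝ᵥ C = m ⬝ᵥ D)
    (a1 : n1 ⬝ᵥ A = n1 ⬝ᵥ B) (a2 : n1 ⬝ᵥ C < n1 ⬝ᵥ A) (a3 : n1 ⬝ᵥ D < n1 ⬝ᵥ A)
    (b1 : n2 ⬝ᵥ B = n2 ⬝ᵥ C) (b2 : n2 ⬝ᵥ D < n2 ⬝ᵥ B) (b3 : n2 ⬝ᵥ A < n2 ⬝ᵥ B)
    (c1 : n3 ⬝ᵥ C = n3 ⬝ᵥ D) (c2 : n3 ⬝ᵥ A < n3 ⬝ᵥ C) (c3 : n3 ⬝ᵥ B < n3 ⬝ᵥ C)
    (d1 : n4 ⬝ᵥ D = n4 ⬝ᵥ A) (d2 : n4 ⬝ᵥ B < n4 ⬝ᵥ D) (d3 : n4 ⬝ᵥ C < n4 ⬝ᵥ D) :
    IsConvexPolygon [A, B, C, D] := by
  have AC : A ≠ C := (ne_of_dot_lt a2).symm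
  have AD : A ≠ D := (ne_of_dot_lt a3).symm
  have BD : B ≠ D := (ne_of_dot_lt b2).symm
  have AB : A ≠ B := ne_of_dot_lt b3
  have BC : B ≠ C := ne_of_dot_lt c3
  have CD : C ≠ D := ne_of_dot_lt d3
  refine ⟨by simp, by simp [AC, AD, BD, AB, BC, CD], ⟨m, hm, ?_⟩, ?_⟩
  · intro x hx y hy
    have key : ∀ x ∈ [A, B, C, D], m ⬝ᵥ x = m ⬝ᵥ A := by
      intro x hx
      simp only [List.mem_cons, List.not_mem_nil, or_false] at hx
      rcases hx with rfl | rfl | rfl | rfl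
      · rfl
      · exact h1.symm
      · rw [← h2]; exact h1.symm
      · rw [← h3, ← h2]; exact h1.symm
    rw [key x hx, key y hy]
  · intro e he
    simp only [cycPairs, List.cons_append, List.nil_append, List.zip_cons_cons, List.zip_nil_right,
      List.mem_cons, List.not_mem_nil, or_false] at he
    rcases he with rfl | rfl | rfl | rfl
    · refine ⟨n1, a1, ?_⟩
      intro x hx x1 x2
      simp only [List.mem_cons, List.not_mem_nil, or_false] at hx
      rcases hx with rfl | rfl | rfl | rfl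
      · exact absurd rfl x1
      · exact absurd rfl x2
      · exact a2
      · exact a3
    · refine ⟨n2, b1, ?_⟩
      intro x hx x1 x2
      simp only [List.mem_cons, List.not_mem_nil, or_false] at hx
      rcases hx with rfl | rfl | rfl | rfl
      · exact b3
      · exact absurd rfl x1
      · exact absurd rfl x2
      · exact b2
    · refine ⟨n3, c1, ?_⟩
      intro x hx x1 x2
      simp only [List.mem_cons, List.not_mem_nil, or_false] at hx
      rcases hx with rfl | rfl | rfl | rfl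
      · exact c2
      · exact c3
      · exact absurd rfl x1
      · exact absurd rfl x2
    · refine ⟨n4, d1, ?_⟩
      intro x hx x1 x2
      simp only [List.mem_cons, List.not_mem_nil, or_false] at hx
      rcases hx with rfl | rfl | rfl | rfl
      · exact absurd rfl x2
      · exact d2
      · exact d3
      · exact absurd rfl x1

/-- a triangle -/
lemma tri_polygon (m n1 n2 n3 A B C : E3) (hm : m ≠ 0)
    (h1 : m ⬝ᵥ A = m ⬝ᵥ B) (h2 : m ⬝ᵥ B = m ⬝ᵥ C)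
    (a1 : n1 ⬝ᵥ A = n1 ⬝ᵥ B) (a2 : n1 ⬝ᵥ C < n1 ⬝ᵥ A)
    (b1 : n2 ⬝ᵥ B = n2 ⬝ᵥ C) (b2 : n2 ⬝ᵥ A < n2 ⬝ᵥ B)
    (c1 : n3 ⬝ᵥ C = n3 ⬝ᵥ A) (c2 : n3 ⬝ᵥ B < n3 ⬝ᵥ C) :
    IsConvexPolygon [A, B, C] := by
  have AC : A ≠ C := (ne_of_dot_lt a2).symm
  have AB : A ≠ B := ne_of_dot_lt b2
  have BC : B ≠ C := ne_of_dot_lt c2
  refine ⟨by simp, by simp [AC, AB, BC], ⟨m, hm, ?_⟩, ?_⟩
  · intro x hx y hy
    have key : ∀ x ∈ [A, B, C], m ⬝ᵥ x = m ⬝ᵥ A := by
      intro x hx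
      simp only [List.mem_cons, List.not_mem_nil, or_false] at hx
      rcases hx with rfl | rfl | rfl
      · rfl
      · exact h1.symm
      · rw [← h2]; exact h1.symm
    rw [key x hx, key y hy]
  · intro e he
    simp only [cycPairs, List.cons_append, List.nil_append, List.zip_cons_cons, List.zip_nil_right,
      List.mem_cons, List.not_mem_nil, or_false] at he
    rcases he with rfl | rfl | rfl
    · refine ⟨n1, a1, ?_⟩
      intro x hx x1 x2
      simp only [List.mem_cons, List.not_mem_nil, or_false] at hx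
      rcases hx with rfl | rfl | rfl
      · exact absurd rfl x1
      · exact absurd rfl x2
      · exact a2
    · refine ⟨n2, b1, ?_⟩
      intro x hx x1 x2
      simp only [List.mem_cons, List.not_mem_nil, or_false] at hx
      rcases hx with rfl | rfl | rfl
      · exact b2
      · exact absurd rfl x1
      · exact absurd rfl x2
    · refine ⟨n3, c1, ?_⟩
      intro x hx x1 x2
      simp only [List.mem_cons, List.not_mem_nil, or_false] at hx
      rcases hx with rfl | rfl | rfl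
      · exact absurd rfl x2
      · exact c2
      · exact absurd rfl x1

lemma dot_point (k u v : E3) (r : ℝ) : k ⬝ᵥ (u + r • v) = k ⬝ᵥ u + r * (k ⬝ᵥ v) := by
  rw [dotProduct_add, dotProduct_smul, smul_eq_mul]

lemma ratio (ε x : ℝ) (hx : x < 0) : ε / (-x) * x = -ε := by
  rw [div_neg, neg_mul, div_mul_cancel₀ _ hx.ne]

lemma dot_pt_eq' {m u v v' : E3} {r r' : ℝ} (h : r * (m ⬝ᵥ v) = r' * (m ⬝ᵥ v')) :
    m ⬝ᵥ (u + r • v) = m ⬝ᵥ (u + r' • v') := by
  rw [dot_point, dot_point, h]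

lemma neg_dot_eq {n u v v' : E3} {r r' : ℝ} (h : n ⬝ᵥ v = 0) (h' : n ⬝ᵥ v' = 0) :
    (-n) ⬝ᵥ (u + r • v) = (-n) ⬝ᵥ (u + r' • v') := by
  rw [dot_point, dot_point, neg_dotProduct, neg_dotProduct, neg_dotProduct, h, h']
  ring

lemma neg_dot_lt {n u v v' : E3} {r r' : ℝ} (hr : 0 < r) (h : 0 < n ⬝ᵥ v) (h' : n ⬝ᵥ v' = 0) :
    (-n) ⬝ᵥ (u + r • v) < (-n) ⬝ᵥ (u + r' • v') := by
  rw [dot_point, dot_point, neg_dotProduct, neg_dotProduct, neg_dotProduct, h']
  have := mul_pos hr h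
  linarith

/-- **Case A.** -/
lemma caseA_core (hR : IsRealization F p) {u a b c d : V} {fab fbc fcd fda : List V}
    (S : Star4 F u a b c d fab fbc fcd fda) (n1 n2 n3 n4 : E3)
    (a1 : n1 ⬝ᵥ (p a - p u) = 0) (b1 : n1 ⬝ᵥ (p b - p u) = 0) (c1 : 0 < n1 ⬝ᵥ (p c - p u))
    (d1 : 0 < n1 ⬝ᵥ (p d - p u))
    (b2 : n2 ⬝ᵥ (p b - p u) = 0) (c2 : n2 ⬝ᵥ (p c - p u) = 0) (d2 : 0 < n2 ⬝ᵥ (p d - p u))
    (a2 : 0 < n2 ⬝ᵥ (p a - p u))
    (c3 : n3 ⬝ᵥ (p c - p u) = 0) (d3 : n3 ⬝ᵥ (p d - p u) = 0) (a3 : 0 < n3 ⬝ᵥ (p a - p u))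
    (b3 : 0 < n3 ⬝ᵥ (p b - p u))
    (d4 : n4 ⬝ᵥ (p d - p u) = 0) (a4 : n4 ⬝ᵥ (p a - p u) = 0) (b4 : 0 < n4 ⬝ᵥ (p b - p u))
    (c4 : 0 < n4 ⬝ᵥ (p c - p u)) : IsConvexVertex F p u := by
  set m : E3 := -(n1 + n2 + n3 + n4) with hm
  have mdot : ∀ z, m ⬝ᵥ z = -(n1 ⬝ᵥ z + n2 ⬝ᵥ z + n3 ⬝ᵥ z + n4 ⬝ᵥ z) := by
    intro z
    rw [hm, neg_dotProduct, add_dotProduct, add_dotProduct, add_dotProduct]
  have ma : m ⬝ᵥ (p a - p u) < 0 := by rw [mdot]; linarith
  have mb : m ⬝ᵥ (p b - p u) < 0 := by rw [mdot]; linarith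
  have mc : m ⬝ᵥ (p c - p u) < 0 := by rw [mdot]; linarith
  have md : m ⬝ᵥ (p d - p u) < 0 := by rw [mdot]; linarith
  have hm0 : m ≠ 0 := by
    intro h
    rw [h, zero_dotProduct] at ma
    exact lt_irrefl _ ma
  obtain ⟨ε, hε, hε1⟩ : ∃ ε : ℝ, 0 < ε ∧ ε < min (min (-(m ⬝ᵥ (p a - p u))) (-(m ⬝ᵥ (p b - p u))))
      (min (-(m ⬝ᵥ (p c - p u))) (-(m ⬝ᵥ (p d - p u)))) := by
    apply exists_between
    simp only [lt_min_iff]
    refine ⟨⟨?_, ?_⟩, ?_, ?_⟩ <;> linarith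
  simp only [lt_min_iff] at hε1
  obtain ⟨⟨e1, e2⟩, e3, e4⟩ := hε1
  set ra : ℝ := ε / (-(m ⬝ᵥ (p a - p u))) with hra
  set rb : ℝ := ε / (-(m ⬝ᵥ (p b - p u))) with hrb
  set rc : ℝ := ε / (-(m ⬝ᵥ (p c - p u))) with hrc
  set rd : ℝ := ε / (-(m ⬝ᵥ (p d - p u))) with hrd
  have ra0 : 0 < ra := div_pos hε (by linarith)
  have rb0 : 0 < rb := div_pos hε (by linarith)
  have rc0 : 0 < rc := div_pos hε (by linarith)
  have rd0 : 0 < rd := div_pos hε (by linarith)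
  have ka : ra * (m ⬝ᵥ (p a - p u)) = -ε := ratio ε _ ma
  have kb : rb * (m ⬝ᵥ (p b - p u)) = -ε := ratio ε _ mb
  have kc : rc * (m ⬝ᵥ (p c - p u)) = -ε := ratio ε _ mc
  have kd : rd * (m ⬝ᵥ (p d - p u)) = -ε := ratio ε _ md
  refine ⟨m, m ⬝ᵥ p u - ε, by linarith, ?_, [p u + ra • (p a - p u), p u + rb • (p b - p u),
    p u + rc • (p c - p u), p u + rd • (p d - p u)], ?_, ?_⟩
  · intro w hw
    rcases S.nb w hw with rfl | rfl | rfl | rfl
    · rw [dotProduct_sub] at e1; linarith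
    · rw [dotProduct_sub] at e2; linarith
    · rw [dotProduct_sub] at e3; linarith
    · rw [dotProduct_sub] at e4; linarith
  · exact quad_polygon m (-n1) (-n2) (-n3) (-n4) _ _ _ _ hm0
      (dot_pt_eq' (ka.trans kb.symm)) (dot_pt_eq' (kb.trans kc.symm)) (dot_pt_eq' (kc.trans kd.symm))
      (neg_dot_eq a1 b1) (neg_dot_lt rc0 c1 a1) (neg_dot_lt rd0 d1 a1)
      (neg_dot_eq b2 c2) (neg_dot_lt rd0 d2 b2) (neg_dot_lt ra0 a2 b2)
      (neg_dot_eq c3 d3) (neg_dot_lt ra0 a3 c3) (neg_dot_lt rb0 b3 c3)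
      (neg_dot_eq d4 a4) (neg_dot_lt rb0 b4 d4) (neg_dot_lt rc0 c4 d4)
  · rw [S.figure hR m ε hε (by linarith) (by linarith) (by linarith) (by linarith) _ _ _ _
      rfl rfl rfl rfl]
    simp only [boundary, cycPairs, List.cons_append, List.nil_append, List.zip_cons_cons,
      List.zip_nil_right, List.mem_cons, List.not_mem_nil, or_false, Set.iUnion_iUnion_eq_or_left,
      Set.iUnion_iUnion_eq_left]
    rw [← hra, ← hrb, ← hrc, ← hrd]
    ext z
    simp only [Set.mem_union]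
    tauto

/-- a point of a segment divides it into two segments -/
lemma segment_split (x y : E3) (A B : ℝ) (hA : 0 < A) (hB : 0 < B) (h : A + B = 1) :
    segment ℝ x (A • x + B • y) ∪ segment ℝ (A • x + B • y) y = segment ℝ x y := by
  have hm : A • x + B • y ∈ segment ℝ x y := ⟨A, B, hA.le, hB.le, h, rfl⟩
  apply Set.Subset.antisymm
  · apply Set.union_subset
    · exact (convex_segment x y).segment_subset (left_mem_segment ℝ x y) hm
    · exact (convex_segment x y).segment_subset hm (right_mem_segment ℝ x y)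
  · rintro z ⟨a, b, ha, hb, hab, rfl⟩
    by_cases hle : b ≤ B
    · left
      refine ⟨1 - b / B, b / B, ?_, by positivity, by ring, ?_⟩
      · rw [sub_nonneg, div_le_one hB]; exact hle
      · have e : b / B * B = b := by field_simp
        have e2 : b / B * A = b / B - b := by
          have : A = 1 - B := by linarith
          rw [this, mul_sub, e, mul_one]
        rw [smul_add, smul_smul, smul_smul, e, e2, ← add_assoc, ← add_smul]
        congr 2
        linarith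
    · right
      push Not at hle
      have hA' : a ≤ A := by linarith
      refine ⟨a / A, 1 - a / A, by positivity, ?_, by ring, ?_⟩
      · rw [sub_nonneg, div_le_one hA]; exact hA'
      · have e : a / A * A = a := by field_simp
        have e2 : a / A * B = a / A - a := by
          have : B = 1 - A := by linarith
          rw [this, mul_sub, e, mul_one]
        rw [smul_add, smul_smul, smul_smul, e, e2, add_assoc, ← add_smul]
        congr 2
        linarith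

/-- **Case B**, the convex vertex: three of the four neighbours lie in a plane through `u`, and
they can be separated from `u`. -/
lemma caseB_core (hR : IsRealization F p) {u a b c d : V} {fab fbc fcd fda : List V}
    (S : Star4 F u a b c d fab fbc fcd fda) (n k0 : E3) (hn : n ≠ 0)
    (na : n ⬝ᵥ (p a - p u) = 0) (nb : n ⬝ᵥ (p b - p u) = 0) (nc : n ⬝ᵥ (p c - p u) = 0)
    (nd : n ⬝ᵥ (p d - p u) ≠ 0)
    (ka : k0 ⬝ᵥ (p a - p u) < 0) (kb : k0 ⬝ᵥ (p b - p u) < 0) (kc : k0 ⬝ᵥ (p c - p u) < 0) :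
    IsConvexVertex F p u := by
  set a' := p a - p u with ha'
  set b' := p b - p u with hb'
  set c' := p c - p u with hc'
  set d' := p d - p u with hd'
  have hopp : 0 < det3 n a' b' * det3 n b' c' :=
    opp hR S.mab S.mbc S.nab S.cab S.cbc S.ib n hn na nb nc
  -- the separating functional
  set M : ℝ := -(|k0 ⬝ᵥ d'| + 1) / (n ⬝ᵥ d') with hM
  set m : E3 := k0 + M • n with hm
  have mdot : ∀ z, m ⬝ᵥ z = k0 ⬝ᵥ z + M * (n ⬝ᵥ z) := by
    intro z
    rw [hm, add_dotProduct, smul_dotProduct, smul_eq_mul]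
  have ma : m ⬝ᵥ a' < 0 := by rw [mdot, na]; linarith
  have mb : m ⬝ᵥ b' < 0 := by rw [mdot, nb]; linarith
  have mc : m ⬝ᵥ c' < 0 := by rw [mdot, nc]; linarith
  have md : m ⬝ᵥ d' < 0 := by
    rw [mdot, hM, div_mul_cancel₀ _ nd]
    have := le_abs_self (k0 ⬝ᵥ d')
    linarith
  have hm0 : m ≠ 0 := by
    intro h
    rw [h, zero_dotProduct] at ma
    exact lt_irrefl _ ma
  -- `b'` lies in the open angle of `a', c'`
  have hpk := plane_k n m a' c' b' hn na nc nb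
  have hpid := plane_id n a' c' b' hn na nc nb
  have e1 : det3 n c' b' = - det3 n b' c' := by simp only [det3]; ring
  have e2 : det3 n b' a' = - det3 n a' b' := by simp only [det3]; ring
  rw [e1, e2] at hpk
  have hfac : ∃ A B : ℝ, 0 < A ∧ 0 < B ∧ b' = A • a' + B • c' ∧ det3 n a' c' ≠ 0 := by
    -- det3 n b' c' and det3 n a' b' have the same sign; so has det3 n a' c'
    have key : ∀ R : ℝ, R ≠ 0 → R = det3 n a' c' →
        b' = (det3 n b' c' / R) • a' + (det3 n a' b' / R) • c' := by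
      intro R hR1 hR2
      rw [← hR2] at hpid
      have : R • b' = R • ((det3 n b' c' / R) • a' + (det3 n a' b' / R) • c') := by
        rw [hpid, smul_add, smul_smul, smul_smul, mul_div_cancel₀ _ hR1, mul_div_cancel₀ _ hR1]
      exact smul_right_injective _ hR1 this
    rcases lt_trichotomy (det3 n b' c') 0 with h0 | h0 | h0
    · have x1 : det3 n a' b' < 0 := by
        by_contra hh; push Not at hh; nlinarith
      have x2 : det3 n a' c' < 0 := by
        by_contra hh; push Not at hh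
        have y1 := mul_pos_of_neg_of_neg h0 ma
        have y2 := mul_pos_of_neg_of_neg x1 mc
        have y3 := mul_nonpos_of_nonneg_of_nonpos hh mb.le
        linarith
      exact ⟨_, _, div_pos_of_neg_of_neg h0 x2, div_pos_of_neg_of_neg x1 x2, key _ x2.ne rfl,
        x2.ne⟩
    · rw [h0] at hopp; simp at hopp
    · have x1 : 0 < det3 n a' b' := by
        by_contra hh; push Not at hh; nlinarith
      have x2 : 0 < det3 n a' c' := by
        by_contra hh; push Not at hh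
        have y1 := mul_neg_of_pos_of_neg h0 ma
        have y2 := mul_neg_of_pos_of_neg x1 mc
        have y3 := mul_nonneg_of_nonpos_of_nonpos hh mb.le
        linarith
      exact ⟨_, _, div_pos h0 x2, div_pos x1 x2, key _ x2.ne' rfl, x2.ne'⟩
  obtain ⟨A, B, hA, hB, hbAB, hR0⟩ := hfac
  obtain ⟨ε, hε, hε1⟩ : ∃ ε : ℝ, 0 < ε ∧ ε < min (min (-(m ⬝ᵥ a')) (-(m ⬝ᵥ b')))
      (min (-(m ⬝ᵥ c')) (-(m ⬝ᵥ d'))) := by
    apply exists_between
    simp only [lt_min_iff]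
    refine ⟨⟨?_, ?_⟩, ?_, ?_⟩ <;> linarith
  simp only [lt_min_iff] at hε1
  obtain ⟨⟨f1, f2⟩, f3, f4⟩ := hε1
  have hfig := S.figure hR m ε hε (by linarith) (by linarith) (by linarith) (by linarith) _ _ _ _
      rfl rfl rfl rfl
  rw [← ha', ← hb', ← hc', ← hd'] at hfig
  set ra : ℝ := ε / (-(m ⬝ᵥ a')) with hra
  set rb : ℝ := ε / (-(m ⬝ᵥ b')) with hrb
  set rc : ℝ := ε / (-(m ⬝ᵥ c')) with hrc
  set rd : ℝ := ε / (-(m ⬝ᵥ d')) with hrd
  have ra0 : 0 < ra := div_pos hε (by linarith)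
  have rb0 : 0 < rb := div_pos hε (by linarith)
  have rc0 : 0 < rc := div_pos hε (by linarith)
  have rd0 : 0 < rd := div_pos hε (by linarith)
  have ka : ra * (m ⬝ᵥ a') = -ε := ratio ε _ ma
  have kb : rb * (m ⬝ᵥ b') = -ε := ratio ε _ mb
  have kc : rc * (m ⬝ᵥ c') = -ε := ratio ε _ mc
  have kd : rd * (m ⬝ᵥ d') = -ε := ratio ε _ md
  -- the point on the edge to `b` divides the segment between the points on the edges to `a, c`
  have hsum : rb * A / ra + rb * B / rc = 1 := by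
    have g1 : m ⬝ᵥ b' = A * (m ⬝ᵥ a') + B * (m ⬝ᵥ c') := by
      rw [hbAB, dotProduct_add, dotProduct_smul, dotProduct_smul, smul_eq_mul, smul_eq_mul]
    have g2 : m ⬝ᵥ a' = -ε / ra := by rw [← ka, mul_div_cancel_left₀ _ ra0.ne']
    have g3 : m ⬝ᵥ c' = -ε / rc := by rw [← kc, mul_div_cancel_left₀ _ rc0.ne']
    rw [g1, g2, g3] at kb
    have g4 : -ε * (rb * A / ra + rb * B / rc) = -ε * 1 := by
      rw [mul_one]
      calc -ε * (rb * A / ra + rb * B / rc) = rb * (A * (-ε / ra) + B * (-ε / rc)) := by ring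
        _ = -ε := kb
    exact mul_left_cancel₀ (by linarith : (-ε) ≠ 0) g4
  have hpb : p u + rb • b' = (rb * A / ra) • (p u + ra • a') + (rb * B / rc) • (p u + rc • c') := by
    rw [smul_add, smul_add, smul_smul, smul_smul, div_mul_cancel₀ _ ra0.ne',
      div_mul_cancel₀ _ rc0.ne']
    have : p u = (rb * A / ra) • p u + (rb * B / rc) • p u := by
      rw [← add_smul, hsum, one_smul]
    calc p u + rb • b' = ((rb * A / ra) • p u + (rb * B / rc) • p u) +
          ((rb * A) • a' + (rb * B) • c') := by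
          rw [← this, hbAB, smul_add, smul_smul, smul_smul]
      _ = _ := by abel
  have hsplit := segment_split (p u + ra • a') (p u + rc • c') (rb * A / ra) (rb * B / rc)
    (by positivity) (by positivity) hsum
  rw [← hpb] at hsplit
  rw [hsplit] at hfig
  -- the determinant
  have hD : det3 a' c' d' ≠ 0 := by
    intro h0
    have g := det_of_plane n a' c' d'
    rw [h0, na, nc] at g
    have : det3 n a' c' * (n ⬝ᵥ d') = 0 := by linarith
    rcases mul_eq_zero.1 this with h1 | h1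
    · exact hR0 h1
    · exact nd h1
  set D := det3 a' c' d' with hDdef
  have hDD : 0 < D * D := mul_self_pos.2 hD
  have crs_s : ∀ x y z : E3, (D • crs x y) ⬝ᵥ z = D * det3 x y z := by
    intro x y z
    rw [smul_dotProduct, crs_dot, smul_eq_mul]
  have q1 : (D • crs a' c') ⬝ᵥ a' = 0 := by rw [crs_s, det3_self_left, mul_zero]
  have q2 : (D • crs a' c') ⬝ᵥ c' = 0 := by rw [crs_s, det3_self_right, mul_zero]
  have q3 : 0 < (D • crs a' c') ⬝ᵥ d' := by rw [crs_s]; exact hDD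
  have q4 : (D • crs c' d') ⬝ᵥ c' = 0 := by rw [crs_s, det3_self_left, mul_zero]
  have q5 : (D • crs c' d') ⬝ᵥ d' = 0 := by rw [crs_s, det3_self_right, mul_zero]
  have q6 : 0 < (D • crs c' d') ⬝ᵥ a' := by rw [crs_s, ← det3_rot]; exact hDD
  have q7 : (D • crs d' a') ⬝ᵥ d' = 0 := by rw [crs_s, det3_self_left, mul_zero]
  have q8 : (D • crs d' a') ⬝ᵥ a' = 0 := by rw [crs_s, det3_self_right, mul_zero]
  have q9 : 0 < (D • crs d' a') ⬝ᵥ c' := by rw [crs_s, det3_rot]; exact hDD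
  refine ⟨m, m ⬝ᵥ p u - ε, by linarith, ?_, [p u + ra • a', p u + rc • c', p u + rd • d'], ?_, ?_⟩
  · intro w hw
    rcases S.nb w hw with rfl | rfl | rfl | rfl
    · rw [ha', dotProduct_sub] at f1; linarith
    · rw [hb', dotProduct_sub] at f2; linarith
    · rw [hc', dotProduct_sub] at f3; linarith
    · rw [hd', dotProduct_sub] at f4; linarith
  · exact tri_polygon m _ _ _ _ _ _ hm0 (dot_pt_eq' (ka.trans kc.symm))
      (dot_pt_eq' (kc.trans kd.symm)) (neg_dot_eq q1 q2) (neg_dot_lt rd0 q3 q1)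
      (neg_dot_eq q4 q5) (neg_dot_lt ra0 q6 q4) (neg_dot_eq q7 q8) (neg_dot_lt rc0 q9 q7)
  · rw [hfig]
    simp only [boundary, cycPairs, List.cons_append, List.nil_append, List.zip_cons_cons,
      List.zip_nil_right, List.mem_cons, List.not_mem_nil, or_false, Set.iUnion_iUnion_eq_or_left,
      Set.iUnion_iUnion_eq_left]
    ext z
    simp only [Set.mem_union]
    tauto

/-- no vertex with three coplanar faces is extreme among its neighbours -/
lemma Star3.false (hR : IsRealization F p) {u a b c : V} {fab fbc fca : List V}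
    (S : Star3 F u a b c fab fbc fca) (n k : E3) (hn : n ≠ 0)
    (na : n ⬝ᵥ (p a - p u) = 0) (nb : n ⬝ᵥ (p b - p u) = 0) (nc : n ⬝ᵥ (p c - p u) = 0)
    (ka : k ⬝ᵥ (p a - p u) < 0) (kb : k ⬝ᵥ (p b - p u) < 0) (kc : k ⬝ᵥ (p c - p u) < 0) :
    False := by
  have h1 := opp hR S.mab S.mbc S.nab S.cab S.cbc S.ib n hn na nb nc
  have h2 := opp hR S.mbc S.mca S.nbc S.cbc S.cca S.ic n hn nb nc na
  exact cycle3_false n k _ _ _ hn na nb nc ka kb kc h1 h2

/-- no vertex with four coplanar faces is extreme among its neighbours -/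
lemma Star4.false (hR : IsRealization F p) {u a b c d : V} {fab fbc fcd fda : List V}
    (S : Star4 F u a b c d fab fbc fcd fda) (n k : E3) (hn : n ≠ 0)
    (na : n ⬝ᵥ (p a - p u) = 0) (nb : n ⬝ᵥ (p b - p u) = 0) (nc : n ⬝ᵥ (p c - p u) = 0)
    (nd : n ⬝ᵥ (p d - p u) = 0)
    (ka : k ⬝ᵥ (p a - p u) < 0) (kb : k ⬝ᵥ (p b - p u) < 0) (kc : k ⬝ᵥ (p c - p u) < 0)
    (kd : k ⬝ᵥ (p d - p u) < 0) : False := by
  have h1 := opp hR S.mab S.mbc S.nab S.cab S.cbc S.ib n hn na nb nc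
  have h2 := opp hR S.mbc S.mcd S.nbc S.cbc S.ccd S.ic n hn nb nc nd
  have h3 := opp hR S.mcd S.mda S.ncd S.ccd S.cda S.id n hn nc nd na
  exact cycle4_false n k _ _ _ _ hn na nb nc nd ka kb kc kd h1 h2 h3

end

end Pool.Agent.R180.CV
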