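import Mathlib

set_option autoImplicit false

/-!
# A verified checker for unit propagation refutations

Clauses are lists of literals `(variable, value)`. A refutation is a list of derived clauses, each
with the list of positions of the clauses to be used for unit propagation.
-/

namespace Pool.Agent.R180.Rup

/-- a literal: variable number and value -/
abbrev Lit := ℕ × Bool

/-- a clause -/
abbrev Clause := List Lit

/-- the assignment `v` satisfies the clause `C` -/
def Sat (v : ℕ → Bool) (C : Clause) : Prop := ∃ l ∈ C, v l.1 = l.2

/-- the literals of `C` which are not falsified by the true literals `asg` -/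
def rest (asg : List Lit) : Clause → Clause
  | [] => []
  | l :: C => if asg.contains (l.1, !l.2) then rest asg C else l :: rest asg C

/-- unit propagation along the hints; `true` if a conflict is reached -/
def run (db : List Clause) : List ℕ → List Lit → Bool
  | [], _ => false
  | h :: hs, asg =>
    match db[h]? with
    | none => false
    | some C =>
      match rest asg C with
      | [] => true
      | [l] => run db hs (l :: asg)
      | _ => false

/-- a refutation: every clause of the list is derived, the last one is empty; a derived clause is
put at the front of the data base, the hints are positions in the current data base -/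
def refute (db : List Clause) : List (Clause × List ℕ) → Bool
  | [] => false
  | (C, hs) :: r =>
    run db hs (C.map fun l => (l.1, !l.2)) && (C.isEmpty || refute (C :: db) r)

lemma rest_spec {v : ℕ → Bool} {asg : List Lit} (ha : ∀ l ∈ asg, v l.1 = l.2) :
    ∀ C : Clause, Sat v C → ∃ l ∈ rest asg C, v l.1 = l.2 := by
  intro C
  induction C with
  | nil => rintro ⟨l, hl, -⟩; simp at hl
  | cons a C ih =>
    rintro ⟨l, hl, hv⟩
    unfold rest
    split_ifs with h
    · rcases List.mem_cons.1 hl with rfl | hl'
      · have h1 := ha (l.1, !l.2) (by simpa using h)
        simp only at h1
        rw [hv] at h1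
        cases h2 : l.2 <;> rw [h2] at h1 <;> simp at h1
      · exact ih ⟨l, hl', hv⟩
    · rcases List.mem_cons.1 hl with rfl | hl'
      · exact ⟨l, List.mem_cons_self, hv⟩
      · obtain ⟨l', h1, h2⟩ := ih ⟨l, hl', hv⟩
        exact ⟨l', List.mem_cons_of_mem _ h1, h2⟩

lemma run_sound {v : ℕ → Bool} {db : List Clause} (hdb : ∀ C ∈ db, Sat v C) :
    ∀ (hs : List ℕ) (asg : List Lit), (∀ l ∈ asg, v l.1 = l.2) → run db hs asg = true → False := by
  intro hs
  induction hs with
  | nil => intro asg _ h; simp [run] at h
  | cons a hs ih =>
    intro asg ha h
    unfold run at h
    cases hC : db[a]? with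
    | none => rw [hC] at h; simp at h
    | some C =>
      rw [hC] at h
      simp only at h
      have hmem : C ∈ db := List.mem_of_getElem? hC
      obtain ⟨l, hl, hv⟩ := rest_spec ha C (hdb C hmem)
      cases hr : rest asg C with
      | nil => rw [hr] at hl; simp at hl
      | cons b R =>
        cases R with
        | nil =>
          rw [hr] at h hl
          simp only at h
          have hb : l = b := by simpa using hl
          subst hb
          refine ih (l :: asg) ?_ h
          intro l' hl'
          rcases List.mem_cons.1 hl' with rfl | h'
          · exact hv
          · exact ha l' h'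
        | cons b' R' =>
          rw [hr] at h
          simp at h

theorem refute_sound {v : ℕ → Bool} : ∀ (steps : List (Clause × List ℕ)) (db : List Clause),
    (∀ C ∈ db, Sat v C) → refute db steps = true → False := by
  intro steps
  induction steps with
  | nil => intro db _ h; simp [refute] at h
  | cons s r ih =>
    obtain ⟨C, hs⟩ := s
    intro db hdb h
    simp only [refute, Bool.and_eq_true, Bool.or_eq_true] at h
    obtain ⟨h1, h2⟩ := h
    have hC : Sat v C := by
      by_contra hcon
      refine run_sound hdb hs _ ?_ h1
      intro l hl
      obtain ⟨l', hl', rfl⟩ := List.mem_map.1 hl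
      have h3 : ¬ v l'.1 = l'.2 := fun h4 => hcon ⟨l', hl', h4⟩
      simp only
      cases h5 : v l'.1 <;> cases h6 : l'.2 <;> simp_all
    rcases h2 with h2 | h2
    · have : C = [] := by simpa using h2
      subst this
      obtain ⟨l, hl, -⟩ := hC
      simp at hl
    · refine ih (C :: db) ?_ h2
      intro C' hC'
      rcases List.mem_cons.1 hC' with rfl | h'
      · exact hC
      · exact hdb C' h'

end Pool.Agent.R180.Rup
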