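import Mathlib
import Pool.Agent.R180.Rup

set_option autoImplicit false

/-!
# Orientation determinants of points of `ℝ^(m+1)`

`D p l` is the determinant of the homogeneous coordinates of the points `p i`, `i ∈ l`.
Alternation and the three-term Grassmann-Plücker relations.
-/

namespace Pool.Agent.R180.Chi

open Matrix

variable {m : ℕ}

/-! ### The bilinear form `B(x, y) = det (a, x, y)` -/

/-- the rows `a, x, y` -/
def rows3 (a : Fin m → Fin (m + 2) → ℝ) (x y : Fin (m + 2) → ℝ) :
    Matrix (Fin (m + 2)) (Fin (m + 2)) ℝ :=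
  Matrix.of (Fin.snoc (α := fun _ => Fin (m + 2) → ℝ)
    (Fin.snoc (α := fun _ => Fin (m + 2) → ℝ) a x) y)

/-- the form -/
noncomputable def B (a : Fin m → Fin (m + 2) → ℝ) (x y : Fin (m + 2) → ℝ) : ℝ := (rows3 a x y).det

lemma rows3_last (a : Fin m → Fin (m + 2) → ℝ) (x y : Fin (m + 2) → ℝ) :
    rows3 a x y (Fin.last _) = y := by
  funext c; simp [rows3]

lemma rows3_mid (a : Fin m → Fin (m + 2) → ℝ) (x y : Fin (m + 2) → ℝ) :
    rows3 a x y (Fin.castSucc (Fin.last _)) = x := by
  funext c; simp [rows3]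

lemma rows3_a (a : Fin m → Fin (m + 2) → ℝ) (x y : Fin (m + 2) → ℝ) (j : Fin m) :
    rows3 a x y (Fin.castSucc (Fin.castSucc j)) = a j := by
  funext c; simp [rows3]

lemma rows3_update (a : Fin m → Fin (m + 2) → ℝ) (x x' y : Fin (m + 2) → ℝ) :
    rows3 a x' y = (rows3 a x y).updateRow (Fin.castSucc (Fin.last _)) x' := by
  ext i c
  refine Fin.lastCases ?_ (fun i => ?_) i
  · rw [updateRow_ne (by exact (Fin.castSucc_lt_last _).ne'), rows3_last, rows3_last]
  · refine Fin.lastCases ?_ (fun i => ?_) i
    · rw [updateRow_self, rows3_mid]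
    · rw [updateRow_ne, rows3_a, rows3_a]
      intro h
      exact (Fin.castSucc_lt_last i).ne (Fin.castSucc_injective _ h)

lemma B_add (a : Fin m → Fin (m + 2) → ℝ) (x x' y : Fin (m + 2) → ℝ) :
    B a (x + x') y = B a x y + B a x' y := by
  unfold B
  rw [rows3_update a 0 (x + x'), rows3_update a 0 x, rows3_update a 0 x', det_updateRow_add]

lemma B_smul (a : Fin m → Fin (m + 2) → ℝ) (c : ℝ) (x y : Fin (m + 2) → ℝ) :
    B a (c • x) y = c * B a x y := by
  unfold B
  rw [rows3_update a 0 (c • x), rows3_update a 0 x, det_updateRow_smul]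

lemma B_self (a : Fin m → Fin (m + 2) → ℝ) (x : Fin (m + 2) → ℝ) : B a x x = 0 := by
  unfold B
  refine det_zero_of_row_eq (i := Fin.last _) (j := Fin.castSucc (Fin.last _))
    (Fin.castSucc_lt_last _).ne' ?_
  rw [rows3_last, rows3_mid]

lemma B_a (a : Fin m → Fin (m + 2) → ℝ) (j : Fin m) (y : Fin (m + 2) → ℝ) : B a (a j) y = 0 := by
  unfold B
  refine det_zero_of_row_eq (i := Fin.castSucc (Fin.last _)) (j := Fin.castSucc (Fin.castSucc j))
    ?_ ?_
  · intro h
    exact (Fin.castSucc_lt_last j).ne' (Fin.castSucc_injective _ h)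
  · rw [rows3_a, rows3_mid]

lemma B_swap (a : Fin m → Fin (m + 2) → ℝ) (x y : Fin (m + 2) → ℝ) : B a x y = - B a y x := by
  unfold B
  have h : rows3 a x y = (rows3 a y x).submatrix
      (Equiv.swap (Fin.last (m + 1)) (Fin.castSucc (Fin.last _))) id := by
    ext i c
    simp only [submatrix_apply, id]
    refine Fin.lastCases ?_ (fun i => ?_) i
    · rw [Equiv.swap_apply_left, rows3_last, rows3_mid]
    · refine Fin.lastCases ?_ (fun i => ?_) i
      · rw [Equiv.swap_apply_right, rows3_last, rows3_mid]
      · rw [Equiv.swap_apply_of_ne_of_ne, rows3_a, rows3_a]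
        · exact (Fin.castSucc_lt_last _).ne
        · intro h
          exact (Fin.castSucc_lt_last i).ne (Fin.castSucc_injective _ h)
  rw [h, det_permute, Equiv.Perm.sign_swap (Fin.castSucc_lt_last _).ne']
  simp

lemma B_sum (a : Fin m → Fin (m + 2) → ℝ) {ι : Type*} (s : Finset ι) (g : ι → ℝ)
    (w : ι → Fin (m + 2) → ℝ) (y : Fin (m + 2) → ℝ) :
    B a (∑ i ∈ s, g i • w i) y = ∑ i ∈ s, g i * B a (w i) y := by
  classical
  induction s using Finset.induction_on with
  | empty =>
    have : B a (0 : Fin (m + 2) → ℝ) y = 0 := by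
      have := B_smul a 0 0 y
      simpa using this
    simpa using this
  | insert i s hi ih => rw [Finset.sum_insert hi, Finset.sum_insert hi, B_add, B_smul, ih]

/-- The three-term Grassmann-Plücker relation. -/
theorem gp (a : Fin m → Fin (m + 2) → ℝ) (b1 b2 b3 b4 : Fin (m + 2) → ℝ) :
    B a b1 b2 * B a b3 b4 - B a b1 b3 * B a b2 b4 + B a b1 b4 * B a b2 b3 = 0 := by
  classical
  by_cases hall : ∀ x y, B a x y = 0
  · simp [hall]
  -- a linear relation
  let w : Fin m ⊕ Fin 3 → Fin (m + 2) → ℝ := Sum.elim a ![b1, b2, b3]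
  have hdep : ¬ LinearIndependent ℝ w := by
    intro h
    have h1 := h.fintype_card_le_finrank
    simp at h1
  rw [Fintype.not_linearIndependent_iff] at hdep
  obtain ⟨g, hg, i0, hi0⟩ := hdep
  rw [Fintype.sum_sum_type] at hg
  simp only [w, Sum.elim_inl, Sum.elim_inr, Fin.sum_univ_three] at hg
  set β1 := g (Sum.inr 0) with hβ1
  set β2 := g (Sum.inr 1) with hβ2
  set β3 := g (Sum.inr 2) with hβ3
  have hrel : ∀ y, β1 * B a b1 y + β2 * B a b2 y + β3 * B a b3 y = 0 := by
    intro y
    have h := congrArg (fun x => B a x y) hg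
    simp only [B_add, B_smul, B_sum, B_a, mul_zero, Finset.sum_const_zero, zero_add] at h
    have h0 : B a (0 : Fin (m + 2) → ℝ) y = 0 := by
      have := B_smul a 0 0 y
      simpa using this
    rw [h0] at h
    simpa using h
  by_cases hz : β1 = 0 ∧ β2 = 0 ∧ β3 = 0
  · exfalso
    obtain ⟨z1, z2, z3⟩ := hz
    apply hall
    intro x y
    -- the rows `a` are dependent
    rw [z1, z2, z3] at hg
    simp only [zero_smul, add_zero] at hg
    have hna : ∃ j, g (Sum.inl j) ≠ 0 := by
      rcases i0 with j | j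
      · exact ⟨j, hi0⟩
      · exfalso
        apply hi0
        fin_cases j
        · exact z1
        · exact z2
        · exact z3
    obtain ⟨j, hj⟩ := hna
    by_contra hne
    have hli : LinearIndependent ℝ (rows3 a x y).row := by
      rw [Matrix.linearIndependent_rows_iff_isUnit, Matrix.isUnit_iff_isUnit_det]
      exact isUnit_iff_ne_zero.2 hne
    have hli' : LinearIndependent ℝ a := by
      have := hli.comp (fun j : Fin m => Fin.castSucc (Fin.castSucc j)) (by
        intro i j hij
        exact Fin.castSucc_injective _ (Fin.castSucc_injective _ hij))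
      have h2 : (rows3 a x y).row ∘ (fun j : Fin m => Fin.castSucc (Fin.castSucc j)) = a := by
        funext j
        exact rows3_a a x y j
      rwa [h2] at this
    exact hj ((Fintype.linearIndependent_iff.1 hli') _ hg j)
  · have r1 := hrel b1
    have r2 := hrel b2
    have r3 := hrel b3
    have r4 := hrel b4
    rw [B_self] at r1 r2 r3
    rw [B_swap a b2 b1, B_swap a b3 b1] at r1
    rw [B_swap a b3 b2] at r2
    have key : ∀ β : ℝ, (β = β1 ∨ β = β2 ∨ β = β3) →
        β * (B a b1 b2 * B a b3 b4 - B a b1 b3 * B a b2 b4 + B a b1 b4 * B a b2 b3) = 0 := by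
      rintro β (rfl | rfl | rfl)
      · linear_combination (B a b3 b4) * r2 - (B a b2 b4) * r3 + (B a b2 b3) * r4
      · linear_combination (-(B a b3 b4)) * r1 + (B a b1 b4) * r3 - (B a b1 b3) * r4
      · linear_combination ((B a b2 b4)) * r1 - (B a b1 b4) * r2 + (B a b1 b2) * r4
    have hne : ∃ β : ℝ, (β = β1 ∨ β = β2 ∨ β = β3) ∧ β ≠ 0 := by
      by_contra hcon
      push Not at hcon
      exact hz ⟨hcon _ (Or.inl rfl), hcon _ (Or.inr (Or.inl rfl)), hcon _ (Or.inr (Or.inr rfl))⟩
    obtain ⟨β, hβ, hβ0⟩ := hne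
    exact (mul_eq_zero.1 (key β hβ)).resolve_left hβ0

/-! ### Determinants of points -/

/-- homogeneous coordinates -/
def hom (x : Fin (m + 1) → ℝ) : Fin (m + 2) → ℝ := Fin.cons 1 x

/-- orientation determinant of the points with indices in the list `l` -/
noncomputable def D (p : ℕ → Fin (m + 1) → ℝ) (l : List ℕ) : ℝ :=
  (Matrix.of fun r : Fin (m + 2) => hom (p (l.getD r 0))).det

lemma D_swap (p : ℕ → Fin (m + 1) → ℝ) (l1 : List ℕ) (x y : ℕ) (l2 : List ℕ)
    (hlen : (l1 ++ x :: y :: l2).length = m + 2) :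
    D p (l1 ++ y :: x :: l2) = - D p (l1 ++ x :: y :: l2) := by
  have hl : l1.length + 1 < m + 2 := by simp at hlen; omega
  let i : Fin (m + 2) := ⟨l1.length, by omega⟩
  let j : Fin (m + 2) := ⟨l1.length + 1, hl⟩
  have hij : i ≠ j := by intro h; have := congrArg Fin.val h; simp [i, j] at this
  unfold D
  have h : (Matrix.of fun r : Fin (m + 2) => hom (p ((l1 ++ y :: x :: l2).getD r 0))) =
      (Matrix.of fun r : Fin (m + 2) => hom (p ((l1 ++ x :: y :: l2).getD r 0))).submatrix
        (Equiv.swap i j) id := by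
    ext r c
    simp only [submatrix_apply, id, of_apply]
    refine congrArg (fun z => hom (p z) c) ?_
    by_cases h1 : r = i
    · subst h1
      rw [Equiv.swap_apply_left]
      simp [i, j, List.getD_append_right]
    · by_cases h2 : r = j
      · subst h2
        rw [Equiv.swap_apply_right]
        simp [i, j, List.getD_append_right]
      · rw [Equiv.swap_apply_of_ne_of_ne h1 h2]
        by_cases h3 : (r : ℕ) < l1.length
        · rw [List.getD_append _ _ _ _ h3, List.getD_append _ _ _ _ h3]
        · have h4 : (r : ℕ) ≠ l1.length := fun h => h1 (Fin.ext h)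
          have h5 : (r : ℕ) ≠ l1.length + 1 := fun h => h2 (Fin.ext h)
          rw [List.getD_append_right _ _ _ _ (by omega), List.getD_append_right _ _ _ _ (by omega)]
          obtain ⟨k, hk⟩ : ∃ k, (r : ℕ) - l1.length = k + 2 := ⟨r - l1.length - 2, by omega⟩
          rw [hk]
          simp
  rw [h, det_permute, Equiv.Perm.sign_swap hij]
  simp

/-- insertion with parity -/
def ins (x : ℕ) : List ℕ → List ℕ × Bool
  | [] => ([x], false)
  | y :: l => if x ≤ y then (x :: y :: l, false) else (y :: (ins x l).1, !(ins x l).2)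

/-- insertion sort with parity -/
def srt : List ℕ → List ℕ × Bool
  | [] => ([], false)
  | x :: l => ((ins x (srt l).1).1, xor (srt l).2 (ins x (srt l).1).2)

/-- the sign of a parity -/
def sg (b : Bool) : ℝ := if b then -1 else 1

lemma sg_not (b : Bool) : sg (!b) = - sg b := by cases b <;> simp [sg]

lemma sg_xor (a b : Bool) : sg (xor a b) = sg a * sg b := by cases a <;> cases b <;> simp [sg]

lemma ins_length (x : ℕ) (l : List ℕ) : (ins x l).1.length = l.length + 1 := by
  induction l with
  | nil => rfl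
  | cons y l ih =>
    unfold ins
    split_ifs
    · rfl
    · simp [ih]

lemma srt_length (l : List ℕ) : (srt l).1.length = l.length := by
  induction l with
  | nil => rfl
  | cons y l ih => simp [srt, ins_length, ih]

lemma D_ins (p : ℕ → Fin (m + 1) → ℝ) (x : ℕ) (l : List ℕ) : ∀ l1 : List ℕ,
    (l1 ++ x :: l).length = m + 2 → D p (l1 ++ x :: l) = sg (ins x l).2 * D p (l1 ++ (ins x l).1) := by
  induction l with
  | nil => intro l1 _; simp [ins, sg]
  | cons y l ih =>
    intro l1 hl
    unfold ins
    split_ifs with h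
    · simp [sg]
    · simp only
      rw [sg_not]
      have h1 := D_swap p l1 y x l (by simpa using hl)
      rw [h1]
      have h2 := ih (l1 ++ [y]) (by simpa using hl)
      simp only [List.append_assoc, List.cons_append, List.nil_append] at h2
      rw [h2]
      ring

lemma D_srt (p : ℕ → Fin (m + 1) → ℝ) (l : List ℕ) : ∀ l1 : List ℕ,
    (l1 ++ l).length = m + 2 → D p (l1 ++ l) = sg (srt l).2 * D p (l1 ++ (srt l).1) := by
  induction l with
  | nil => intro l1 _; simp [srt, sg]
  | cons x l ih =>
    intro l1 hl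
    have h1 := ih (l1 ++ [x]) (by simpa using hl)
    simp only [List.append_assoc, List.cons_append, List.nil_append] at h1
    rw [h1]
    have h2 := D_ins p x (srt l).1 l1 (by simpa [srt_length] using hl)
    rw [h2]
    simp only [srt]
    rw [sg_xor]
    ring

/-- sorting a full list -/
lemma D_eq_srt (p : ℕ → Fin (m + 1) → ℝ) (l : List ℕ) (hl : l.length = m + 2) :
    D p l = sg (srt l).2 * D p (srt l).1 := by
  have := D_srt p l [] (by simpa using hl)
  simpa using this

/-- the determinants as values of the form `B` -/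
lemma D_eq_B (p : ℕ → Fin (m + 1) → ℝ) (A : List ℕ) (hA : A.length = m) (x y : ℕ) :
    D p (A ++ [x, y]) = B (fun j : Fin m => hom (p (A.getD j 0))) (hom (p x)) (hom (p y)) := by
  unfold D B
  congr 1
  ext r c
  refine Fin.lastCases ?_ (fun r => ?_) r
  · rw [rows3_last]
    simp only [of_apply, Fin.val_last]
    rw [List.getD_append_right _ _ _ _ (by omega)]
    have : m + 1 - A.length = 1 := by omega
    rw [this]
    simp
  · refine Fin.lastCases ?_ (fun r => ?_) r
    · rw [rows3_mid]
      simp only [of_apply, Fin.val_castSucc, Fin.val_last]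
      rw [List.getD_append_right _ _ _ _ (by omega)]
      have : m - A.length = 0 := by omega
      rw [this]
      simp
    · rw [rows3_a]
      simp only [of_apply, Fin.val_castSucc]
      rw [List.getD_append _ _ _ _ (by omega)]

theorem gp_D (p : ℕ → Fin (m + 1) → ℝ) (A : List ℕ) (hA : A.length = m) (b1 b2 b3 b4 : ℕ) :
    D p (A ++ [b1, b2]) * D p (A ++ [b3, b4]) - D p (A ++ [b1, b3]) * D p (A ++ [b2, b4]) +
      D p (A ++ [b1, b4]) * D p (A ++ [b2, b3]) = 0 := by
  simp only [D_eq_B p A hA]
  exact gp _ _ _ _ _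

end Pool.Agent.R180.Chi
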