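import Mathlib
import Pool.Agent.R180.Chi

set_option autoImplicit false

/-!
# Certificates for the non-realizability of systems of facets

`N` points in general position in `ℝ^(m+1)` are given, together with a list of `(m+1)`-subsets such
that all other points lie on one side of the hyperplane spanned by each of them. A refutation by
unit propagation from the three-term Grassmann-Plücker relations shows that this is impossible.
-/

namespace Pool.Agent.R180.Cert

open Pool.Agent.R180.Rup Pool.Agent.R180.Chi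

/-- code of a list of numbers below 16 -/
def code (l : List ℕ) : ℕ := l.foldl (fun a x => 16 * a + x) 0

/-- decoding of `k` digits -/
def dec : ℕ → ℕ → List ℕ
  | 0, _ => []
  | k + 1, c => dec k (c / 16) ++ [c % 16]

/-- the literal expressing that the orientation of the tuple `t` is `b` -/
def litOf (t : List ℕ) (b : Bool) : Lit := (code (srt t).1, xor b (srt t).2)

/-- admissible tuples of length `k` of points with numbers below `N` -/
def tupOk (N k : ℕ) (t : List ℕ) : Bool :=
  t.length == k && (decide t.Nodup && (t.all (fun x => decide (x < N)) &&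
    (dec k (code (srt t).1) == (srt t).1 && decide (code (srt t).1 < 16 ^ k))))

/-- generators of clauses -/
inductive Gen where
  /-- the orientation of the first facet is positive -/
  | unit : Gen
  /-- if the facet number `i` has orientation `b` then so has the tuple formed with the point `x` -/
  | fac (i x : ℕ) (b : Bool) : Gen
  /-- one sign pattern excluded by a Grassmann-Plücker relation -/
  | gp (A : List ℕ) (b1 b2 b3 b4 : ℕ) (x y z t : Bool) : Gen

/-- the clause of a generator -/
def toClause (k : ℕ) (facets : List (List ℕ)) : Gen → Clause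
  | Gen.unit => [(16 ^ k, true)]
  | Gen.fac i x b => [(16 ^ k + i, !b), litOf (facets.getD i [] ++ [x]) b]
  | Gen.gp A b1 b2 b3 b4 x y z t =>
    [litOf (A ++ [b1, b2]) (!x), litOf (A ++ [b3, b4]) (!(x == t)),
      litOf (A ++ [b1, b3]) (!y), litOf (A ++ [b2, b4]) (!(y == !t)),
      litOf (A ++ [b1, b4]) (!z), litOf (A ++ [b2, b3]) (!(z == t))]

/-- admissibility of a generator -/
def genOk (N k : ℕ) (facets : List (List ℕ)) : Gen → Bool
  | Gen.unit => true
  | Gen.fac i x _ => decide (i < facets.length) && tupOk N k (facets.getD i [] ++ [x])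
  | Gen.gp A b1 b2 b3 b4 _ _ _ _ =>
    (A.length + 2 == k) && tupOk N k (A ++ [b1, b2]) && tupOk N k (A ++ [b3, b4]) &&
      tupOk N k (A ++ [b1, b3]) && tupOk N k (A ++ [b2, b4]) &&
      tupOk N k (A ++ [b1, b4]) && tupOk N k (A ++ [b2, b3])

variable {m : ℕ}

/-- the assignment -/
noncomputable def val (p : ℕ → Fin (m + 1) → ℝ) (δ : ℝ) (ε : ℕ → Bool) (c : ℕ) : Bool :=
  if c < 16 ^ (m + 2) then decide (0 < δ * D p (dec (m + 2) c)) else ε (c - 16 ^ (m + 2))

lemma litOf_spec {N : ℕ} {p : ℕ → Fin (m + 1) → ℝ} {δ : ℝ} {ε : ℕ → Bool} (hδ : δ ≠ 0)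
    (hD : ∀ l : List ℕ, l.length = m + 2 → l.Nodup → (∀ x ∈ l, x < N) → D p l ≠ 0)
    {t : List ℕ} (ht : tupOk N (m + 2) t = true) (b : Bool) :
    val p δ ε (litOf t b).1 = (litOf t b).2 ↔ decide (0 < δ * D p t) = b := by
  simp only [tupOk, Bool.and_eq_true, beq_iff_eq, decide_eq_true_eq, List.all_eq_true] at ht
  obtain ⟨h1, h2, h3, h4, h5⟩ := ht
  have hne := hD t h1 h2 h3
  have he := D_eq_srt p t h1
  have hne' : D p (srt t).1 ≠ 0 := by
    intro h0
    rw [h0, mul_zero] at he
    exact hne he
  simp only [litOf, val, h5, if_true, h4]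
  rw [he]
  cases hs : (srt t).2
  · simp [sg]
  · simp only [sg, if_true, Bool.xor_true]
    have hx : δ * D p (srt t).1 ≠ 0 := mul_ne_zero hδ hne'
    have e : δ * (-1 * D p (srt t).1) = -(δ * D p (srt t).1) := by ring
    rw [e]
    rcases lt_or_gt_of_ne hx with h | h
    · have a1 : ¬ 0 < δ * D p (srt t).1 := not_lt.2 h.le
      have a2 : 0 < -(δ * D p (srt t).1) := by linarith
      simp only [a1, a2, decide_true, decide_false]
      cases b <;> simp
    · have a2 : ¬ 0 < -(δ * D p (srt t).1) := by linarith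
      simp only [h, a2, decide_true, decide_false]
      cases b <;> simp

/-- every clause of an admissible generator is satisfied -/
lemma gen_sat {N : ℕ} {p : ℕ → Fin (m + 1) → ℝ} {δ : ℝ} {ε : ℕ → Bool} (hδ : δ = 1 ∨ δ = -1)
    {facets : List (List ℕ)}
    (hD : ∀ l : List ℕ, l.length = m + 2 → l.Nodup → (∀ x ∈ l, x < N) → D p l ≠ 0)
    (hε : ∀ i, i < facets.length → ∀ x, tupOk N (m + 2) (facets.getD i [] ++ [x]) = true →
      decide (0 < δ * D p (facets.getD i [] ++ [x])) = ε i)
    (h0 : ε 0 = true) (g : Gen) (hg : genOk N (m + 2) facets g = true) :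
    Sat (val p δ ε) (toClause (m + 2) facets g) := by
  have hδ0 : δ ≠ 0 := by rcases hδ with rfl | rfl <;> norm_num
  cases g with
  | unit =>
    refine ⟨(16 ^ (m + 2), true), by simp [toClause], ?_⟩
    simp [val, h0]
  | fac i x b =>
    simp only [genOk, Bool.and_eq_true, decide_eq_true_eq] at hg
    obtain ⟨h1, h2⟩ := hg
    have h3 := hε i h1 x h2
    by_cases hb : ε i = b
    · refine ⟨_, by simp only [toClause]; exact List.mem_cons_of_mem _ List.mem_cons_self, ?_⟩
      rw [litOf_spec hδ0 hD h2, h3, hb]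
    · refine ⟨(16 ^ (m + 2) + i, !b), by simp [toClause], ?_⟩
      simp only [val]
      rw [if_neg (by omega), Nat.add_sub_cancel_left]
      cases h4 : ε i <;> cases b <;> simp_all
  | gp A b1 b2 b3 b4 x y z t =>
    simp only [genOk, Bool.and_eq_true, beq_iff_eq] at hg
    obtain ⟨⟨⟨⟨⟨⟨hA, t12⟩, t34⟩, t13⟩, t24⟩, t14⟩, t23⟩ := hg
    have hA' : A.length = m := by omega
    have hgp := gp_D p A hA' b1 b2 b3 b4
    by_contra hcon
    simp only [Sat, toClause, not_exists, not_and] at hcon
    have c12 := hcon _ (List.mem_cons_self)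
    have c34 := hcon _ (List.mem_cons_of_mem _ List.mem_cons_self)
    have c13 := hcon _ (List.mem_cons_of_mem _ (List.mem_cons_of_mem _ List.mem_cons_self))
    have c24 := hcon _ (List.mem_cons_of_mem _ (List.mem_cons_of_mem _ (List.mem_cons_of_mem _
      List.mem_cons_self)))
    have c14 := hcon _ (List.mem_cons_of_mem _ (List.mem_cons_of_mem _ (List.mem_cons_of_mem _
      (List.mem_cons_of_mem _ List.mem_cons_self))))
    have c23 := hcon _ (List.mem_cons_of_mem _ (List.mem_cons_of_mem _ (List.mem_cons_of_mem _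
      (List.mem_cons_of_mem _ (List.mem_cons_of_mem _ List.mem_cons_self)))))
    rw [litOf_spec hδ0 hD t12] at c12
    rw [litOf_spec hδ0 hD t34] at c34
    rw [litOf_spec hδ0 hD t13] at c13
    rw [litOf_spec hδ0 hD t24] at c24
    rw [litOf_spec hδ0 hD t14] at c14
    rw [litOf_spec hδ0 hD t23] at c23
    simp only [tupOk, Bool.and_eq_true, beq_iff_eq, decide_eq_true_eq, List.all_eq_true]
      at t12 t34 t13 t24 t14 t23
    have n12 := mul_ne_zero hδ0 (hD _ t12.1 t12.2.1 t12.2.2.1)
    have n34 := mul_ne_zero hδ0 (hD _ t34.1 t34.2.1 t34.2.2.1)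
    have n13 := mul_ne_zero hδ0 (hD _ t13.1 t13.2.1 t13.2.2.1)
    have n24 := mul_ne_zero hδ0 (hD _ t24.1 t24.2.1 t24.2.2.1)
    have n14 := mul_ne_zero hδ0 (hD _ t14.1 t14.2.1 t14.2.2.1)
    have n23 := mul_ne_zero hδ0 (hD _ t23.1 t23.2.1 t23.2.2.1)
    have hδ2 : δ * δ = 1 := by rcases hδ with rfl | rfl <;> norm_num
    have hgp' : (δ * D p (A ++ [b1, b2])) * (δ * D p (A ++ [b3, b4])) -
        (δ * D p (A ++ [b1, b3])) * (δ * D p (A ++ [b2, b4])) +
        (δ * D p (A ++ [b1, b4])) * (δ * D p (A ++ [b2, b3])) = 0 := by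
      linear_combination (δ * δ) * hgp
    generalize δ * D p (A ++ [b1, b2]) = d12 at *
    generalize δ * D p (A ++ [b3, b4]) = d34 at *
    generalize δ * D p (A ++ [b1, b3]) = d13 at *
    generalize δ * D p (A ++ [b2, b4]) = d24 at *
    generalize δ * D p (A ++ [b1, b4]) = d14 at *
    generalize δ * D p (A ++ [b2, b3]) = d23 at *
    have key : ∀ (d : ℝ) (b : Bool), d ≠ 0 → ¬ decide (0 < d) = (!b) →
        (b = true → 0 < d) ∧ (b = false → d < 0) := by
      intro d b hd h
      constructor
      · rintro rfl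
        simpa using h
      · rintro rfl
        have : ¬ 0 < d := by simpa using h
        exact lt_of_le_of_ne (not_lt.1 this) hd
    obtain ⟨p12, q12⟩ := key _ _ n12 c12
    obtain ⟨p34, q34⟩ := key _ _ n34 c34
    obtain ⟨p13, q13⟩ := key _ _ n13 c13
    obtain ⟨p24, q24⟩ := key _ _ n24 c24
    obtain ⟨p14, q14⟩ := key _ _ n14 c14
    obtain ⟨p23, q23⟩ := key _ _ n23 c23
    have prod : ∀ (d e : ℝ) (b c : Bool), ((b = true → 0 < d) ∧ (b = false → d < 0)) →
        ((c = true → 0 < e) ∧ (c = false → e < 0)) →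
        ((b == c) = true → 0 < d * e) ∧ ((b == c) = false → d * e < 0) := by
      rintro d e b c ⟨hb1, hb2⟩ ⟨hc1, hc2⟩
      cases b <;> cases c <;> simp only [Bool.true_eq_false, Bool.false_eq_true, false_implies,
        forall_const, beq_self_eq_true, reduceCtorEq, true_and, and_true, implies_true,
        Bool.false_beq, Bool.true_beq, Bool.not_true, Bool.not_false] at *
      · exact mul_pos_of_neg_of_neg hb2 hc2
      · exact mul_neg_of_neg_of_pos hb2 hc1
      · exact mul_neg_of_pos_of_neg hb1 hc2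
      · exact mul_pos hb1 hc1
    have r1 := prod _ _ _ _ ⟨p12, q12⟩ ⟨p34, q34⟩
    have r2 := prod _ _ _ _ ⟨p13, q13⟩ ⟨p24, q24⟩
    have r3 := prod _ _ _ _ ⟨p14, q14⟩ ⟨p23, q23⟩
    have e1 : (x == (x == t)) = t := by cases x <;> cases t <;> rfl
    have e2 : (y == (y == !t)) = !t := by cases y <;> cases t <;> rfl
    have e3 : (z == (z == t)) = t := by cases z <;> cases t <;> rfl
    rw [e1] at r1
    rw [e2] at r2
    rw [e3] at r3
    cases t
    · have s1 := r1.2 rfl
      have s2 := r2.1 rfl
      have s3 := r3.2 rfl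
      linarith
    · have s1 := r1.1 rfl
      have s2 := r2.2 rfl
      have s3 := r3.1 rfl
      linarith

/-- A checked certificate excludes the configuration of points. -/
theorem no_realization {N : ℕ} (p : ℕ → Fin (m + 1) → ℝ) (facets : List (List ℕ)) (x0 : ℕ)
    (hD : ∀ l : List ℕ, l.length = m + 2 → l.Nodup → (∀ x ∈ l, x < N) → D p l ≠ 0)
    (hF : ∀ F ∈ facets, ∀ x, tupOk N (m + 2) (F ++ [x]) = true → ∀ y,
      tupOk N (m + 2) (F ++ [y]) = true → 0 < D p (F ++ [x]) * D p (F ++ [y]))
    (hx0 : tupOk N (m + 2) (facets.getD 0 [] ++ [x0]) = true) (hlen : 0 < facets.length)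
    (gens : List Gen) (hg : gens.all (genOk N (m + 2) facets) = true)
    (cls : List Clause) (hc : gens.map (toClause (m + 2) facets) = cls)
    (steps : List (Clause × List ℕ)) (hs : refute cls steps = true) : False := by
  classical
  subst hc
  have hne : D p (facets.getD 0 [] ++ [x0]) ≠ 0 := by
    simp only [tupOk, Bool.and_eq_true, beq_iff_eq, decide_eq_true_eq, List.all_eq_true] at hx0
    exact hD _ hx0.1 hx0.2.1 hx0.2.2.1
  obtain ⟨δ, hδ, hpos⟩ : ∃ δ : ℝ, (δ = 1 ∨ δ = -1) ∧ 0 < δ * D p (facets.getD 0 [] ++ [x0]) := by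
    rcases lt_or_gt_of_ne hne with h | h
    · exact ⟨-1, Or.inr rfl, by linarith⟩
    · exact ⟨1, Or.inl rfl, by linarith⟩
  have hδ2 : δ * δ = 1 := by rcases hδ with rfl | rfl <;> norm_num
  let ε : ℕ → Bool := fun i => decide (∃ x, tupOk N (m + 2) (facets.getD i [] ++ [x]) = true ∧
    0 < δ * D p (facets.getD i [] ++ [x]))
  have hmem : ∀ i, i < facets.length → facets.getD i [] ∈ facets := by
    intro i hi
    rw [List.getD_eq_getElem _ _ hi]
    exact List.getElem_mem hi
  have hε : ∀ i, i < facets.length → ∀ x, tupOk N (m + 2) (facets.getD i [] ++ [x]) = true →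
      decide (0 < δ * D p (facets.getD i [] ++ [x])) = ε i := by
    intro i hi x hx
    simp only [ε]
    rw [decide_eq_decide]
    constructor
    · intro h
      exact ⟨x, hx, h⟩
    · rintro ⟨y, hy, h⟩
      have h1 := hF _ (hmem i hi) x hx y hy
      have h2 : 0 < (δ * D p (facets.getD i [] ++ [x])) * (δ * D p (facets.getD i [] ++ [y])) := by
        calc (0 : ℝ) < D p (facets.getD i [] ++ [x]) * D p (facets.getD i [] ++ [y]) := h1
          _ = (δ * δ) * (D p (facets.getD i [] ++ [x]) * D p (facets.getD i [] ++ [y])) := by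
              rw [hδ2, one_mul]
          _ = _ := by ring
      exact (pos_iff_pos_of_mul_pos h2).2 h
  have h0 : ε 0 = true := by
    rw [← hε 0 hlen x0 hx0]
    simpa using hpos
  refine refute_sound (v := val p δ ε) steps _ ?_ hs
  intro C hC
  obtain ⟨g, hg', rfl⟩ := List.mem_map.1 hC
  exact gen_sat hδ hD hε h0 g (List.all_eq_true.1 hg g hg')

end Pool.Agent.R180.Cert
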