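import Mathlib
import Pool.Agent.R180.Cert

set_option autoImplicit false

/-!
# Perturbation to general position
-/

namespace Pool.Agent.R180.Pert

open Pool.Agent.R180.Chi Pool.Agent.R180.Cert Filter Topology

variable {m : ℕ}

/-- perturbation along the moment curve -/
noncomputable def pert (p : ℕ → Fin (m + 1) → ℝ) (s : ℝ) (i : ℕ) : Fin (m + 1) → ℝ :=
  fun k => p i k + s⁻¹ * (i : ℝ) ^ ((k : ℕ) + 1)

/-- the polynomial matrix controlling the determinants -/
noncomputable def pmat (p : ℕ → Fin (m + 1) → ℝ) (t : Fin (m + 2) → ℕ) :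
    Matrix (Fin (m + 2)) (Fin (m + 2)) (Polynomial ℝ) :=
  fun j c => Fin.cases (motive := fun _ => Polynomial ℝ) 1
    (fun k => Polynomial.X * Polynomial.C (p (t j) k) +
      Polynomial.C (((t j : ℕ) : ℝ) ^ ((k : ℕ) + 1))) c

lemma pmat_det_ne (p : ℕ → Fin (m + 1) → ℝ) (t : Fin (m + 2) → ℕ) (ht : Function.Injective t) :
    (pmat p t).det ≠ 0 := by
  intro h
  have h1 : ((Polynomial.evalRingHom (0 : ℝ)).mapMatrix (pmat p t)).det = 0 := by
    rw [← RingHom.map_det, h, map_zero]
  have h2 : (Polynomial.evalRingHom (0 : ℝ)).mapMatrix (pmat p t) =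
      Matrix.vandermonde (fun j => ((t j : ℕ) : ℝ)) := by
    ext j c
    simp only [RingHom.mapMatrix_apply, Matrix.map_apply, Matrix.vandermonde_apply, pmat]
    refine Fin.cases ?_ ?_ c
    · simp
    · intro k
      simp
  rw [h2] at h1
  refine (Matrix.det_vandermonde_ne_zero_iff.mpr ?_) h1
  intro a b hab
  exact ht (by exact_mod_cast (show ((t a : ℕ) : ℝ) = ((t b : ℕ) : ℝ) from hab))

/-- determinant of a tuple -/
noncomputable def Df (p : ℕ → Fin (m + 1) → ℝ) (t : Fin (m + 2) → ℕ) : ℝ :=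
  (Matrix.of fun r : Fin (m + 2) => hom (p (t r))).det

lemma D_eq_Df (p : ℕ → Fin (m + 1) → ℝ) (l : List ℕ) : D p l = Df p (fun r => l.getD r 0) := rfl

lemma Df_ne (p : ℕ → Fin (m + 1) → ℝ) (t : Fin (m + 2) → ℕ) {s : ℝ} (hs : s ≠ 0)
    (h : ¬ (pmat p t).det.IsRoot s) : Df (pert p s) t ≠ 0 := by
  have hdet : ((Polynomial.evalRingHom s).mapMatrix (pmat p t)).det ≠ 0 := by
    rw [← RingHom.map_det]
    exact h
  have heq : (Polynomial.evalRingHom s).mapMatrix (pmat p t) =
      Matrix.of (fun i j => (Fin.cons 1 (fun _ => s) : Fin (m + 2) → ℝ) j *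
        (Matrix.of fun r : Fin (m + 2) => hom (pert p s (t r))) i j) := by
    ext j c
    simp only [RingHom.mapMatrix_apply, Matrix.map_apply, pmat, Matrix.of_apply, hom]
    refine Fin.cases ?_ ?_ c
    · simp
    · intro k
      simp only [Fin.cases_succ, Fin.cons_succ, pert, Polynomial.coe_evalRingHom,
        Polynomial.eval_add, Polynomial.eval_mul, Polynomial.eval_X, Polynomial.eval_C]
      field_simp
  rw [heq, Matrix.det_mul_row] at hdet
  exact right_ne_zero_of_mul hdet

lemma tendsto_Df (p : ℕ → Fin (m + 1) → ℝ) (t : Fin (m + 2) → ℕ) :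
    Tendsto (fun s => Df (pert p s) t) atTop (𝓝 (Df p t)) := by
  unfold Df
  have hc : Continuous (fun M : Matrix (Fin (m + 2)) (Fin (m + 2)) ℝ => M.det) :=
    Continuous.matrix_det continuous_id
  refine (hc.tendsto _).comp ?_
  refine (tendsto_pi_nhds (f := fun (s : ℝ) (r : Fin (m + 2)) => hom (pert p s (t r)))).2 ?_
  intro r
  rw [tendsto_pi_nhds]
  intro c
  simp only [Matrix.of_apply, hom]
  refine Fin.cases ?_ ?_ c
  · simp
  · intro k
    simp only [Fin.cons_succ, pert]
    have h1 : Tendsto (fun s : ℝ => s⁻¹ * ((t r : ℕ) : ℝ) ^ ((k : ℕ) + 1)) atTop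
        (𝓝 (0 * ((t r : ℕ) : ℝ) ^ ((k : ℕ) + 1))) := tendsto_inv_atTop_zero.mul_const _
    rw [zero_mul] at h1
    have h2 := (tendsto_const_nhds (x := p (t r) k) (f := (atTop : Filter ℝ))).add h1
    rwa [add_zero] at h2

/-- The points can be moved to general position, keeping the given facets. -/
theorem exists_generic {N : ℕ} (p : ℕ → Fin (m + 1) → ℝ) (facets : List (List ℕ))
    (hF : ∀ F ∈ facets, ∀ x, tupOk N (m + 2) (F ++ [x]) = true → ∀ y,
      tupOk N (m + 2) (F ++ [y]) = true → 0 < D p (F ++ [x]) * D p (F ++ [y])) :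
    ∃ p' : ℕ → Fin (m + 1) → ℝ,
      (∀ l : List ℕ, l.length = m + 2 → l.Nodup → (∀ x ∈ l, x < N) → D p' l ≠ 0) ∧
      (∀ F ∈ facets, ∀ x, tupOk N (m + 2) (F ++ [x]) = true → ∀ y,
        tupOk N (m + 2) (F ++ [y]) = true → 0 < D p' (F ++ [x]) * D p' (F ++ [y])) := by
  have h1 : ∀ᶠ s : ℝ in atTop, ∀ σ : Fin (m + 2) → Fin N, Function.Injective σ →
      ¬ (pmat p (fun r => (σ r : ℕ))).det.IsRoot s := by
    rw [Filter.eventually_all]
    intro σ
    by_cases hσ : Function.Injective σ
    · filter_upwards [Polynomial.eventually_atTop_not_isRoot _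
        (pmat_det_ne p (fun r => (σ r : ℕ)) (fun a b h => hσ (Fin.ext h)))] with s hs _
      exact hs
    · exact Filter.Eventually.of_forall (fun s hh => absurd hh hσ)
  have h2 : ∀ᶠ s : ℝ in atTop, ∀ F ∈ {F | F ∈ facets}, ∀ x y : Fin N,
      tupOk N (m + 2) (F ++ [(x : ℕ)]) = true → tupOk N (m + 2) (F ++ [(y : ℕ)]) = true →
      0 < D (pert p s) (F ++ [(x : ℕ)]) * D (pert p s) (F ++ [(y : ℕ)]) := by
    rw [Filter.eventually_all_finite (List.finite_toSet facets)]
    intro F hF'
    rw [Filter.eventually_all]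
    intro x
    rw [Filter.eventually_all]
    intro y
    by_cases hx : tupOk N (m + 2) (F ++ [(x : ℕ)]) = true
    · by_cases hy : tupOk N (m + 2) (F ++ [(y : ℕ)]) = true
      · have h3 := (tendsto_Df p (fun r => (F ++ [(x : ℕ)]).getD r 0)).mul
          (tendsto_Df p (fun r => (F ++ [(y : ℕ)]).getD r 0))
        have h4 := hF F hF' x hx y hy
        rw [D_eq_Df, D_eq_Df] at h4
        filter_upwards [h3.eventually_const_lt h4] with s hs _ _
        rw [D_eq_Df, D_eq_Df]
        exact hs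
      · exact Filter.Eventually.of_forall (fun s _ h => absurd h hy)
    · exact Filter.Eventually.of_forall (fun s h _ => absurd h hx)
  obtain ⟨s, hs1, hs2, hs3⟩ := (h1.and (h2.and (Filter.eventually_gt_atTop (0 : ℝ)))).exists
  refine ⟨pert p s, ?_, ?_⟩
  · intro l hl hnd hlt
    rw [D_eq_Df]
    let σ : Fin (m + 2) → Fin N := fun r => ⟨l.getD r 0, by
      apply hlt
      rw [List.getD_eq_getElem _ _ (by omega)]
      exact List.getElem_mem _⟩
    have hσ : Function.Injective σ := by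
      intro a b hab
      have h := congrArg Fin.val hab
      simp only [σ] at h
      rw [List.getD_eq_getElem _ _ (by omega), List.getD_eq_getElem _ _ (by omega)] at h
      exact Fin.ext ((List.Nodup.getElem_inj_iff hnd).1 h)
    exact Df_ne p (fun r => (σ r : ℕ)) hs3.ne' (hs1 σ hσ)
  · intro F hF' x hx y hy
    have hlt : ∀ z, tupOk N (m + 2) (F ++ [z]) = true → z < N := by
      intro z hz
      simp only [tupOk, Bool.and_eq_true, List.all_eq_true, decide_eq_true_eq] at hz
      exact hz.2.2.1 z (by simp)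
    exact hs2 F hF' ⟨x, hlt x hx⟩ ⟨y, hlt y hy⟩ hx hy

end Pool.Agent.R180.Pert
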