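import Mathlib
import Pool.Agent.R180.Pert
import Pool.Agent.H523R3.TransMain

set_option autoImplicit false

/-!
# Facets of simplicial polytopes and orientation determinants
-/

namespace Pool.Agent.R180.Geo

open Pool.Agent.R180.Chi Pool.Agent.R180.Cert Pool.Agent.R180.Pert Pool.Agent.H523R3.Trans Matrix

variable {m : ℕ}

/-- all points on one side of the hyperplane spanned by `F` give the same orientation -/
lemma facet_side (q : ℕ → Fin (m + 1) → ℝ) (F : List ℕ) (hlen : F.length = m + 1) (c : ℝ)
    (f : (Fin (m + 1) → ℝ) →ₗ[ℝ] ℝ) (hf : ∀ a ∈ F, f (q a) = c)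
    (hind : ∀ α : Fin (m + 1) → ℝ, ∑ j, α j = 0 → ∑ j, α j • q (F.getD j 0) = 0 → ∀ j, α j = 0)
    (x y : ℕ) (hx : f (q x) < c) (hy : f (q y) < c) : 0 < D q (F ++ [x]) * D q (F ++ [y]) := by
  classical
  -- the rows
  have hrow : ∀ z (j : Fin (m + 1)), (F ++ [z]).getD (Fin.castSucc j : Fin (m + 2)) 0 =
      F.getD j 0 := by
    intro z j
    rw [List.getD_append _ _ _ _ (by have := j.2; simp [hlen]; omega)]
    simp
  have hlast : ∀ z, (F ++ [z]).getD (Fin.last (m + 1) : Fin (m + 2)) 0 = z := by
    intro z
    rw [List.getD_append_right _ _ _ _ (by simp [hlen])]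
    simp [hlen]
  have hFj : ∀ j : Fin (m + 1), F.getD j 0 ∈ F := by
    intro j
    rw [List.getD_eq_getElem _ _ (by omega)]
    exact List.getElem_mem _
  -- the functional
  let L : (Fin (m + 2) → ℝ) →ₗ[ℝ] ℝ :=
    c • LinearMap.proj 0 - f ∘ₗ (LinearMap.pi fun k : Fin (m + 1) => LinearMap.proj k.succ)
  have hL : ∀ z, L (hom (q z)) = c - f (q z) := by
    intro z
    simp only [L, LinearMap.sub_apply, LinearMap.smul_apply, LinearMap.proj_apply,
      LinearMap.comp_apply, hom, Fin.cons_zero, smul_eq_mul, mul_one]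
    congr 2
  set M : Matrix (Fin (m + 2)) (Fin (m + 2)) ℝ :=
    Matrix.of fun r : Fin (m + 2) => hom (q ((F ++ [x]).getD r 0)) with hM
  have hMrow : ∀ j : Fin (m + 1), M (Fin.castSucc j) = hom (q (F.getD j 0)) := by
    intro j
    have := hrow x j
    show hom (q ((F ++ [x]).getD (Fin.castSucc j : Fin (m + 2)) 0)) = _
    rw [this]
  have hMlast : M (Fin.last _) = hom (q x) := by
    have := hlast x
    show hom (q ((F ++ [x]).getD (Fin.last (m + 1) : Fin (m + 2)) 0)) = _
    rw [this]
  have hMdet : M.det ≠ 0 := by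
    have hli : LinearIndependent ℝ M.row := by
      rw [Fintype.linearIndependent_iff]
      intro g hg
      rw [Fin.sum_univ_castSucc] at hg
      have hg' : ∑ j : Fin (m + 1), g (Fin.castSucc j) • hom (q (F.getD j 0)) +
          g (Fin.last _) • hom (q x) = 0 := by
        have : ∀ j : Fin (m + 1), M.row (Fin.castSucc j) = hom (q (F.getD j 0)) := hMrow
        have h2 : M.row (Fin.last _) = hom (q x) := hMlast
        rw [h2] at hg
        simp only [this] at hg
        exact hg
      have h1 := congrArg L hg'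
      rw [map_add, map_sum, map_zero, map_smul, hL] at h1
      have h2 : ∑ j : Fin (m + 1), L (g (Fin.castSucc j) • hom (q (F.getD j 0))) = 0 := by
        apply Finset.sum_eq_zero
        intro j _
        rw [map_smul, hL, hf _ (hFj j), sub_self, smul_zero]
      rw [h2, zero_add, smul_eq_mul] at h1
      have h3 : g (Fin.last _) = 0 := by
        rcases mul_eq_zero.1 h1 with h | h
        · exact h
        · exact absurd h (by linarith [hx] : c - f (q x) ≠ 0)
      rw [h3, zero_smul, add_zero] at hg'
      have h4 : ∑ j : Fin (m + 1), g (Fin.castSucc j) = 0 := by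
        have := congrFun hg' 0
        simpa [hom] using this
      have h5 : ∑ j : Fin (m + 1), g (Fin.castSucc j) • q (F.getD j 0) = 0 := by
        funext k
        have := congrFun hg' k.succ
        simpa [hom] using this
      have h6 := hind (fun j => g (Fin.castSucc j)) h4 h5
      intro i
      refine Fin.lastCases ?_ (fun j => ?_) i
      · exact h3
      · exact h6 j
    rw [Matrix.linearIndependent_rows_iff_isUnit, Matrix.isUnit_iff_isUnit_det] at hli
    exact isUnit_iff_ne_zero.1 hli
  have hunit : IsUnit M.det := isUnit_iff_ne_zero.2 hMdet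
  -- coordinates of the point `y`
  set α : Fin (m + 2) → ℝ := hom (q y) ᵥ* M⁻¹ with hα
  have hαM : α ᵥ* M = hom (q y) := by
    rw [hα, vecMul_vecMul, nonsing_inv_mul _ hunit, vecMul_one]
  have hsum : ∑ i, α i • M i = hom (q y) := by
    rw [← hαM]
    funext c'
    simp [vecMul, dotProduct]
  have hLy : α (Fin.last _) * (c - f (q x)) = c - f (q y) := by
    have h1 := congrArg L hsum
    rw [hL, map_sum, Fin.sum_univ_castSucc, map_smul, hMlast, hL] at h1
    have h2 : ∑ j : Fin (m + 1), L (α (Fin.castSucc j) • M (Fin.castSucc j)) = 0 := by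
      apply Finset.sum_eq_zero
      intro j _
      rw [map_smul, hMrow, hL, hf _ (hFj j), sub_self, smul_zero]
    rw [h2, zero_add, smul_eq_mul] at h1
    exact h1
  have hαpos : 0 < α (Fin.last _) := by
    have h1 : 0 < c - f (q x) := by linarith
    have h2 : 0 < c - f (q y) := by linarith
    rw [← hLy] at h2
    exact (pos_iff_pos_of_mul_pos h2).2 h1
  -- the determinant of `y`
  have hDx : D q (F ++ [x]) = M.det := rfl
  have hDy : D q (F ++ [y]) = α (Fin.last _) * M.det := by
    have h1 : D q (F ++ [y]) = (M.updateRow (Fin.last _) (hom (q y))).det := by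
      unfold D
      congr 1
      ext r c'
      refine Fin.lastCases ?_ (fun r => ?_) r
      · rw [updateRow_self]
        simp only [of_apply]
        rw [hlast y]
      · rw [updateRow_ne (Fin.castSucc_lt_last _).ne, hMrow]
        simp only [of_apply]
        rw [hrow y r]
    rw [h1, ← hsum]
    exact Matrix.det_updateRow_sum M (Fin.last _) α
  rw [hDx, hDy]
  have : M.det * (α (Fin.last _) * M.det) = α (Fin.last _) * (M.det * M.det) := by ring
  rw [this]
  exact mul_pos hαpos (mul_self_pos.2 hMdet)

/-- facets of a simplicial polytope satisfy the side conditions -/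
theorem side_of_polytope {n N : ℕ} (p : Fin n → E (m + 1)) (hp : IsSimplicialPolytope (m + 1) p)
    (φ : ℕ → Fin n) (hφ : ∀ i < N, ∀ j < N, φ i = φ j → i = j) (F : List ℕ)
    (hF : (F.map φ).toFinset ∈ boundary p) (x : ℕ) (hx : tupOk N (m + 2) (F ++ [x]) = true)
    (y : ℕ) (hy : tupOk N (m + 2) (F ++ [y]) = true) :
    0 < D (fun i => (p (φ i)).ofLp) (F ++ [x]) * D (fun i => (p (φ i)).ofLp) (F ++ [y]) := by
  classical
  simp only [tupOk, Bool.and_eq_true, beq_iff_eq, decide_eq_true_eq, List.all_eq_true] at hx hy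
  obtain ⟨hx1, hx2, hx3, -, -⟩ := hx
  obtain ⟨hy1, hy2, hy3, -, -⟩ := hy
  have hlen : F.length = m + 1 := by simpa using hx1
  have hnd : F.Nodup := (List.nodup_append.1 hx2).1
  have hlt : ∀ a ∈ F, a < N := fun a ha => hx3 a (by simp [ha])
  obtain ⟨f, hf0, hfm⟩ := hF
  -- the value of `f`
  have hFne : F ≠ [] := by intro h; rw [h] at hlen; simp at hlen
  obtain ⟨a0, ha0⟩ := List.exists_mem_of_ne_nil F hFne
  have hmax : ∀ a ∈ F, IsMax p f (φ a) := fun a ha => hfm _ (by
    rw [List.mem_toFinset]; exact List.mem_map_of_mem ha)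
  have hval : ∀ a ∈ F, f (p (φ a)) = f (p (φ a0)) := fun a ha =>
    le_antisymm (hmax a0 ha0 _) (hmax a ha _)
  have hcardF : (F.map φ).toFinset.card = m + 1 := by
    rw [List.toFinset_card_of_nodup, List.length_map, hlen]
    refine List.Nodup.map_on ?_ hnd
    intro a ha b hb hab
    exact hφ a (hlt a ha) b (hlt b hb) hab
  have hlt' : ∀ z, z ∉ F → z < N → f (p (φ z)) < f (p (φ a0)) := by
    intro z hz hzN
    refine lt_of_le_of_ne (hmax a0 ha0 _) ?_
    intro heq
    have hmem : insert (φ z) (F.map φ).toFinset ∈ boundary p := by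
      refine ⟨f, hf0, ?_⟩
      intro i hi
      rcases Finset.mem_insert.1 hi with rfl | hi
      · intro j
        rw [heq]
        exact hmax a0 ha0 j
      · exact hfm i hi
    have h1 := card_face_le hp hmem
    rw [Finset.card_insert_of_notMem, hcardF] at h1
    · omega
    · intro h
      rw [List.mem_toFinset, List.mem_map] at h
      obtain ⟨a, ha, hab⟩ := h
      exact hz (hφ a (hlt a ha) z hzN hab ▸ ha)
  have hxF : x ∉ F := fun h => by
    have := (List.nodup_append.1 hx2).2.2 x h x (by simp)
    exact this rfl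
  have hyF : y ∉ F := fun h => by
    have := (List.nodup_append.1 hy2).2.2 y h y (by simp)
    exact this rfl
  have hxN : x < N := hx3 x (by simp)
  have hyN : y < N := hy3 y (by simp)
  let f' : (Fin (m + 1) → ℝ) →ₗ[ℝ] ℝ := f ∘ₗ (WithLp.linearEquiv 2 ℝ (Fin (m + 1) → ℝ)).symm.toLinearMap
  have hf' : ∀ z : E (m + 1), f' z.ofLp = f z := fun z => rfl
  refine facet_side _ F hlen (f (p (φ a0))) f' ?_ ?_ x y ?_ ?_
  · intro a ha
    rw [hf', hval a ha]
  · intro α h0 h1
    have hind := hp.simplicial f hf0
    -- the family of vertices of `F` is affinely independent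
    let g : Fin (m + 1) → {i : Fin n // ∀ j, f (p j) ≤ f (p i)} := fun j =>
      ⟨φ (F.getD j 0), hmax _ (by
        rw [List.getD_eq_getElem _ _ (by omega)]
        exact List.getElem_mem _)⟩
    have hg : Function.Injective g := by
      intro a b hab
      have h := congrArg Subtype.val hab
      simp only [g] at h
      rw [List.getD_eq_getElem _ _ (by omega), List.getD_eq_getElem _ _ (by omega)] at h
      have h2 := hφ _ (hlt _ (List.getElem_mem _)) _ (hlt _ (List.getElem_mem _)) h
      exact Fin.ext ((List.Nodup.getElem_inj_iff hnd).1 h2)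
    have h2 : AffineIndependent ℝ (fun j : Fin (m + 1) => p (φ (F.getD j 0))) := by
      have := hind.comp_embedding ⟨g, hg⟩
      exact this
    rw [affineIndependent_iff] at h2
    intro j
    refine h2 Finset.univ α h0 ?_ j (Finset.mem_univ j)
    have h3 : (∑ j : Fin (m + 1), α j • p (φ (F.getD j 0))).ofLp =
        ∑ j : Fin (m + 1), α j • (p (φ (F.getD j 0))).ofLp := by
      funext k
      simp
    have h4 : (∑ j : Fin (m + 1), α j • p (φ (F.getD j 0))).ofLp = 0 := by rw [h3]; exact h1
    ext k
    exact congrFun h4 k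
  · rw [hf']
    exact hlt' x hxF hxN
  · rw [hf']
    exact hlt' y hyF hyN

/-- A checked certificate excludes simplicial polytopes with the given facets. -/
theorem no_polytope {n N : ℕ} (p : Fin n → E (m + 1)) (hp : IsSimplicialPolytope (m + 1) p)
    (φ : ℕ → Fin n) (hφ : ∀ i < N, ∀ j < N, φ i = φ j → i = j) (facets : List (List ℕ))
    (hF : ∀ F ∈ facets, (F.map φ).toFinset ∈ boundary p) (x0 : ℕ)
    (hx0 : tupOk N (m + 2) (facets.getD 0 [] ++ [x0]) = true) (hlen : 0 < facets.length)
    (gens : List Gen) (hg : gens.all (genOk N (m + 2) facets) = true)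
    (cls : List Pool.Agent.R180.Rup.Clause) (hc : gens.map (toClause (m + 2) facets) = cls)
    (steps : List (Pool.Agent.R180.Rup.Clause × List ℕ))
    (hs : Pool.Agent.R180.Rup.refute cls steps = true) : False := by
  obtain ⟨q, hq1, hq2⟩ := exists_generic (N := N) (fun i => (p (φ i)).ofLp) facets
    (fun F hF' x hx y hy => side_of_polytope p hp φ hφ F (hF F hF') x hx y hy)
  exact no_realization q facets x0 hq1 hq2 hx0 hlen gens hg cls hc steps hs

end Pool.Agent.R180.Geo
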