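import Mathlib
import Pool.Agent.R180.Chi

set_option autoImplicit false

/-!
# Determinants of vectors of `ℝ^(m+2)`

Vector version of the point determinants of `Chi.lean`.
-/

namespace Pool.Agent.R180.VChi

open Matrix Pool.Agent.R180.Chi

variable {m : ℕ}

/-- determinant of the vectors with indices in the list `l` -/
noncomputable def W (p : ℕ → Fin (m + 2) → ℝ) (l : List ℕ) : ℝ :=
  (Matrix.of fun r : Fin (m + 2) => p (l.getD r 0)).det

lemma W_swap (p : ℕ → Fin (m + 2) → ℝ) (l1 : List ℕ) (x y : ℕ) (l2 : List ℕ)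
    (hlen : (l1 ++ x :: y :: l2).length = m + 2) :
    W p (l1 ++ y :: x :: l2) = - W p (l1 ++ x :: y :: l2) := by
  have hl : l1.length + 1 < m + 2 := by simp at hlen; omega
  let i : Fin (m + 2) := ⟨l1.length, by omega⟩
  let j : Fin (m + 2) := ⟨l1.length + 1, hl⟩
  have hij : i ≠ j := by intro h; have := congrArg Fin.val h; simp [i, j] at this
  unfold W
  have h : (Matrix.of fun r : Fin (m + 2) => p ((l1 ++ y :: x :: l2).getD r 0)) =
      (Matrix.of fun r : Fin (m + 2) => p ((l1 ++ x :: y :: l2).getD r 0)).submatrix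
        (Equiv.swap i j) id := by
    ext r c
    simp only [submatrix_apply, id, of_apply]
    refine congrArg (fun z => p z c) ?_
    by_cases h1 : r = i
    · subst h1
      rw [Equiv.swap_apply_left]
      simp [i, j]
    · by_cases h2 : r = j
      · subst h2
        rw [Equiv.swap_apply_right]
        simp [i, j]
      · rw [Equiv.swap_apply_of_ne_of_ne h1 h2]
        by_cases h3 : (r : ℕ) < l1.length
        · rw [List.getD_append _ _ _ _ h3, List.getD_append _ _ _ _ h3]
        · have h4 : (r : ℕ) ≠ l1.length := fun h => h1 (Fin.ext h)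
          have h5 : (r : ℕ) ≠ l1.length + 1 := fun h => h2 (Fin.ext h)
          rw [List.getD_append_right _ _ _ _ (by omega), List.getD_append_right _ _ _ _ (by omega)]
          obtain ⟨k, hk⟩ : ∃ k, (r : ℕ) - l1.length = k + 2 := ⟨r - l1.length - 2, by omega⟩
          rw [hk]
          simp
  rw [h, det_permute, Equiv.Perm.sign_swap hij]
  simp

lemma W_ins (p : ℕ → Fin (m + 2) → ℝ) (x : ℕ) (l : List ℕ) : ∀ l1 : List ℕ,
    (l1 ++ x :: l).length = m + 2 → W p (l1 ++ x :: l) = sg (ins x l).2 * W p (l1 ++ (ins x l).1) := by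
  induction l with
  | nil => intro l1 _; simp [ins, sg]
  | cons y l ih =>
    intro l1 hl
    unfold ins
    split_ifs with h
    · simp [sg]
    · simp only
      rw [sg_not]
      have h1 := W_swap p l1 y x l (by simpa using hl)
      rw [h1]
      have h2 := ih (l1 ++ [y]) (by simpa using hl)
      simp only [List.append_assoc, List.cons_append, List.nil_append] at h2
      rw [h2]
      ring

lemma W_srt (p : ℕ → Fin (m + 2) → ℝ) (l : List ℕ) : ∀ l1 : List ℕ,
    (l1 ++ l).length = m + 2 → W p (l1 ++ l) = sg (srt l).2 * W p (l1 ++ (srt l).1) := by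
  induction l with
  | nil => intro l1 _; simp [srt, sg]
  | cons x l ih =>
    intro l1 hl
    have h1 := ih (l1 ++ [x]) (by simpa using hl)
    simp only [List.append_assoc, List.cons_append, List.nil_append] at h1
    rw [h1]
    have h2 := W_ins p x (srt l).1 l1 (by simpa [srt_length] using hl)
    rw [h2]
    simp only [srt]
    rw [sg_xor]
    ring

/-- sorting a full list -/
lemma W_eq_srt (p : ℕ → Fin (m + 2) → ℝ) (l : List ℕ) (hl : l.length = m + 2) :
    W p l = sg (srt l).2 * W p (srt l).1 := by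
  have := W_srt p l [] (by simpa using hl)
  simpa using this

/-- the determinants as values of the form `B` -/
lemma W_eq_B (p : ℕ → Fin (m + 2) → ℝ) (A : List ℕ) (hA : A.length = m) (x y : ℕ) :
    W p (A ++ [x, y]) = B (fun j : Fin m => p (A.getD j 0)) (p x) (p y) := by
  unfold W B
  congr 1
  ext r c
  refine Fin.lastCases ?_ (fun r => ?_) r
  · rw [rows3_last]
    simp only [of_apply, Fin.val_last]
    rw [List.getD_append_right _ _ _ _ (by omega)]
    have : m + 1 - A.length = 1 := by omega
    rw [this]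
    simp
  · refine Fin.lastCases ?_ (fun r => ?_) r
    · rw [rows3_mid]
      simp only [of_apply, Fin.val_castSucc, Fin.val_last]
      rw [List.getD_append_right _ _ _ _ (by omega)]
      have : m - A.length = 0 := by omega
      rw [this]
      simp
    · rw [rows3_a]
      simp only [of_apply, Fin.val_castSucc]
      rw [List.getD_append _ _ _ _ (by omega)]

theorem gp_W (p : ℕ → Fin (m + 2) → ℝ) (A : List ℕ) (hA : A.length = m) (b1 b2 b3 b4 : ℕ) :
    W p (A ++ [b1, b2]) * W p (A ++ [b3, b4]) - W p (A ++ [b1, b3]) * W p (A ++ [b2, b4]) +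
      W p (A ++ [b1, b4]) * W p (A ++ [b2, b3]) = 0 := by
  simp only [W_eq_B p A hA]
  exact gp _ _ _ _ _

/-- the sign of the determinant of the normals `l` of the facets through a vertex and one more
normal, from dual points -/
lemma facet_sign (p : ℕ → Fin (m + 2) → ℝ) (y : Fin (m + 2) → Fin (m + 2) → ℝ) (l : List ℕ)
    (hl : l.length = m + 1)
    (h0 : ∀ i : Fin (m + 1), ∀ j : Fin (m + 2), i.castSucc ≠ j → p (l.getD i 0) ⬝ᵥ y j = 0)
    (h1 : ∀ i : Fin (m + 1), 0 < p (l.getD i 0) ⬝ᵥ y i.castSucc)
    (x : ℕ) (hx : 0 < p x ⬝ᵥ y (Fin.last _)) :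
    0 < W p (l ++ [x]) * (Matrix.of y).det := by
  have hprod : W p (l ++ [x]) * (Matrix.of y).det =
      ((Matrix.of fun r : Fin (m + 2) => p ((l ++ [x]).getD r 0)) * (Matrix.of y)ᵀ).det := by
    rw [Matrix.det_mul, Matrix.det_transpose]; rfl
  have hentry : ∀ i j : Fin (m + 2),
      ((Matrix.of fun r : Fin (m + 2) => p ((l ++ [x]).getD r 0)) * (Matrix.of y)ᵀ) i j =
      p ((l ++ [x]).getD i 0) ⬝ᵥ y j := by
    intro i j
    rw [Matrix.mul_apply']
    rfl
  have hrow : ∀ i : Fin (m + 1), (l ++ [x]).getD (i.castSucc : Fin (m + 2)) 0 = l.getD i 0 := by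
    intro i
    rw [List.getD_append _ _ _ _ (by have := i.2; simp [hl]; omega)]
    simp
  have hlast : (l ++ [x]).getD (Fin.last (m + 1) : Fin (m + 2)) 0 = x := by
    rw [List.getD_append_right _ _ _ _ (by simp [hl])]
    simp [hl]
  rw [hprod, Matrix.det_of_isLowerTriangular]
  · apply Finset.prod_pos
    intro i _
    rw [hentry]
    refine Fin.lastCases ?_ (fun i => ?_) i
    · rw [hlast]; exact hx
    · rw [hrow]; exact h1 i
  · intro i j hij
    have hij' : i < j := hij
    rw [hentry]
    obtain ⟨i', rfl⟩ : ∃ i' : Fin (m + 1), i = i'.castSucc := by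
      refine ⟨⟨i, by have := j.2; omega⟩, ?_⟩
      ext; simp
    rw [hrow]
    exact h0 i' j hij'.ne

end Pool.Agent.R180.VChi
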