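import Mathlib
import Pool.Agent.R180.VChi

set_option autoImplicit false
set_option linter.unusedSimpArgs false

/-!
# The complex `M`: no sign function on the determinants of eight vectors of `ℝ⁵`

Two three-term Grassmann-Plücker relations contradict the facet sign conditions.
-/

namespace Pool.Agent.R180.MStar

open Pool.Agent.R180.Chi Pool.Agent.R180.VChi

/-- the twenty facets, as lists -/
def facL : Fin 20 → List ℕ :=
  ![[0, 1, 2, 3], [0, 1, 2, 5], [0, 1, 3, 5], [0, 2, 3, 6], [0, 2, 5, 7], [0, 2, 6, 7], [0, 3, 4, 5], [0, 3, 4, 6], [0, 4, 5, 7], [0, 4, 6, 7], [1, 2, 3, 7], [1, 2, 4, 5], [1, 2, 4, 7], [1, 3, 5, 6], [1, 3, 6, 7], [1, 4, 5, 6], [1, 4, 6, 7], [2, 3, 6, 7], [2, 4, 5, 7], [3, 4, 5, 6]]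

lemma tr_pos {a b c : ℝ} (h1 : 0 < a * b) (h2 : 0 < b * c) : 0 < a * c := by
  have h3 : 0 < (a * b) * (b * c) := mul_pos h1 h2
  have h4 : 0 < b * b := by
    rcases lt_trichotomy b 0 with h | h | h
    · exact mul_pos_of_neg_of_neg h h
    · subst h; simp at h1
    · exact mul_pos h h
  have h5 : 0 < (b * b) * (a * c) := by nlinarith
  exact (mul_pos_iff_of_pos_left h4).1 h5

theorem no_signs (p : ℕ → Fin 5 → ℝ) (δ : Fin 20 → ℝ)
    (h : ∀ F x, x < 8 → x ∉ facL F → 0 < W p (facL F ++ [x]) * δ F) : False := by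

  -- facet 1 from facet 0
  have a1 : 0 < W p [0, 1, 2, 3, 5] * δ 0 := h 0 5 (by norm_num) (by decide)
  have b1 : 0 < W p [0, 1, 2, 5, 3] * δ 1 := h 1 3 (by norm_num) (by decide)
  rw [W_eq_srt p [0, 1, 2, 3, 5] rfl, show srt [0, 1, 2, 3, 5] = ([0, 1, 2, 3, 5], false) from rfl] at a1
  rw [W_eq_srt p [0, 1, 2, 5, 3] rfl, show srt [0, 1, 2, 5, 3] = ([0, 1, 2, 3, 5], true) from rfl] at b1
  simp only [sg, if_true, if_false, Bool.false_eq_true] at a1 b1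
  have c1 : 0 < (-1 * δ 1) * δ 0 := by
    have e := tr_pos (a := -1 * δ 1) (b := 1 * W p [0, 1, 2, 3, 5]) (c := δ 0) (by linarith) (by linarith)
    exact e
  -- facet 2 from facet 0
  have a2 : 0 < W p [0, 1, 2, 3, 5] * δ 0 := h 0 5 (by norm_num) (by decide)
  have b2 : 0 < W p [0, 1, 3, 5, 2] * δ 2 := h 2 2 (by norm_num) (by decide)
  rw [W_eq_srt p [0, 1, 2, 3, 5] rfl, show srt [0, 1, 2, 3, 5] = ([0, 1, 2, 3, 5], false) from rfl] at a2
  rw [W_eq_srt p [0, 1, 3, 5, 2] rfl, show srt [0, 1, 3, 5, 2] = ([0, 1, 2, 3, 5], false) from rfl] at b2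
  simp only [sg, if_true, if_false, Bool.false_eq_true] at a2 b2
  have c2 : 0 < (1 * δ 2) * δ 0 := by
    have e := tr_pos (a := 1 * δ 2) (b := 1 * W p [0, 1, 2, 3, 5]) (c := δ 0) (by linarith) (by linarith)
    exact e
  -- facet 3 from facet 0
  have a3 : 0 < W p [0, 1, 2, 3, 6] * δ 0 := h 0 6 (by norm_num) (by decide)
  have b3 : 0 < W p [0, 2, 3, 6, 1] * δ 3 := h 3 1 (by norm_num) (by decide)
  rw [W_eq_srt p [0, 1, 2, 3, 6] rfl, show srt [0, 1, 2, 3, 6] = ([0, 1, 2, 3, 6], false) from rfl] at a3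
  rw [W_eq_srt p [0, 2, 3, 6, 1] rfl, show srt [0, 2, 3, 6, 1] = ([0, 1, 2, 3, 6], true) from rfl] at b3
  simp only [sg, if_true, if_false, Bool.false_eq_true] at a3 b3
  have c3 : 0 < (-1 * δ 3) * δ 0 := by
    have e := tr_pos (a := -1 * δ 3) (b := 1 * W p [0, 1, 2, 3, 6]) (c := δ 0) (by linarith) (by linarith)
    exact e
  -- facet 10 from facet 0
  have a10 : 0 < W p [0, 1, 2, 3, 7] * δ 0 := h 0 7 (by norm_num) (by decide)
  have b10 : 0 < W p [1, 2, 3, 7, 0] * δ 10 := h 10 0 (by norm_num) (by decide)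
  rw [W_eq_srt p [0, 1, 2, 3, 7] rfl, show srt [0, 1, 2, 3, 7] = ([0, 1, 2, 3, 7], false) from rfl] at a10
  rw [W_eq_srt p [1, 2, 3, 7, 0] rfl, show srt [1, 2, 3, 7, 0] = ([0, 1, 2, 3, 7], false) from rfl] at b10
  simp only [sg, if_true, if_false, Bool.false_eq_true] at a10 b10
  have c10 : 0 < (1 * δ 10) * δ 0 := by
    have e := tr_pos (a := 1 * δ 10) (b := 1 * W p [0, 1, 2, 3, 7]) (c := δ 0) (by linarith) (by linarith)
    exact e
  -- facet 4 from facet 1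
  have a4 : 0 < W p [0, 1, 2, 5, 7] * δ 1 := h 1 7 (by norm_num) (by decide)
  have b4 : 0 < W p [0, 2, 5, 7, 1] * δ 4 := h 4 1 (by norm_num) (by decide)
  rw [W_eq_srt p [0, 1, 2, 5, 7] rfl, show srt [0, 1, 2, 5, 7] = ([0, 1, 2, 5, 7], false) from rfl] at a4
  rw [W_eq_srt p [0, 2, 5, 7, 1] rfl, show srt [0, 2, 5, 7, 1] = ([0, 1, 2, 5, 7], true) from rfl] at b4
  simp only [sg, if_true, if_false, Bool.false_eq_true] at a4 b4
  have c4 : 0 < (1 * δ 4) * δ 0 := by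
    have e := tr_pos (a := 1 * δ 4) (b := -1 * W p [0, 1, 2, 5, 7]) (c := -1 * δ 1) (by linarith) (by linarith)
    exact tr_pos e c1
  -- facet 6 from facet 2
  have a6 : 0 < W p [0, 1, 3, 5, 4] * δ 2 := h 2 4 (by norm_num) (by decide)
  have b6 : 0 < W p [0, 3, 4, 5, 1] * δ 6 := h 6 1 (by norm_num) (by decide)
  rw [W_eq_srt p [0, 1, 3, 5, 4] rfl, show srt [0, 1, 3, 5, 4] = ([0, 1, 3, 4, 5], true) from rfl] at a6
  rw [W_eq_srt p [0, 3, 4, 5, 1] rfl, show srt [0, 3, 4, 5, 1] = ([0, 1, 3, 4, 5], true) from rfl] at b6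
  simp only [sg, if_true, if_false, Bool.false_eq_true] at a6 b6
  have c6 : 0 < (1 * δ 6) * δ 0 := by
    have e := tr_pos (a := 1 * δ 6) (b := -1 * W p [0, 1, 3, 4, 5]) (c := 1 * δ 2) (by linarith) (by linarith)
    exact tr_pos e c2
  -- facet 17 from facet 3
  have a17 : 0 < W p [0, 2, 3, 6, 7] * δ 3 := h 3 7 (by norm_num) (by decide)
  have b17 : 0 < W p [2, 3, 6, 7, 0] * δ 17 := h 17 0 (by norm_num) (by decide)
  rw [W_eq_srt p [0, 2, 3, 6, 7] rfl, show srt [0, 2, 3, 6, 7] = ([0, 2, 3, 6, 7], false) from rfl] at a17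
  rw [W_eq_srt p [2, 3, 6, 7, 0] rfl, show srt [2, 3, 6, 7, 0] = ([0, 2, 3, 6, 7], false) from rfl] at b17
  simp only [sg, if_true, if_false, Bool.false_eq_true] at a17 b17
  have c17 : 0 < (-1 * δ 17) * δ 0 := by
    have e := tr_pos (a := -1 * δ 17) (b := -1 * W p [0, 2, 3, 6, 7]) (c := -1 * δ 3) (by linarith) (by linarith)
    exact tr_pos e c3
  -- facet 12 from facet 10
  have a12 : 0 < W p [1, 2, 3, 7, 4] * δ 10 := h 10 4 (by norm_num) (by decide)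
  have b12 : 0 < W p [1, 2, 4, 7, 3] * δ 12 := h 12 3 (by norm_num) (by decide)
  rw [W_eq_srt p [1, 2, 3, 7, 4] rfl, show srt [1, 2, 3, 7, 4] = ([1, 2, 3, 4, 7], true) from rfl] at a12
  rw [W_eq_srt p [1, 2, 4, 7, 3] rfl, show srt [1, 2, 4, 7, 3] = ([1, 2, 3, 4, 7], false) from rfl] at b12
  simp only [sg, if_true, if_false, Bool.false_eq_true] at a12 b12
  have c12 : 0 < (-1 * δ 12) * δ 0 := by
    have e := tr_pos (a := -1 * δ 12) (b := -1 * W p [1, 2, 3, 4, 7]) (c := 1 * δ 10) (by linarith) (by linarith)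
    exact tr_pos e c10
  -- facet 18 from facet 4
  have a18 : 0 < W p [0, 2, 5, 7, 4] * δ 4 := h 4 4 (by norm_num) (by decide)
  have b18 : 0 < W p [2, 4, 5, 7, 0] * δ 18 := h 18 0 (by norm_num) (by decide)
  rw [W_eq_srt p [0, 2, 5, 7, 4] rfl, show srt [0, 2, 5, 7, 4] = ([0, 2, 4, 5, 7], false) from rfl] at a18
  rw [W_eq_srt p [2, 4, 5, 7, 0] rfl, show srt [2, 4, 5, 7, 0] = ([0, 2, 4, 5, 7], false) from rfl] at b18
  simp only [sg, if_true, if_false, Bool.false_eq_true] at a18 b18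
  have c18 : 0 < (1 * δ 18) * δ 0 := by
    have e := tr_pos (a := 1 * δ 18) (b := 1 * W p [0, 2, 4, 5, 7]) (c := 1 * δ 4) (by linarith) (by linarith)
    exact tr_pos e c4
  -- facet 19 from facet 6
  have a19 : 0 < W p [0, 3, 4, 5, 6] * δ 6 := h 6 6 (by norm_num) (by decide)
  have b19 : 0 < W p [3, 4, 5, 6, 0] * δ 19 := h 19 0 (by norm_num) (by decide)
  rw [W_eq_srt p [0, 3, 4, 5, 6] rfl, show srt [0, 3, 4, 5, 6] = ([0, 3, 4, 5, 6], false) from rfl] at a19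
  rw [W_eq_srt p [3, 4, 5, 6, 0] rfl, show srt [3, 4, 5, 6, 0] = ([0, 3, 4, 5, 6], false) from rfl] at b19
  simp only [sg, if_true, if_false, Bool.false_eq_true] at a19 b19
  have c19 : 0 < (1 * δ 19) * δ 0 := by
    have e := tr_pos (a := 1 * δ 19) (b := 1 * W p [0, 3, 4, 5, 6]) (c := 1 * δ 6) (by linarith) (by linarith)
    exact tr_pos e c6
  have d01234 : 0 < W p [0, 1, 2, 3, 4] * δ 0 := h 0 4 (by norm_num) (by decide)
  rw [W_eq_srt p [0, 1, 2, 3, 4] rfl, show srt [0, 1, 2, 3, 4] = ([0, 1, 2, 3, 4], false) from rfl] at d01234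
  simp only [sg, if_true, if_false, Bool.false_eq_true] at d01234
  have d01234 : 0 < (1 * W p [0, 1, 2, 3, 4]) * δ 0 := by linarith
  have d01245 : 0 < W p [0, 1, 2, 5, 4] * δ 1 := h 1 4 (by norm_num) (by decide)
  rw [W_eq_srt p [0, 1, 2, 5, 4] rfl, show srt [0, 1, 2, 5, 4] = ([0, 1, 2, 4, 5], true) from rfl] at d01245
  simp only [sg, if_true, if_false, Bool.false_eq_true] at d01245
  have d01245 : 0 < (1 * W p [0, 1, 2, 4, 5]) * δ 0 := tr_pos (b := -1 * δ 1) (by linarith) c1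
  have d01247 : 0 < W p [1, 2, 4, 7, 0] * δ 12 := h 12 0 (by norm_num) (by decide)
  rw [W_eq_srt p [1, 2, 4, 7, 0] rfl, show srt [1, 2, 4, 7, 0] = ([0, 1, 2, 4, 7], false) from rfl] at d01247
  simp only [sg, if_true, if_false, Bool.false_eq_true] at d01247
  have d01247 : 0 < (-1 * W p [0, 1, 2, 4, 7]) * δ 0 := tr_pos (b := -1 * δ 12) (by linarith) c12
  have d02345 : 0 < W p [0, 3, 4, 5, 2] * δ 6 := h 6 2 (by norm_num) (by decide)
  rw [W_eq_srt p [0, 3, 4, 5, 2] rfl, show srt [0, 3, 4, 5, 2] = ([0, 2, 3, 4, 5], true) from rfl] at d02345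
  simp only [sg, if_true, if_false, Bool.false_eq_true] at d02345
  have d02345 : 0 < (-1 * W p [0, 2, 3, 4, 5]) * δ 0 := tr_pos (b := 1 * δ 6) (by linarith) c6
  have d02346 : 0 < W p [0, 2, 3, 6, 4] * δ 3 := h 3 4 (by norm_num) (by decide)
  rw [W_eq_srt p [0, 2, 3, 6, 4] rfl, show srt [0, 2, 3, 6, 4] = ([0, 2, 3, 4, 6], true) from rfl] at d02346
  simp only [sg, if_true, if_false, Bool.false_eq_true] at d02346
  have d02346 : 0 < (1 * W p [0, 2, 3, 4, 6]) * δ 0 := tr_pos (b := -1 * δ 3) (by linarith) c3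
  have d02457 : 0 < W p [0, 2, 5, 7, 4] * δ 4 := h 4 4 (by norm_num) (by decide)
  rw [W_eq_srt p [0, 2, 5, 7, 4] rfl, show srt [0, 2, 5, 7, 4] = ([0, 2, 4, 5, 7], false) from rfl] at d02457
  simp only [sg, if_true, if_false, Bool.false_eq_true] at d02457
  have d02457 : 0 < (1 * W p [0, 2, 4, 5, 7]) * δ 0 := tr_pos (b := 1 * δ 4) (by linarith) c4
  have d23456 : 0 < W p [3, 4, 5, 6, 2] * δ 19 := h 19 2 (by norm_num) (by decide)
  rw [W_eq_srt p [3, 4, 5, 6, 2] rfl, show srt [3, 4, 5, 6, 2] = ([2, 3, 4, 5, 6], false) from rfl] at d23456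
  simp only [sg, if_true, if_false, Bool.false_eq_true] at d23456
  have d23456 : 0 < (1 * W p [2, 3, 4, 5, 6]) * δ 0 := tr_pos (b := 1 * δ 19) (by linarith) c19
  have d23457 : 0 < W p [2, 4, 5, 7, 3] * δ 18 := h 18 3 (by norm_num) (by decide)
  rw [W_eq_srt p [2, 4, 5, 7, 3] rfl, show srt [2, 4, 5, 7, 3] = ([2, 3, 4, 5, 7], true) from rfl] at d23457
  simp only [sg, if_true, if_false, Bool.false_eq_true] at d23457
  have d23457 : 0 < (-1 * W p [2, 3, 4, 5, 7]) * δ 0 := tr_pos (b := 1 * δ 18) (by linarith) c18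
  have d23467 : 0 < W p [2, 3, 6, 7, 4] * δ 17 := h 17 4 (by norm_num) (by decide)
  rw [W_eq_srt p [2, 3, 6, 7, 4] rfl, show srt [2, 3, 6, 7, 4] = ([2, 3, 4, 6, 7], false) from rfl] at d23467
  simp only [sg, if_true, if_false, Bool.false_eq_true] at d23467
  have d23467 : 0 < (-1 * W p [2, 3, 4, 6, 7]) * δ 0 := tr_pos (b := -1 * δ 17) (by linarith) c17
  have g0 := gp_W p [2, 3, 4] rfl 0 5 6 7
  simp only [List.cons_append, List.nil_append] at g0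
  rw [W_eq_srt p [2, 3, 4, 0, 5] rfl, show srt [2, 3, 4, 0, 5] = ([0, 2, 3, 4, 5], true) from rfl, W_eq_srt p [2, 3, 4, 6, 7] rfl, show srt [2, 3, 4, 6, 7] = ([2, 3, 4, 6, 7], false) from rfl, W_eq_srt p [2, 3, 4, 0, 6] rfl, show srt [2, 3, 4, 0, 6] = ([0, 2, 3, 4, 6], true) from rfl, W_eq_srt p [2, 3, 4, 5, 7] rfl, show srt [2, 3, 4, 5, 7] = ([2, 3, 4, 5, 7], false) from rfl, W_eq_srt p [2, 3, 4, 0, 7] rfl, show srt [2, 3, 4, 0, 7] = ([0, 2, 3, 4, 7], true) from rfl, W_eq_srt p [2, 3, 4, 5, 6] rfl, show srt [2, 3, 4, 5, 6] = ([2, 3, 4, 5, 6], false) from rfl] at g0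
  simp only [sg, if_true, if_false, Bool.false_eq_true] at g0
  have k0a := mul_pos d02345 d23467
  have k0b := mul_pos d02346 d23457
  have k0c : 0 < ((-1 * W p [0, 2, 3, 4, 7]) * δ 0) * ((1 * W p [2, 3, 4, 5, 6]) * δ 0) := by
    have e : ((-1 * W p [0, 2, 3, 4, 7]) * δ 0) * ((1 * W p [2, 3, 4, 5, 6]) * δ 0) = ((-1 * W p [0, 2, 3, 4, 5]) * δ 0) * ((-1 * W p [2, 3, 4, 6, 7]) * δ 0) + ((1 * W p [0, 2, 3, 4, 6]) * δ 0) * ((-1 * W p [2, 3, 4, 5, 7]) * δ 0) := by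
      linear_combination (1 * (δ 0) ^ 2) * g0
    rw [e]; exact add_pos k0a k0b
  have k0d : 0 < (-1 * W p [0, 2, 3, 4, 7]) * δ 0 := (pos_iff_pos_of_mul_pos k0c).2 d23456
  have g1 := gp_W p [0, 2, 4] rfl 1 3 5 7
  simp only [List.cons_append, List.nil_append] at g1
  rw [W_eq_srt p [0, 2, 4, 1, 3] rfl, show srt [0, 2, 4, 1, 3] = ([0, 1, 2, 3, 4], true) from rfl, W_eq_srt p [0, 2, 4, 5, 7] rfl, show srt [0, 2, 4, 5, 7] = ([0, 2, 4, 5, 7], false) from rfl, W_eq_srt p [0, 2, 4, 1, 5] rfl, show srt [0, 2, 4, 1, 5] = ([0, 1, 2, 4, 5], false) from rfl, W_eq_srt p [0, 2, 4, 3, 7] rfl, show srt [0, 2, 4, 3, 7] = ([0, 2, 3, 4, 7], true) from rfl, W_eq_srt p [0, 2, 4, 1, 7] rfl, show srt [0, 2, 4, 1, 7] = ([0, 1, 2, 4, 7], false) from rfl, W_eq_srt p [0, 2, 4, 3, 5] rfl, show srt [0, 2, 4, 3, 5] = ([0, 2, 3, 4, 5], true) from rfl] at g1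
  simp only [sg, if_true, if_false, Bool.false_eq_true] at g1
  have k1a := mul_pos d01234 d02457
  have k1b := mul_pos d01247 d02345
  have k1c : 0 < ((1 * W p [0, 2, 3, 4, 7]) * δ 0) * ((1 * W p [0, 1, 2, 4, 5]) * δ 0) := by
    have e : ((1 * W p [0, 2, 3, 4, 7]) * δ 0) * ((1 * W p [0, 1, 2, 4, 5]) * δ 0) = ((1 * W p [0, 1, 2, 3, 4]) * δ 0) * ((1 * W p [0, 2, 4, 5, 7]) * δ 0) + ((-1 * W p [0, 1, 2, 4, 7]) * δ 0) * ((-1 * W p [0, 2, 3, 4, 5]) * δ 0) := by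
      linear_combination (1 * (δ 0) ^ 2) * g1
    rw [e]; exact add_pos k1a k1b
  have k1d : 0 < (1 * W p [0, 2, 3, 4, 7]) * δ 0 := (pos_iff_pos_of_mul_pos k1c).2 d01245
  linarith

end Pool.Agent.R180.MStar
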