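import Mathlib
import Pool.Agent.R180.MSign

set_option autoImplicit false

/-!
# The dual complex `M*`: linear algebra
-/

namespace Pool.Agent.R180.MStar

open Pool.Agent.R180.Chi Pool.Agent.R180.VChi

/-- the twenty facets of `M` (vertices `A, …, H` are `0, …, 7`) -/
def fac : Fin 20 → Finset (Fin 8) :=
  ![{0, 1, 2, 3}, {0, 1, 2, 5}, {0, 1, 3, 5}, {0, 2, 3, 6}, {0, 2, 5, 7}, {0, 2, 6, 7},
    {0, 3, 4, 5}, {0, 3, 4, 6}, {0, 4, 5, 7}, {0, 4, 6, 7}, {1, 2, 3, 7}, {1, 2, 4, 5},
    {1, 2, 4, 7}, {1, 3, 5, 6}, {1, 3, 6, 7}, {1, 4, 5, 6}, {1, 4, 6, 7}, {2, 3, 6, 7},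
    {2, 4, 5, 7}, {3, 4, 5, 6}]

lemma fac_card : ∀ F, (fac F).card = 4 := by decide

lemma exists_nb : ∀ F A, ∃ G, A ∈ fac F → A ∉ fac G ∧ ∀ B ∈ fac F, B ≠ A → B ∈ fac G := by
  decide +kernel

/-- the neighbouring facet -/
noncomputable def nb (F : Fin 20) (A : Fin 8) : Fin 20 := (exists_nb F A).choose

lemma nb_notMem {F : Fin 20} {A : Fin 8} (h : A ∈ fac F) : A ∉ fac (nb F A) :=
  ((exists_nb F A).choose_spec h).1

lemma nb_mem {F : Fin 20} {A B : Fin 8} (h : A ∈ fac F) (hB : B ∈ fac F) (hne : B ≠ A) :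
    B ∈ fac (nb F A) :=
  ((exists_nb F A).choose_spec h).2 B hB hne

lemma comb1 : ∀ A C Z : Fin 8, A ≠ C → ∃ F, A ∈ fac F ∧ C ∈ fac F ∧ ∃ G, Z ∈ fac G ∧
    ∃ Y1 ∈ fac F ∩ fac G, ∃ Y2 ∈ fac F ∩ fac G, Y1 ≠ Y2 := by
  decide +kernel

lemma comb2 : ∀ A B C : Fin 8, A ≠ C → B ≠ C → ∃ G, A ∈ fac G ∧ B ∈ fac G ∧ C ∉ fac G := by
  decide +kernel

lemma comb3 : ∀ C : Fin 8, ∃ G, C ∉ fac G := by decide

lemma comb4 : ∀ F : Fin 20, ∃ A, A ∈ fac F := by decide

lemma comb5 : ∀ C : Fin 8, ∃ G, C ∈ fac G := by decide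

variable {V : Type*} [AddCommGroup V] [Module ℝ V]

/-- the points of the cell `A` -/
def pts (P : Fin 20 → V) (A : Fin 8) : Set V := {v | ∃ F, A ∈ fac F ∧ P F = v}

/-- the data extracted from a complex -/
structure Data (x0 : V →ₗ[ℝ] ℝ) (P : Fin 20 → V) (L : Fin 8 → Fin 8 → V →ₗ[ℝ] ℝ) : Prop where
  one : ∀ F, x0 (P F) = 1
  zero : ∀ A B F, A ∈ fac F → B ∈ fac F → L A B (P F) = 0
  pos : ∀ A B F, A ∈ fac F → B ∉ fac F → 0 < L A B (P F)
  overlap : ∀ A B q, A ≠ B → q ∈ convexHull ℝ (pts P A) → q ∈ convexHull ℝ (pts P B) →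
    L A B q = 0
  fin : ∀ A, Module.finrank ℝ (Submodule.span ℝ (pts P A)) ≤ 4

/-- the span of a cell -/
def N (P : Fin 20 → V) (A : Fin 8) : Submodule ℝ V := Submodule.span ℝ (pts P A)

omit [AddCommGroup V] [Module ℝ V] in
lemma pts_finite (P : Fin 20 → V) (A : Fin 8) : (pts P A).Finite := by
  apply (Set.finite_range P).subset
  rintro v ⟨F, _, rfl⟩
  exact ⟨F, rfl⟩

instance (P : Fin 20 → V) (A : Fin 8) : FiniteDimensional ℝ (N P A) :=
  FiniteDimensional.span_of_finite ℝ (pts_finite P A)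

lemma mem_N (P : Fin 20 → V) {A : Fin 8} {F : Fin 20} (h : A ∈ fac F) : P F ∈ N P A :=
  Submodule.subset_span ⟨F, h, rfl⟩

/-- the basis of the span of a cell at a vertex -/
noncomputable def bas (P : Fin 20 → V) (F : Fin 20) (B : Fin 8) :
    Option {W // W ∈ (fac F).erase B} → V :=
  fun o => o.elim (P F) (fun W => P (nb F W))

lemma bas_mem (P : Fin 20 → V) {F : Fin 20} {B : Fin 8} (hB : B ∈ fac F) (o) :
    bas P F B o ∈ N P B := by
  rcases o with _ | ⟨W, hW⟩
  · exact mem_N P hB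
  · rw [Finset.mem_erase] at hW
    exact mem_N P (nb_mem hW.2 hB hW.1.symm)

section
variable {x0 : V →ₗ[ℝ] ℝ} {P : Fin 20 → V} {L : Fin 8 → Fin 8 → V →ₗ[ℝ] ℝ}

lemma bas_li (h : Data x0 P L) {F : Fin 20} {B : Fin 8} (hB : B ∈ fac F) :
    LinearIndependent ℝ (bas P F B) := by
  classical
  rw [Fintype.linearIndependent_iff]
  intro g hg
  rw [Fintype.sum_option] at hg
  have h1 : ∀ W, g (some W) = 0 := by
    rintro ⟨W, hW⟩
    have hW' := Finset.mem_erase.1 hW
    have h2 := congrArg (L B W) hg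
    rw [map_add, map_smul, map_sum, map_zero] at h2
    have h3 : L B W (bas P F B none) = 0 := h.zero B W F hB hW'.2
    rw [h3, smul_zero, zero_add] at h2
    rw [Finset.sum_eq_single (⟨W, hW⟩ : {W // W ∈ (fac F).erase B})] at h2
    · rw [map_smul, smul_eq_mul] at h2
      have h4 : 0 < L B W (bas P F B (some ⟨W, hW⟩)) :=
        h.pos B W _ (nb_mem hW'.2 hB hW'.1.symm) (nb_notMem hW'.2)
      rcases mul_eq_zero.1 h2 with h5 | h5
      · exact h5
      · exact absurd h5 h4.ne'
    · rintro ⟨W', hW''⟩ _ hne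
      have hW3 := Finset.mem_erase.1 hW''
      rw [map_smul]
      have h4 : L B W (bas P F B (some ⟨W', hW''⟩)) = 0 := by
        refine h.zero B W _ (nb_mem hW3.2 hB hW3.1.symm) (nb_mem hW3.2 hW'.2 ?_)
        intro he
        exact hne (Subtype.ext he.symm)
      rw [h4, smul_zero]
    · intro hn; exact absurd (Finset.mem_univ _) hn
  rintro (_ | W)
  · simp only [h1, zero_smul, Finset.sum_const_zero, add_zero] at hg
    have h2 := congrArg x0 hg
    rw [map_smul, map_zero] at h2
    have h3 : x0 (bas P F B none) = 1 := h.one F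
    rw [h3] at h2
    simpa using h2
  · exact h1 W

lemma finrank_N (h : Data x0 P L) (B : Fin 8) : Module.finrank ℝ (N P B) = 4 ∧
    ∀ F, B ∈ fac F → N P B = Submodule.span ℝ (Set.range (bas P F B)) := by
  have key : ∀ F, B ∈ fac F → Module.finrank ℝ (Submodule.span ℝ (Set.range (bas P F B))) = 4 := by
    intro F hF
    rw [finrank_span_eq_card (bas_li h hF), Fintype.card_option, Fintype.card_coe,
      Finset.card_erase_of_mem hF, fac_card]
  have hle : ∀ F, B ∈ fac F → Submodule.span ℝ (Set.range (bas P F B)) ≤ N P B := by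
    intro F hF
    rw [Submodule.span_le]
    rintro v ⟨o, rfl⟩
    exact bas_mem P hF o
  have heq : ∀ F, B ∈ fac F → N P B = Submodule.span ℝ (Set.range (bas P F B)) := by
    intro F hF
    refine (Submodule.eq_of_le_of_finrank_le (hle F hF) ?_).symm
    rw [key F hF]
    exact h.fin B
  obtain ⟨F, hF⟩ := comb5 B
  refine ⟨?_, heq⟩
  rw [heq F hF, key F hF]

/-- to check a linear condition on a cell it is enough to check it at a vertex and its
neighbours in the cell -/
lemma N_le (h : Data x0 P L) {F : Fin 20} {B : Fin 8} (hB : B ∈ fac F) (Q : Submodule ℝ V)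
    (h0 : P F ∈ Q) (h1 : ∀ W ∈ fac F, W ≠ B → P (nb F W) ∈ Q) : N P B ≤ Q := by
  rw [(finrank_N h B).2 F hB, Submodule.span_le]
  rintro v ⟨o, rfl⟩
  rcases o with _ | ⟨W, hW⟩
  · exact h0
  · rw [Finset.mem_erase] at hW
    exact h1 W hW.2 hW.1

lemma closure1 (h : Data x0 P L) {A C Z : Fin 8} (hAC : A ≠ C) {F : Fin 20} (hA : A ∈ fac F)
    (hC : C ∈ fac F) (hZ : Z ∈ fac F) : N P Z ≤ N P A ⊔ N P C := by
  apply N_le h hZ
  · exact Submodule.mem_sup_left (mem_N P hA)
  · intro W hW _
    by_cases hWA : A = W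
    · exact Submodule.mem_sup_right (mem_N P (nb_mem hW hC (by rw [← hWA]; exact hAC.symm)))
    · exact Submodule.mem_sup_left (mem_N P (nb_mem hW hA hWA))

lemma closure2 (h : Data x0 P L) {A C : Fin 8} (hAC : A ≠ C) (Z : Fin 8) :
    N P Z ≤ N P A ⊔ N P C := by
  obtain ⟨F, hA, hC, G, hZ, Y1, hY1, Y2, hY2, hne⟩ := comb1 A C Z hAC
  rw [Finset.mem_inter] at hY1 hY2
  exact (closure1 h hne hY1.2 hY2.2 hZ).trans
    (sup_le (closure1 h hAC hA hC hY1.1) (closure1 h hAC hA hC hY2.1))

lemma closure3 (h : Data x0 P L) {A C : Fin 8} (hAC : A ≠ C) (G : Fin 20) :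
    P G ∈ N P A ⊔ N P C := by
  obtain ⟨Z, hZ⟩ := comb4 G
  exact closure2 h hAC Z (mem_N P hZ)

end

/-! ### Case 1: everything in one cell -/

lemma mem_hull (P : Fin 20 → V) {F : Fin 20} {B : Fin 8} (hB : B ∈ fac F) (c : Fin 8 → ℝ)
    (h0 : ∀ W ∈ (fac F).erase B, 0 ≤ c W) (h1 : ∀ W ∈ (fac F).erase B, c W ≤ 1 / 3) :
    P F + ∑ W ∈ (fac F).erase B, c W • (P (nb F W) - P F) ∈ convexHull ℝ (pts P B) := by
  classical
  let w : Option (Fin 8) → ℝ := fun o => o.elim (1 - ∑ W ∈ (fac F).erase B, c W) c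
  let z : Option (Fin 8) → V := fun o => o.elim (P F) (fun W => P (nb F W))
  have hsum : ∑ W ∈ (fac F).erase B, c W ≤ 1 := by
    have := Finset.sum_le_card_nsmul _ _ _ h1
    rw [Finset.card_erase_of_mem hB, fac_card] at this
    norm_num at this
    exact this
  have key := (convex_convexHull ℝ (pts P B)).sum_mem (t := Finset.insertNone ((fac F).erase B))
    (w := w) (z := z) ?_ ?_ ?_
  · rw [Finset.sum_insertNone] at key
    convert key using 1
    simp only [w, z, Option.elim]
    simp only [smul_sub, Finset.sum_sub_distrib, ← Finset.sum_smul, sub_smul, one_smul]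
    abel
  · rintro (_ | W) hW
    · simp only [w, Option.elim]; linarith
    · simp only [w, Option.elim]
      exact h0 W (by simpa using hW)
  · rw [Finset.sum_insertNone]
    simp only [w, Option.elim]
    ring
  · rintro (_ | W) hW
    · exact subset_convexHull _ _ ⟨F, hB, rfl⟩
    · have hW' : W ∈ (fac F).erase B := by simpa using hW
      rw [Finset.mem_erase] at hW'
      exact subset_convexHull _ _ ⟨nb F W, nb_mem hW'.2 hB hW'.1.symm, rfl⟩

section
variable {x0 : V →ₗ[ℝ] ℝ} {P : Fin 20 → V} {L : Fin 8 → Fin 8 → V →ₗ[ℝ] ℝ}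

lemma exists_coeff (h : Data x0 P L) {F G : Fin 20} {A : Fin 8} (hA : A ∈ fac F)
    (hG : P G ∈ N P A) : ∃ α : Fin 8 → ℝ,
    P G - P F = ∑ W ∈ (fac F).erase A, α W • (P (nb F W) - P F) := by
  classical
  let z : Option (Fin 8) → V := fun o => o.elim (P F) (fun W => P (nb F W))
  have hr : Set.range (bas P F A) = z '' (Finset.insertNone ((fac F).erase A) : Finset _) := by
    ext v
    constructor
    · rintro ⟨_ | ⟨W, hW⟩, rfl⟩
      · exact ⟨none, by simp, rfl⟩
      · exact ⟨some W, by simpa using hW, rfl⟩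
    · rintro ⟨_ | W, hW, rfl⟩
      · exact ⟨none, rfl⟩
      · exact ⟨some ⟨W, by simpa using hW⟩, rfl⟩
  rw [(finrank_N h A).2 F hA, hr, Submodule.mem_span_image_finset_iff_exists_fun] at hG
  obtain ⟨c0, hc0⟩ := hG
  obtain ⟨c, hc⟩ : ∃ c : Option (Fin 8) → ℝ,
      ∑ o ∈ Finset.insertNone ((fac F).erase A), c o • z o = P G := by
    refine ⟨fun o => if ho : o ∈ Finset.insertNone ((fac F).erase A) then c0 ⟨o, ho⟩ else 0, ?_⟩
    rw [← hc0, ← Finset.sum_coe_sort]
    apply Finset.sum_congr rfl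
    rintro ⟨o, ho⟩ _
    simp only [ho, dif_pos]
  rw [Finset.sum_insertNone] at hc
  have h1 := congrArg x0 hc
  rw [map_add, map_smul, map_sum] at h1
  have h2 : ∀ W ∈ (fac F).erase A, x0 (c (some W) • z (some W)) = c (some W) := by
    intro W _
    rw [map_smul, show x0 (z (some W)) = 1 from h.one _]; simp
  rw [Finset.sum_congr rfl h2, show x0 (z none) = 1 from h.one _, h.one, smul_eq_mul,
    mul_one] at h1
  refine ⟨fun W => c (some W), ?_⟩
  rw [← hc]
  simp only [z, Option.elim, smul_sub, Finset.sum_sub_distrib, ← Finset.sum_smul]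
  have h3 : c none = 1 - ∑ W ∈ (fac F).erase A, c (some W) := by linarith
  rw [h3, sub_smul, one_smul]
  abel

lemma coeff_neg (h : Data x0 P L) {F : Fin 20} {A : Fin 8} (hA : A ∈ fac F) (α : Fin 8 → ℝ)
    (hα : P (nb F A) - P F = ∑ W ∈ (fac F).erase A, α W • (P (nb F W) - P F))
    {B : Fin 8} (hB : B ∈ (fac F).erase A) : α B < 0 := by
  classical
  obtain ⟨hBA, hBF⟩ := Finset.mem_erase.1 hB
  have hAB : A ∈ (fac F).erase B := Finset.mem_erase.2 ⟨hBA.symm, hA⟩
  -- the coefficient is not zero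
  have hne : α B ≠ 0 := by
    intro h0
    have h1 := congrArg (L B A) hα
    rw [map_sub, h.zero B A F hBF hA, sub_zero, map_sum, Finset.sum_eq_zero] at h1
    · exact absurd h1 (h.pos B A _ (nb_mem hA hBF hBA) (nb_notMem hA)).ne'
    · intro W hW
      obtain ⟨hWA, hWF⟩ := Finset.mem_erase.1 hW
      by_cases hWB : W = B
      · rw [hWB, h0, zero_smul, map_zero]
      · rw [map_smul, map_sub, h.zero B A F hBF hA,
          h.zero B A _ (nb_mem hWF hBF (Ne.symm hWB)) (nb_mem hWF hA (Ne.symm hWA))]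
        simp
  by_contra hneg
  have hpos : 0 < α B := lt_of_le_of_ne (not_lt.1 hneg) (Ne.symm hne)
  set m : ℝ := ∑ W ∈ (fac F).erase A, |α W| with hm
  have hm0 : 0 ≤ m := Finset.sum_nonneg fun _ _ => abs_nonneg _
  have hαm : ∀ W ∈ (fac F).erase A, |α W| ≤ m := fun W hW =>
    Finset.single_le_sum (f := fun W => |α W|) (fun _ _ => abs_nonneg _) hW
  set ε : ℝ := 1 / (3 + 6 * m) with hε
  have hε0 : 0 < ε := by positivity
  have hε1 : ε ≤ 1 / 3 := by
    rw [hε]; apply one_div_le_one_div_of_le <;> linarith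
  have hε2 : ε * m ≤ 1 / 6 := by
    rw [hε, div_mul_eq_mul_div, one_mul, div_le_div_iff₀ (by linarith) (by norm_num)]
    linarith
  let c : Fin 8 → ℝ := fun W => if W = A then ε else ε * m
  let c' : Fin 8 → ℝ := fun W => if W = B then ε * α B else ε * α W + ε * m
  have q1 := mem_hull P hBF c (by
    intro W _
    simp only [c]; split_ifs
    · exact hε0.le
    · positivity) (by
    intro W _
    simp only [c]; split_ifs
    · exact hε1
    · linarith)
  have q2 := mem_hull P hA c' (by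
    intro W hW
    have := hαm W hW
    have h2 := neg_abs_le (α W)
    simp only [c']; split_ifs
    · positivity
    · have : 0 ≤ ε * (α W + m) := mul_nonneg hε0.le (by linarith)
      linarith) (by
    intro W hW
    have h1 := hαm W hW
    have h1' := hαm B hB
    have h2 := le_abs_self (α W)
    have h2' := le_abs_self (α B)
    simp only [c']; split_ifs
    · have : ε * α B ≤ ε * m := mul_le_mul_of_nonneg_left (by linarith) hε0.le
      linarith
    · have : ε * α W ≤ ε * m := mul_le_mul_of_nonneg_left (by linarith) hε0.le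
      linarith)
  have heq : P F + ∑ W ∈ (fac F).erase B, c W • (P (nb F W) - P F) =
      P F + ∑ W ∈ (fac F).erase A, c' W • (P (nb F W) - P F) := by
    congr 1
    rw [← Finset.add_sum_erase _ _ hAB, ← Finset.add_sum_erase _ _ hB,
      Finset.erase_right_comm (a := B) (b := A)]
    have e1 : c A = ε := by simp [c]
    have e2 : c' B = ε * α B := by simp [c']
    have e3 : ∀ W ∈ ((fac F).erase A).erase B, c W • (P (nb F W) - P F) =
        (ε * m) • (P (nb F W) - P F) := by
      intro W hW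
      have : W ≠ A := (Finset.mem_erase.1 (Finset.mem_erase.1 hW).2).1
      simp [c, this]
    have e4 : ∀ W ∈ ((fac F).erase A).erase B, c' W • (P (nb F W) - P F) =
        ε • (α W • (P (nb F W) - P F)) + (ε * m) • (P (nb F W) - P F) := by
      intro W hW
      have : W ≠ B := (Finset.mem_erase.1 hW).1
      simp only [c', this, if_false]
      rw [add_smul, smul_smul]
    rw [Finset.sum_congr rfl e3, Finset.sum_congr rfl e4, e1, e2, hα,
      ← Finset.add_sum_erase _ _ hB, Finset.sum_add_distrib, smul_add, Finset.smul_sum,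
      mul_smul, add_assoc]
  rw [heq] at q1
  have hz := h.overlap A B _ hBA.symm q2 q1
  rw [map_add, map_sum, h.zero A B F hA hBF, zero_add, Finset.sum_eq_single B] at hz
  · rw [map_smul, map_sub, h.zero A B F hA hBF, sub_zero] at hz
    have h1 : c' B = ε * α B := by simp [c']
    have h2 : 0 < L A B (P (nb F B)) := h.pos A B _ (nb_mem hBF hA hBA.symm) (nb_notMem hBF)
    rw [h1, smul_eq_mul] at hz
    exact absurd hz (by positivity)
  · intro W hW hWB
    obtain ⟨hWA, hWF⟩ := Finset.mem_erase.1 hW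
    rw [map_smul, map_sub, h.zero A B F hA hBF,
      h.zero A B _ (nb_mem hWF hA (Ne.symm hWA)) (nb_mem hWF hBF (Ne.symm hWB))]
    simp
  · intro hn; exact absurd hB hn

lemma flat (h : Data x0 P L) (hflat : ∀ Z G, P G ∈ N P Z) : False := by
  classical
  let g : V →ₗ[ℝ] ℝ := L 0 1
  obtain ⟨F, hF⟩ := Finite.exists_max (fun F => g (P F))
  have hle : ∀ W, g (P (nb F W) - P F) ≤ 0 := by
    intro W; rw [map_sub]; have := hF (nb F W); linarith
  have hzero : ∀ A ∈ fac F, g (P (nb F A) - P F) = 0 := by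
    intro A hA
    obtain ⟨α, hα⟩ := exists_coeff h (G := nb F A) hA (hflat A _)
    refine le_antisymm (hle A) ?_
    rw [hα, map_sum]
    apply Finset.sum_nonneg
    intro W hW
    rw [map_smul, smul_eq_mul]
    exact mul_nonneg_of_nonpos_of_nonpos (coeff_neg h hA α hα hW).le (hle W)
  obtain ⟨A, hA⟩ := comb4 F
  have hN : N P A ≤ LinearMap.ker (g - g (P F) • x0) := by
    apply N_le h hA
    · rw [LinearMap.mem_ker, LinearMap.sub_apply, LinearMap.smul_apply, h.one]; simp
    · intro W hW _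
      have := hzero W hW
      rw [map_sub] at this
      rw [LinearMap.mem_ker, LinearMap.sub_apply, LinearMap.smul_apply, h.one]
      simp only [smul_eq_mul, mul_one]
      exact this
  have hall : ∀ G, g (P G) = g (P F) := by
    intro G
    have := hN (hflat A G)
    rw [LinearMap.mem_ker, LinearMap.sub_apply, LinearMap.smul_apply, h.one] at this
    simp only [smul_eq_mul, mul_one] at this
    linarith
  have h1 : g (P 0) = 0 := h.zero 0 1 0 (by decide) (by decide)
  have h2 : 0 < g (P 3) := h.pos 0 1 3 (by decide) (by decide)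
  have h3 := hall 0
  have h4 := hall 3
  linarith

end

/-! ### Case 2: dual functionals -/

section
variable {x0 : V →ₗ[ℝ] ℝ} {P : Fin 20 → V} {L : Fin 8 → Fin 8 → V →ₗ[ℝ] ℝ}

/-- a supporting functional of the cell `C` -/
lemma exists_dual (h : Data x0 P L) {C : Fin 8} {K : Fin 20} (hK : P K ∉ N P C) :
    ∃ k : V →ₗ[ℝ] ℝ, (∀ G, C ∈ fac G → k (P G) = 0) ∧ (∀ G, C ∉ fac G → 0 < k (P G)) := by
  classical
  obtain ⟨f, hf, hf0⟩ := Submodule.exists_dual_map_eq_bot_of_notMem hK inferInstance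
  have hf1 : N P C ≤ LinearMap.ker f := by
    intro x hx
    have : f x ∈ Submodule.map f (N P C) := ⟨x, hx, rfl⟩
    rw [hf0] at this
    simpa using this
  have hfC : ∀ G, C ∈ fac G → f (P G) = 0 := fun G hG => hf1 (mem_N P hG)
  -- on every other cell `f` is a nonzero multiple of `L A C`
  have hs : ∀ A, A ≠ C → ∃ s : ℝ, s ≠ 0 ∧ ∀ G, A ∈ fac G → f (P G) = s * L A C (P G) := by
    intro A hAC
    obtain ⟨F, hA, hC, -⟩ := comb1 A C A hAC
    have hpos : 0 < L A C (P (nb F C)) := h.pos A C _ (nb_mem hC hA hAC) (nb_notMem hC)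
    have hne : f (P (nb F C)) ≠ 0 := by
      intro h0
      have hA' : N P A ≤ LinearMap.ker f := by
        apply N_le h hA
        · exact hfC F hC
        · intro W hW _
          by_cases hWC : W = C
          · rw [hWC]; exact h0
          · exact hfC _ (nb_mem hW hC (Ne.symm hWC))
      exact hf (sup_le hA' hf1 (closure3 h hAC K))
    refine ⟨f (P (nb F C)) / L A C (P (nb F C)), div_ne_zero hne hpos.ne', ?_⟩
    have hN : N P A ≤ LinearMap.ker (f - (f (P (nb F C)) / L A C (P (nb F C))) • L A C) := by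
      apply N_le h hA
      · rw [LinearMap.mem_ker, LinearMap.sub_apply, LinearMap.smul_apply, hfC F hC,
          h.zero A C F hA hC]
        simp
      · intro W hW hWA
        by_cases hWC : W = C
        · rw [hWC, LinearMap.mem_ker, LinearMap.sub_apply, LinearMap.smul_apply, smul_eq_mul,
            div_mul_cancel₀ _ hpos.ne', sub_self]
        · rw [LinearMap.mem_ker, LinearMap.sub_apply, LinearMap.smul_apply,
            hfC _ (nb_mem hW hC (Ne.symm hWC)),
            h.zero A C _ (nb_mem hW hA (Ne.symm hWA)) (nb_mem hW hC (Ne.symm hWC))]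
          simp
    intro G hG
    have := hN (mem_N P hG)
    rw [LinearMap.mem_ker, LinearMap.sub_apply, LinearMap.smul_apply, smul_eq_mul] at this
    linarith
  have hss : ∀ G G', C ∉ fac G → C ∉ fac G' → 0 < f (P G) * f (P G') := by
    have h1 : ∀ A G G', A ∈ fac G → A ∈ fac G' → C ∉ fac G → C ∉ fac G' →
        0 < f (P G) * f (P G') := by
      intro A G G' hA hA' hC hC'
      have hAC : A ≠ C := fun e => hC (e ▸ hA)
      obtain ⟨s, hs0, hs1⟩ := hs A hAC
      rw [hs1 G hA, hs1 G' hA']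
      have p1 := h.pos A C G hA hC
      have p2 := h.pos A C G' hA' hC'
      have p3 : 0 < s * s := mul_self_pos.2 hs0
      have : s * L A C (P G) * (s * L A C (P G')) = (s * s) * (L A C (P G) * L A C (P G')) := by
        ring
      rw [this]
      positivity
    intro G G' hC hC'
    obtain ⟨A, hA⟩ := comb4 G
    obtain ⟨B, hB⟩ := comb4 G'
    have hAC : A ≠ C := fun e => hC (e ▸ hA)
    have hBC : B ≠ C := fun e => hC' (e ▸ hB)
    obtain ⟨G'', hA'', hB'', hC''⟩ := comb2 A B C hAC hBC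
    exact tr_pos (h1 A G G'' hA hA'' hC hC'') (h1 B G'' G' hB'' hB hC'' hC')
  obtain ⟨G0, hG0⟩ := comb3 C
  refine ⟨f (P G0) • f, ?_, ?_⟩
  · intro G hG
    rw [LinearMap.smul_apply, hfC G hG, smul_zero]
  · intro G hG
    rw [LinearMap.smul_apply, smul_eq_mul]
    exact hss G0 G hG0 hG

end

/-- the facets as lists and as sets -/
lemma facL_length : ∀ F, (facL F).length = 4 := by decide

lemma facL_nodup : ∀ F, (facL F).Nodup := by decide

lemma facL_lt : ∀ F, ∀ x ∈ facL F, x < 8 := by decide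

lemma facL_mem : ∀ F : Fin 20, ∀ x : Fin 8, (x : ℕ) ∈ facL F ↔ x ∈ fac F := by decide +kernel

/-- the functionals contradict each other -/
lemma dual_false (P : Fin 20 → V) (k : Fin 8 → V →ₗ[ℝ] ℝ)
    (h0 : ∀ C G, C ∈ fac G → k C (P G) = 0) (h1 : ∀ C G, C ∉ fac G → 0 < k C (P G))
    (u : Fin 5 → V) (hu : ∀ G, ∃ c : Fin 5 → ℝ, P G = ∑ j, c j • u j) : False := by
  classical
  choose c hc using hu
  let kn : ℕ → V →ₗ[ℝ] ℝ := fun x => if h : x < 8 then k ⟨x, h⟩ else 0
  let p : ℕ → Fin 5 → ℝ := fun x j => kn x (u j)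
  have hdot : ∀ x G, p x ⬝ᵥ c G = kn x (P G) := by
    intro x G
    rw [hc G, map_sum]
    simp only [dotProduct, p, map_smul, smul_eq_mul]
    exact Finset.sum_congr rfl fun j _ => mul_comm _ _
  have hkn : ∀ x : Fin 8, kn x = k x := by
    intro x
    simp only [kn, x.2, dif_pos]
  -- the dual points of a facet
  let y : Fin 20 → Fin 5 → Fin 5 → ℝ := fun F j =>
    if h : (j : ℕ) < 4 then c (nb F ⟨(facL F)[(j : ℕ)]'(by rw [facL_length]; exact h),
      facL_lt F _ (List.getElem_mem _)⟩) else c F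
  refine no_signs p (fun F => (Matrix.of (y F)).det) ?_
  intro F x hx hxF
  have hget : ∀ i : Fin 4, (facL F).getD (i : ℕ) 0 = (facL F)[(i : ℕ)]'(by
      rw [facL_length]; exact i.2) := by
    intro i
    rw [List.getD_eq_getElem]
  have hmem : ∀ i : Fin 4, (facL F)[(i : ℕ)]'(by rw [facL_length]; exact i.2) ∈ facL F :=
    fun i => List.getElem_mem _
  have hlast : y F (Fin.last 4) = c F := by simp [y]
  have hcast : ∀ i : Fin 4, y F i.castSucc = c (nb F ⟨(facL F)[(i : ℕ)]'(by
      rw [facL_length]; exact i.2), facL_lt F _ (hmem i)⟩) := by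
    intro i
    have : ((i.castSucc : Fin 5) : ℕ) < 4 := i.2
    simp only [y, this, dif_pos]
    rfl
  refine facet_sign (m := 3) p (y F) (facL F) (facL_length F) ?_ ?_ x ?_
  · intro i j hij
    rw [hget]
    set a : Fin 8 := ⟨(facL F)[(i : ℕ)]'(by rw [facL_length]; exact i.2),
      facL_lt F _ (hmem i)⟩ with ha
    have haF : a ∈ fac F := (facL_mem F a).1 (hmem i)
    have hpa : p ((facL F)[(i : ℕ)]'(by rw [facL_length]; exact i.2)) = p (a : ℕ) := rfl
    revert hij
    refine Fin.lastCases ?_ (fun j => ?_) j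
    · intro _
      rw [hlast, hpa, hdot, hkn]
      exact h0 a F haF
    · intro hij
      have hij' : i ≠ j := fun e => hij (by rw [e])
      rw [hcast, hpa, hdot, hkn]
      apply h0
      apply nb_mem
      · exact (facL_mem F _).1 (hmem j)
      · exact haF
      · intro e
        have e' := congrArg Fin.val e
        simp only [ha] at e'
        have := (facL_nodup F).getElem_inj_iff.1 e'
        exact hij' (Fin.ext this)
  · intro i
    rw [hget, hcast]
    set a : Fin 8 := ⟨(facL F)[(i : ℕ)]'(by rw [facL_length]; exact i.2),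
      facL_lt F _ (hmem i)⟩ with ha
    have hpa : p ((facL F)[(i : ℕ)]'(by rw [facL_length]; exact i.2)) = p (a : ℕ) := rfl
    rw [hpa, hdot, hkn]
    exact h1 a _ (nb_notMem ((facL_mem F a).1 (hmem i)))
  · rw [hlast, hdot]
    have : kn x = k ⟨x, hx⟩ := hkn ⟨x, hx⟩
    rw [this]
    apply h1
    intro hm
    exact hxF ((facL_mem F ⟨x, hx⟩).2 hm)

/-- **Main linear-algebra statement.** -/
theorem no_data {x0 : V →ₗ[ℝ] ℝ} {P : Fin 20 → V} {L : Fin 8 → Fin 8 → V →ₗ[ℝ] ℝ}
    (h : Data x0 P L) : False := by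
  classical
  by_cases hflat : ∃ A, ∀ G, P G ∈ N P A
  · obtain ⟨A, hA⟩ := hflat
    apply flat h
    intro Z G
    have hle : N P Z ≤ N P A := by
      unfold N
      rw [Submodule.span_le]
      rintro v ⟨F, -, rfl⟩
      exact hA F
    have heq : N P Z = N P A := Submodule.eq_of_le_of_finrank_le hle (by
      rw [(finrank_N h Z).1, (finrank_N h A).1])
    rw [heq]
    exact hA G
  · push Not at hflat
    choose K hK using hflat
    choose k hk0 hk1 using fun C => exists_dual h (hK C)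
    -- five spanning vectors
    let u : Fin 5 → V := ![P 0, P (nb 0 0), P (nb 0 1), P (nb 0 2), P (nb 0 3)]
    have hall : ∀ G, P G ∈ Submodule.span ℝ (Set.range u) := by
      intro G
      have hd : ∀ W : Fin 8, W ∈ fac 0 → W = 0 ∨ W = 1 ∨ W = 2 ∨ W = 3 := by decide
      have h2 : ∀ A ∈ fac 0, N P A ≤ Submodule.span ℝ (Set.range u) := by
        intro A hA
        apply N_le h hA
        · exact Submodule.subset_span ⟨0, rfl⟩
        · intro W hW _
          rcases hd W hW with rfl | rfl | rfl | rfl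
          · exact Submodule.subset_span ⟨1, rfl⟩
          · exact Submodule.subset_span ⟨2, rfl⟩
          · exact Submodule.subset_span ⟨3, rfl⟩
          · exact Submodule.subset_span ⟨4, rfl⟩
      exact sup_le (h2 0 (by decide)) (h2 1 (by decide)) (closure3 h (by decide : (0 : Fin 8) ≠ 1) G)
    refine dual_false P k hk0 hk1 u ?_
    intro G
    obtain ⟨c, hc⟩ := (Submodule.mem_span_range_iff_exists_fun ℝ).1 (hall G)
    exact ⟨c, hc.symm⟩

end Pool.Agent.R180.MStar
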