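import Mathlib

set_option autoImplicit false

/-!
# Graphs of polytopes, described by the vertices and linear functionals
-/

namespace Pool.Agent.R180.PGraph

open Set

variable {E : Type*} [NormedAddCommGroup E] [NormedSpace ℝ E]
variable {ι : Type*}

/-- the segment joining `p v` and `p w` is an edge, in terms of a functional -/
def DEdge (p : ι → E) (v w : ι) : Prop :=
  ∃ k : E →L[ℝ] ℝ, k (p v) = k (p w) ∧ ∀ z, z ≠ v → z ≠ w → k (p z) < k (p v)

/-- every `p v` is a vertex of the convex hull, in terms of a functional -/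
def Exp (p : ι → E) : Prop :=
  ∀ v, ∃ g : E →L[ℝ] ℝ, ∀ z, z ≠ v → g (p z) < g (p v)

lemma DEdge.symm {p : ι → E} {v w : ι} (h : DEdge p v w) : DEdge p w v := by
  obtain ⟨k, h1, h2⟩ := h
  exact ⟨k, h1.symm, fun z hz hz' => h1 ▸ h2 z hz' hz⟩

lemma Exp.injective {p : ι → E} (hp : Exp p) : Function.Injective p := by
  intro v w h
  by_contra hne
  obtain ⟨g, hg⟩ := hp v
  have := hg w (fun h => hne h.symm)
  rw [h] at this
  exact lt_irrefl _ this

section hull
variable [Fintype ι]

lemma mem_hull (p : ι → E) (x : E) (hx : x ∈ convexHull ℝ (range p)) :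
    ∃ a : ι → ℝ, (∀ i, 0 ≤ a i) ∧ ∑ i, a i = 1 ∧ ∑ i, a i • p i = x := by
  classical
  have key : convexHull ℝ (range p) ⊆
      {x | ∃ a : ι → ℝ, (∀ i, 0 ≤ a i) ∧ ∑ i, a i = 1 ∧ ∑ i, a i • p i = x} := by
    apply convexHull_min
    · rintro _ ⟨i, rfl⟩
      refine ⟨Pi.single i 1, ?_, ?_, ?_⟩
      · intro j
        by_cases h : j = i
        · subst h; simp
        · simp [Pi.single_eq_of_ne h]
      · simp
      · simp [Pi.single_apply, ite_smul]
    · rintro x ⟨a, ha, ha1, rfl⟩ y ⟨b, hb, hb1, rfl⟩ s t hs ht hst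
      refine ⟨fun i => s * a i + t * b i, ?_, ?_, ?_⟩
      · intro i
        have := ha i
        have := hb i
        positivity
      · rw [Finset.sum_add_distrib, ← Finset.mul_sum, ← Finset.mul_sum, ha1, hb1]; linarith
      · simp only [add_smul, mul_smul, Finset.sum_add_distrib, Finset.smul_sum]
  exact key hx

lemma sum_functional (p : ι → E) (k : E →L[ℝ] ℝ) (a : ι → ℝ) (x : E) (h : ∑ i, a i • p i = x) :
    ∑ i, a i * k (p i) = k x := by
  rw [← h, map_sum]
  simp

/-- if a combination with nonnegative coefficients off `v, w` attains the maximum, these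
coefficients vanish -/
lemma coeff_zero (p : ι → E) (k : E →L[ℝ] ℝ) (a : ι → ℝ) (x : E) (M : ℝ) (S : Set ι)
    (h1 : ∑ i, a i = 1) (h : ∑ i, a i • p i = x) (hx : M ≤ k x)
    (hS : ∀ i ∈ S, k (p i) = M) (hnS : ∀ i, i ∉ S → a i = 0 ∨ (0 ≤ a i ∧ k (p i) < M)) :
    ∀ i, i ∉ S → a i = 0 := by
  classical
  have h2 := sum_functional p k a x h
  have h3 : ∑ i, a i * (M - k (p i)) = M - k x := by
    simp only [mul_sub, Finset.sum_sub_distrib]
    rw [h2, ← Finset.sum_mul, h1, one_mul]
  have h4 : ∀ i ∈ Finset.univ, 0 ≤ a i * (M - k (p i)) := by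
    intro i _
    by_cases hi : i ∈ S
    · rw [hS i hi]; simp
    · rcases hnS i hi with h0 | ⟨h0, h5⟩
      · simp [h0]
      · exact mul_nonneg h0 (by linarith)
  have h5 : ∑ i, a i * (M - k (p i)) = 0 := le_antisymm (by rw [h3]; linarith)
    (Finset.sum_nonneg h4)
  rw [Finset.sum_eq_zero_iff_of_nonneg h4] at h5
  intro i hi
  rcases hnS i hi with h0 | ⟨h0, h6⟩
  · exact h0
  · have := h5 i (Finset.mem_univ _)
    rcases mul_eq_zero.1 this with h7 | h7
    · exact h7
    · linarith

lemma hull_le (p : ι → E) (k : E →L[ℝ] ℝ) (c : ℝ) (h : ∀ i, k (p i) ≤ c) (x : E)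
    (hx : x ∈ convexHull ℝ (range p)) : k x ≤ c := by
  obtain ⟨a, ha, ha1, hax⟩ := mem_hull p x hx
  rw [← sum_functional p k a x hax]
  calc ∑ i, a i * k (p i) ≤ ∑ i, a i * c :=
        Finset.sum_le_sum fun i _ => mul_le_mul_of_nonneg_left (h i) (ha i)
    _ = c := by rw [← Finset.sum_mul, ha1, one_mul]

/-- exposed segments give functionals -/
lemma dedge_of_isExposed (p : ι → E) (hp : Exp p) (v w : ι) (hvw : v ≠ w)
    (h : IsExposed ℝ (convexHull ℝ (range p)) (segment ℝ (p v) (p w))) : DEdge p v w := by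
  obtain ⟨l, hl⟩ := h ⟨p v, left_mem_segment ℝ _ _⟩
  have hv : p v ∈ segment ℝ (p v) (p w) := left_mem_segment ℝ _ _
  have hw : p w ∈ segment ℝ (p v) (p w) := right_mem_segment ℝ _ _
  have hv' := hv
  have hw' := hw
  rw [hl] at hv' hw'
  have hin : ∀ i, p i ∈ convexHull ℝ (range p) := fun i => subset_convexHull ℝ _ ⟨i, rfl⟩
  have heq : l (p v) = l (p w) := le_antisymm (hw'.2 _ (hin v)) (hv'.2 _ (hin w))
  refine ⟨l, heq, fun z hzv hzw => ?_⟩
  refine lt_of_le_of_ne (hv'.2 _ (hin z)) fun hz => ?_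
  have hzs : p z ∈ segment ℝ (p v) (p w) := by
    rw [hl]
    exact ⟨hin z, fun y hy => by rw [hz]; exact hv'.2 y hy⟩
  obtain ⟨a, b, ha, hb, hab, hz'⟩ := hzs
  obtain ⟨g, hg⟩ := hp z
  have h1 := hg v hzv.symm
  have h2 := hg w hzw.symm
  have h3 : a * g (p v) + b * g (p w) = g (p z) := by rw [← hz']; simp
  rcases eq_or_lt_of_le ha with h0 | h0
  · have : b = 1 := by linarith
    subst h0; subst this; simp at h3; linarith
  · have h4 : a * g (p z) + b * g (p z) = g (p z) := by rw [← add_mul, hab, one_mul]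
    have h5 := mul_lt_mul_of_pos_left h1 h0
    have h6 := mul_le_mul_of_nonneg_left h2.le hb
    linarith

/-- functionals give exposed segments -/
lemma isExposed_of_dedge (p : ι → E) (v w : ι) (h : DEdge p v w) :
    IsExposed ℝ (convexHull ℝ (range p)) (segment ℝ (p v) (p w)) := by
  classical
  obtain ⟨k, hk, hlt⟩ := h
  have hin : ∀ i, p i ∈ convexHull ℝ (range p) := fun i => subset_convexHull ℝ _ ⟨i, rfl⟩
  have hle : ∀ i, k (p i) ≤ k (p v) := by
    intro i
    by_cases h1 : i = v
    · rw [h1]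
    by_cases h2 : i = w
    · rw [h2, hk]
    exact (hlt i h1 h2).le
  have hmax := hull_le p k _ hle
  intro _
  refine ⟨k, Subset.antisymm ?_ ?_⟩
  · rintro _ ⟨a, b, ha, hb, hab, rfl⟩
    refine ⟨convex_convexHull ℝ _ (hin v) (hin w) ha hb hab, fun y hy => ?_⟩
    have h1 : k (a • p v + b • p w) = k (p v) := by
      simp only [map_add, map_smul, smul_eq_mul, ← hk]
      rw [← add_mul, hab, one_mul]
    rw [h1]
    exact hmax y hy
  · rintro x ⟨hx, hxm⟩
    obtain ⟨a, ha, ha1, hax⟩ := mem_hull p x hx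
    have h0 := coeff_zero p k a x (k (p v)) {v, w} ha1 hax (hxm _ (hin v))
      (by
        intro i hi
        rcases hi with rfl | hi
        · rfl
        · rw [mem_singleton_iff] at hi; rw [hi, hk])
      (by
        intro i hi
        right
        rw [mem_insert_iff, mem_singleton_iff, not_or] at hi
        exact ⟨ha i, hlt i hi.1 hi.2⟩)
    by_cases hvw : v = w
    · subst hvw
      have h1 : ∀ i, i ≠ v → a i = 0 := fun i hi => h0 i (by simpa using hi)
      have h2 : a v = 1 := by rw [← ha1]; exact (Fintype.sum_eq_single v h1).symm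
      have h3 : x = p v := by
        rw [← hax, Fintype.sum_eq_single v (fun i hi => by rw [h1 i hi, zero_smul]), h2, one_smul]
      rw [h3]; exact left_mem_segment ℝ _ _
    · have h1 : ∀ i, i ≠ v ∧ i ≠ w → a i = 0 := fun i hi => h0 i (by
        rw [mem_insert_iff, mem_singleton_iff, not_or]; exact hi)
      refine ⟨a v, a w, ha v, ha w, ?_, ?_⟩
      · rw [← ha1]; exact (Fintype.sum_eq_add v w hvw h1).symm
      · rw [← hax]
        exact (Fintype.sum_eq_add (f := fun i => a i • p i) v w hvw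
          (fun i hi => by simp [h1 i hi])).symm

/-- vertices -/
lemma extremePoints_eq (p : ι → E) (hp : Exp p) :
    (convexHull ℝ (range p)).extremePoints ℝ = range p := by
  classical
  refine Subset.antisymm extremePoints_convexHull_subset ?_
  rintro _ ⟨v, rfl⟩
  have h1 := isExposed_of_dedge p v v
    (by obtain ⟨g, hg⟩ := hp v; exact ⟨g, rfl, fun z hz _ => hg z hz⟩)
  rw [segment_same] at h1
  have h2 := h1.isExtreme
  exact h2.extremePoints_subset_extremePoints (by simp)

end hull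

/-- two other vertices on a ray from a vertex -/
lemma no_ray (p : ι → E) (hp : Exp p) (v i w : ι) (hiv : i ≠ v) (hiw : i ≠ w) (a b : ℝ)
    (ha : 0 < a) (hab : a ≤ b) (ρ : E) (h1 : p i - p v = a • ρ) (h2 : p w - p v = b • ρ) :
    False := by
  obtain ⟨g, hg⟩ := hp i
  have h3 := hg v hiv.symm
  have h4 := hg w hiw.symm
  have h5 : g (p i) - g (p v) = a * g ρ := by rw [← map_sub, h1]; simp
  have h6 : g (p w) - g (p v) = b * g ρ := by rw [← map_sub, h2]; simp
  have h7 : 0 < g ρ := by
    by_contra hc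
    push Not at hc
    nlinarith
  nlinarith

variable [Fintype ι]

/-- From every vertex, a linear functional can be improved along an edge. -/
lemma exists_edge (p : ι → E) (hp : Exp p) (f : E →L[ℝ] ℝ) (v z : ι) (hz : z ≠ v) :
    ∃ w, w ≠ v ∧ DEdge p v w ∧ (f (p v) ≤ f (p z) → f (p v) ≤ f (p w)) ∧
      (f (p v) < f (p z) → f (p v) < f (p w)) := by
  classical
  obtain ⟨g, hg⟩ := hp v
  let γ : ι → ℝ := fun i => g (p v) - g (p i)
  have hγ : ∀ i, i ≠ v → 0 < γ i := fun i hi => sub_pos.2 (hg i hi)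
  let r : ι → E := fun i => (γ i)⁻¹ • (p i - p v)
  have hpr : ∀ i, i ≠ v → p i - p v = γ i • r i := by
    intro i hi
    simp only [r]
    rw [smul_smul, mul_inv_cancel₀ (hγ i hi).ne', one_smul]
  let S : Set E := r '' {i | i ≠ v}
  have hSfin : S.Finite := (Set.toFinite _).image _
  let K : Set E := convexHull ℝ S
  have hKc : IsCompact K := hSfin.isCompact_convexHull ℝ
  have hin : ∀ i, i ≠ v → r i ∈ K := fun i hi => subset_convexHull ℝ S ⟨i, hi, rfl⟩
  let F : Set E := f.toExposed K
  have hFexp : IsExposed ℝ K F := fun _ => ⟨f, rfl⟩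
  obtain ⟨x0, hx0K, hx0⟩ := hKc.exists_isMaxOn ⟨_, hin z hz⟩ f.continuous.continuousOn
  have hFne : F.Nonempty := ⟨x0, hx0K, fun y hy => hx0 hy⟩
  have hFc : IsCompact F := hFexp.isCompact hKc
  obtain ⟨e, he⟩ := hFc.extremePoints_nonempty hFne
  have heK : e ∈ K.extremePoints ℝ := hFexp.isExtreme.extremePoints_subset_extremePoints he
  have heS : e ∈ S := extremePoints_convexHull_subset heK
  obtain ⟨w, hw, hwe⟩ := heS
  have hw : w ≠ v := hw
  have hmax : f (r z) ≤ f (r w) := by
    rw [hwe]; exact he.1.2 _ (hin z hz)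
  have hdist : ∀ i, i ≠ v → i ≠ w → r i ≠ r w := by
    intro i hiv hiw h
    rcases le_total (γ i) (γ w) with hle | hle
    · exact no_ray p hp v i w hiv hiw (γ i) (γ w) (hγ i hiv) hle (r w)
        (by rw [hpr i hiv, h]) (hpr w hw)
    · exact no_ray p hp v w i hw hiw.symm (γ w) (γ i) (hγ w hw) hle (r w)
        (hpr w hw) (by rw [hpr i hiv, h])
  let T : Set E := r '' {i | i ≠ v ∧ i ≠ w}
  have hTfin : T.Finite := (Set.toFinite _).image _
  have hnot : e ∉ convexHull ℝ T := by
    have h1 := ((convex_convexHull ℝ S).mem_extremePoints_iff_mem_sdiff_convexHull_sdiff.1 heK).2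
    intro h2
    apply h1
    refine convexHull_mono ?_ h2
    rintro _ ⟨i, ⟨hi1, hi2⟩, rfl⟩
    refine ⟨hin i hi1, ?_⟩
    rw [mem_singleton_iff, ← hwe]
    exact hdist i hi1 hi2
  obtain ⟨h, u, hlt, hu⟩ := geometric_hahn_banach_closed_point (convex_convexHull ℝ T)
    (hTfin.isClosed_convexHull ℝ) hnot
  have hhr : ∀ i, i ≠ v → i ≠ w → h (r i) < h (r w) := by
    intro i hi1 hi2
    rw [hwe]
    exact (hlt _ (subset_convexHull ℝ T ⟨i, ⟨hi1, hi2⟩, rfl⟩)).trans hu
  have hdiff : ∀ (φ : E →L[ℝ] ℝ) i, i ≠ v → φ (p i) - φ (p v) = γ i * φ (r i) := by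
    intro φ i hi
    rw [← map_sub, hpr i hi]; simp
  refine ⟨w, hw, ⟨h + (h (r w)) • g, ?_, ?_⟩, ?_, ?_⟩
  · have h1 := hdiff h w hw
    simp only [add_apply, smul_apply, smul_eq_mul]
    have h2 : g (p w) = g (p v) - γ w := by simp only [γ]; ring
    rw [h2]; linarith
  · intro i hiv hiw
    have h1 := hdiff h i hiv
    have h3 := mul_lt_mul_of_pos_left (hhr i hiv hiw) (hγ i hiv)
    simp only [add_apply, smul_apply, smul_eq_mul]
    have h2 : g (p i) = g (p v) - γ i := by simp only [γ]; ring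
    rw [h2]; nlinarith
  · intro h1
    have h2 := hdiff f w hw
    have h3 := hdiff f z hz
    have h4 : 0 ≤ f (r z) := by
      by_contra hc
      push Not at hc
      nlinarith [hγ z hz, mul_neg_of_pos_of_neg (hγ z hz) hc]
    nlinarith [mul_nonneg (hγ w hw).le (h4.trans hmax)]
  · intro h1
    have h2 := hdiff f w hw
    have h3 := hdiff f z hz
    have h4 : 0 < f (r z) := by
      by_contra hc
      push Not at hc
      nlinarith [hγ z hz, mul_nonpos_of_nonneg_of_nonpos (hγ z hz).le hc]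
    nlinarith [mul_pos (hγ w hw) (h4.trans_le hmax)]

/-- a vertex of a `d`-polytope has at least `d` neighbours -/
lemma degree_ge [FiniteDimensional ℝ E] (p : ι → E) (hp : Exp p) (v : ι) (N : Finset ι)
    (hN : ∀ w, w ≠ v → DEdge p v w → w ∈ N) :
    Module.finrank ℝ (vectorSpan ℝ (range p)) ≤ N.card := by
  classical
  let W : Submodule ℝ E := Submodule.span ℝ ((N.image fun w => p w - p v : Finset E) : Set E)
  have hW : Module.finrank ℝ W ≤ N.card :=
    (finrank_span_finset_le_card _).trans Finset.card_image_le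
  refine le_trans (Submodule.finrank_mono ?_) hW
  rw [vectorSpan_range_eq_span_range_vsub_right ℝ p v, Submodule.span_le]
  rintro _ ⟨z, rfl⟩
  by_contra hz
  have hz' : p z - p v ∉ W := hz
  obtain ⟨f0, hf0, hf1⟩ := Submodule.exists_dual_map_eq_bot_of_notMem hz' inferInstance
  have hker : ∀ w ∈ N, f0 (p w - p v) = 0 := by
    intro w hw
    have : f0 (p w - p v) ∈ W.map f0 := Submodule.mem_map_of_mem
      (Submodule.subset_span (by simpa using ⟨w, hw, rfl⟩))
    rw [hf1] at this
    simpa using this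
  have key : ∀ f : E →L[ℝ] ℝ, (∀ w ∈ N, f (p w - p v) = 0) → f (p v) < f (p z) → False := by
    intro f hf hlt
    have hzv : z ≠ v := by rintro rfl; exact lt_irrefl _ hlt
    obtain ⟨w, hw, hd, -, h2⟩ := exists_edge p hp f v z hzv
    have h3 := hf w (hN w hw hd)
    have h4 := h2 hlt
    rw [map_sub] at h3
    linarith
  let f : E →L[ℝ] ℝ := LinearMap.toContinuousLinearMap f0
  have hf : ∀ x, f x = f0 x := fun x => rfl
  rcases lt_trichotomy (f (p v)) (f (p z)) with hlt | heq | hgt
  · exact key f (fun w hw => hker w hw) hlt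
  · apply hf0
    rw [← hf, map_sub, heq, sub_self]
  · refine key (-f) (fun w hw => ?_) ?_
    · have := hker w hw
      simp only [neg_apply, neg_eq_zero]
      exact this
    · simpa using hgt

end Pool.Agent.R180.PGraph
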