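import Mathlib
import Pool.Agent.R180.PGraph

set_option autoImplicit false

/-!
# A 10-vertex graph that is not the graph of a 4-polytope
-/

namespace Pool.Agent.R180.PGraph

open Set

variable {E : Type*} [NormedAddCommGroup E] [NormedSpace ℝ E]

section general
variable {ι : Type*} [Fintype ι] [DecidableEq ι]

lemma exists_dep [FiniteDimensional ℝ E] (p : ι → E) (T : Finset ι)
    (hT : Module.finrank ℝ (vectorSpan ℝ (range p)) + 1 < T.card) :
    ∃ μ : ι → ℝ, (∀ i, i ∉ T → μ i = 0) ∧ ∑ i, μ i = 0 ∧ ∑ i, μ i • p i = 0 ∧ ∃ i, μ i ≠ 0 := by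
  classical
  let q : T → E := fun i => p i
  have hnot : ¬ AffineIndependent ℝ q := by
    intro h
    have hc : Fintype.card T = (T.card - 1) + 1 := by
      rw [Fintype.card_coe]; omega
    have h1 := h.finrank_vectorSpan hc
    have h2 : Module.finrank ℝ (vectorSpan ℝ (range q)) ≤
        Module.finrank ℝ (vectorSpan ℝ (range p)) :=
      Submodule.finrank_mono (vectorSpan_mono ℝ (by rintro _ ⟨i, rfl⟩; exact ⟨i, rfl⟩))
    omega
  rw [affineIndependent_iff] at hnot
  push Not at hnot
  obtain ⟨s, w, hw0, hw1, e0, he0, hne⟩ := hnot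
  refine ⟨fun i => ∑ e ∈ s, if (e : ι) = i then w e else 0, ?_, ?_, ?_, ⟨e0, ?_⟩⟩
  · intro i hi
    refine Finset.sum_eq_zero fun e _ => ?_
    rw [if_neg]
    rintro rfl
    exact hi e.2
  · rw [Finset.sum_comm]
    simpa using hw0
  · simp only [Finset.sum_smul, ite_smul, zero_smul]
    rw [Finset.sum_comm]
    simpa using hw1
  · have : (∑ e ∈ s, if (e : ι) = (e0 : ι) then w e else 0) = w e0 := by
      rw [Finset.sum_eq_single e0]
      · simp
      · intro b _ hb
        rw [if_neg]
        intro h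
        exact hb (Subtype.ext h)
      · intro h; exact absurd he0 h
    change (∑ e ∈ s, if (e : ι) = (e0 : ι) then w e else 0) ≠ 0
    rw [this]
    exact hne

lemma radon (p : ι → E) (hp : Exp p) (lam : ι → ℝ) (T : Finset ι)
    (hT : ∀ i, i ∉ T → lam i = 0) (h0 : ∑ i, lam i = 0) (h1 : ∑ i, lam i • p i = 0)
    (hne : ∃ i, lam i ≠ 0) (hadj : ∀ i ∈ T, ∀ j ∈ T, i ≠ j → DEdge p i j) :
    3 ≤ (T.filter fun i => 0 < lam i).card := by
  classical
  by_contra hc
  push Not at hc
  obtain ⟨v, hv⟩ : ∃ v, 0 < lam v := by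
    by_contra hno
    push Not at hno
    have := (Finset.sum_eq_zero_iff_of_nonpos (fun i _ => hno i)).1 h0
    obtain ⟨i, hi⟩ := hne
    exact hi (this i (Finset.mem_univ _))
  obtain ⟨n, hn⟩ : ∃ n, lam n < 0 := by
    by_contra hno
    push Not at hno
    have := (Finset.sum_eq_zero_iff_of_nonneg (fun i _ => hno i)).1 h0
    obtain ⟨i, hi⟩ := hne
    exact hi (this i (Finset.mem_univ _))
  have hmem : ∀ i, lam i ≠ 0 → i ∈ T := fun i hi => by
    by_contra h; exact hi (hT i h)
  obtain ⟨w, hwT, hwv, hw⟩ : ∃ w ∈ T, w ≠ v ∧ ∀ i, i ≠ v → i ≠ w → lam i ≤ 0 := by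
    by_cases hex : ∃ w, w ≠ v ∧ 0 < lam w
    · obtain ⟨w, hwv, hw⟩ := hex
      refine ⟨w, hmem w hw.ne', hwv, fun i hi1 hi2 => ?_⟩
      by_contra hpos
      push Not at hpos
      have : 2 < (T.filter fun i => 0 < lam i).card :=
        Finset.two_lt_card.2 ⟨v, by simp [hmem v hv.ne', hv], w, by simp [hmem w hw.ne', hw],
          i, by simp [hmem i hpos.ne', hpos], hwv.symm, hi1.symm, hi2.symm⟩
      omega
    · push Not at hex
      exact ⟨n, hmem n hn.ne, by rintro rfl; linarith, fun i hi _ => hex i hi⟩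
  obtain ⟨k, hk, hlt⟩ := hadj v (hmem v hv.ne') w hwT hwv.symm
  have hk0 := sum_functional p k lam 0 h1
  have h2 : ∑ i, lam i * (k (p i) - k (p v)) = 0 := by
    simp only [mul_sub, Finset.sum_sub_distrib]
    rw [hk0, ← Finset.sum_mul, h0]; simp
  have h3 : ∀ i ∈ Finset.univ, 0 ≤ lam i * (k (p i) - k (p v)) := by
    intro i _
    by_cases hi1 : i = v
    · rw [hi1]; simp
    by_cases hi2 : i = w
    · rw [hi2, hk]; simp
    exact mul_nonneg_of_nonpos_of_nonpos (hw i hi1 hi2) (by linarith [hlt i hi1 hi2])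
  rw [Finset.sum_eq_zero_iff_of_nonneg h3] at h2
  have h4 : ∀ i, i ≠ v ∧ i ≠ w → lam i = 0 := by
    rintro i ⟨hi1, hi2⟩
    rcases mul_eq_zero.1 (h2 i (Finset.mem_univ _)) with h | h
    · exact h
    · linarith [hlt i hi1 hi2]
  have h5 : lam v + lam w = 0 := by
    rw [← h0]; exact (Fintype.sum_eq_add (f := lam) v w hwv.symm h4).symm
  have h6 : lam v • p v + lam w • p w = 0 := by
    rw [← h1]
    exact (Fintype.sum_eq_add (f := fun i => lam i • p i) v w hwv.symm
      (fun i hi => by simp [h4 i hi])).symm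
  have h7 : lam w = - lam v := by linarith
  rw [h7, neg_smul, ← sub_eq_add_neg, ← smul_sub, smul_eq_zero] at h6
  rcases h6 with h6 | h6
  · exact hv.ne' h6
  · exact hwv (hp.injective (sub_eq_zero.1 h6)).symm

/-- a dependency on six pairwise adjacent points has three positive and three negative
coefficients -/
lemma radon6 (p : ι → E) (hp : Exp p) (lam : ι → ℝ) (T : Finset ι) (hT6 : T.card ≤ 6)
    (hT : ∀ i, i ∉ T → lam i = 0) (h0 : ∑ i, lam i = 0) (h1 : ∑ i, lam i • p i = 0)
    (hne : ∃ i, lam i ≠ 0) (hadj : ∀ i ∈ T, ∀ j ∈ T, i ≠ j → DEdge p i j) :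
    (T.filter fun i => 0 < lam i).card = 3 ∧ (T.filter fun i => lam i < 0).card = 3 ∧
      ∀ i ∈ T, lam i ≠ 0 := by
  classical
  have hp3 := radon p hp lam T hT h0 h1 hne hadj
  have hn3 := radon p hp (fun i => - lam i) T (fun i hi => by simp [hT i hi])
    (by simp [h0]) (by simp [neg_smul, h1]) (by simpa using hne) hadj
  simp only [Left.neg_pos_iff] at hn3
  have hdisj : Disjoint (T.filter fun i => 0 < lam i) (T.filter fun i => lam i < 0) := by
    rw [Finset.disjoint_filter]
    intro i _ h1 h2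
    linarith
  have hsub : (T.filter fun i => 0 < lam i) ∪ (T.filter fun i => lam i < 0) ⊆
      T.filter fun i => lam i ≠ 0 := by
    intro i hi
    rw [Finset.mem_union, Finset.mem_filter, Finset.mem_filter] at hi
    rw [Finset.mem_filter]
    rcases hi with hi | hi
    · exact ⟨hi.1, hi.2.ne'⟩
    · exact ⟨hi.1, hi.2.ne⟩
  have hcard := Finset.card_le_card hsub
  rw [Finset.card_union_of_disjoint hdisj] at hcard
  have h5 : (T.filter fun i => lam i ≠ 0).card ≤ T.card := Finset.card_filter_le _ _
  refine ⟨by omega, by omega, ?_⟩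
  have h6 : (T.filter fun i => lam i ≠ 0).card = T.card := by omega
  intro i hi
  exact (Finset.card_filter_eq_iff.1 h6) i hi

end general

/-- The adjacency of the 10-vertex graph: `0, …, 5` are pairwise adjacent; `6, 7` are adjacent to
all of `0, …, 5`; `8` to all of these but `4`; `9` to all of these but `5`; `6, 7, 8, 9` are
pairwise nonadjacent. -/
def adjB (v w : Fin 10) : Bool :=
  v != w && !(decide (6 ≤ v.val) && decide (6 ≤ w.val)) &&
    !((v == 8 && w == 4) || (v == 4 && w == 8)) && !((v == 9 && w == 5) || (v == 5 && w == 9))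

/-- the six pairwise adjacent vertices -/
def T6 : Finset (Fin 10) := {0, 1, 2, 3, 4, 5}

variable [FiniteDimensional ℝ E]

lemma not_dim_le_three (p : Fin 10 → E) (hp : Exp p)
    (hG : ∀ v w, v ≠ w → (DEdge p v w ↔ adjB v w = true)) :
    4 ≤ Module.finrank ℝ (vectorSpan ℝ (range p)) := by
  by_contra hc
  push Not at hc
  obtain ⟨μ, hμT, hμ0, hμ1, hne⟩ := exists_dep p ({0, 1, 2, 3, 4} : Finset (Fin 10))
    (by
      have : ({0, 1, 2, 3, 4} : Finset (Fin 10)).card = 5 := by decide
      omega)
  have hadj : ∀ i ∈ ({0, 1, 2, 3, 4} : Finset (Fin 10)), ∀ j ∈ ({0, 1, 2, 3, 4} : Finset (Fin 10)),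
      i ≠ j → DEdge p i j := by
    intro i hi j hj hij
    rw [hG i j hij]
    revert i j
    decide
  have h := radon6 p hp μ _ (by decide) hμT hμ0 hμ1 hne hadj
  have h6 : ((({0, 1, 2, 3, 4} : Finset (Fin 10)).filter fun i => 0 < μ i) ∪
      (({0, 1, 2, 3, 4} : Finset (Fin 10)).filter fun i => μ i < 0)).card = 6 := by
    rw [Finset.card_union_of_disjoint, h.1, h.2.1]
    rw [Finset.disjoint_filter]
    intro i _ h1 h2
    linarith
  have h7 := Finset.card_le_card (Finset.union_subset
    (Finset.filter_subset (fun i => 0 < μ i) ({0, 1, 2, 3, 4} : Finset (Fin 10)))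
    (Finset.filter_subset (fun i => μ i < 0) ({0, 1, 2, 3, 4} : Finset (Fin 10))))
  rw [h6] at h7
  revert h7
  decide

lemma not_dim_four (p : Fin 10 → E) (hp : Exp p)
    (hG : ∀ v w, v ≠ w → (DEdge p v w ↔ adjB v w = true))
    (hdim : Module.finrank ℝ (vectorSpan ℝ (range p)) = 4) : False := by
  classical
  have hT6 : T6.card = 6 := by decide
  have hadj : ∀ i ∈ T6, ∀ j ∈ T6, i ≠ j → DEdge p i j := by
    intro i hi j hj hij
    rw [hG i j hij]
    revert i j
    decide
  obtain ⟨lam, hlT, hl0, hl1, hlne⟩ := exists_dep p T6 (by omega)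
  obtain ⟨hpos3, hneg3, hlnz⟩ := radon6 p hp lam T6 hT6.le hlT hl0 hl1 hlne hadj
  set A := T6.filter fun i => 0 < lam i with hA
  set B := T6.filter fun i => lam i < 0 with hB
  have hmemA : ∀ i, i ∈ A ↔ i ∈ T6 ∧ 0 < lam i := fun i => by rw [hA, Finset.mem_filter]
  have hmemB : ∀ i, i ∈ B ↔ i ∈ T6 ∧ lam i < 0 := fun i => by rw [hB, Finset.mem_filter]
  -- affine coordinates
  have hrep : ∀ a, a ∉ T6 → ∃ s : Fin 10 → ℝ, (∀ i, i ∉ T6 → s i = 0) ∧ ∑ i, s i = 1 ∧
      ∑ i, s i • p i = p a := by
    intro a ha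
    have hcard : (insert a (T6.erase 5)).card = 6 := by
      rw [Finset.card_insert_of_notMem (fun h => ha (Finset.mem_of_mem_erase h))]
      decide
    obtain ⟨μ, hμT, hμ0, hμ1, hμne⟩ := exists_dep p (insert a (T6.erase 5)) (by omega)
    have ha0 : μ a ≠ 0 := by
      intro h0
      have h := radon6 p hp μ T6 hT6.le (fun i hi => by
        by_cases hia : i = a
        · rw [hia, h0]
        · apply hμT
          rw [Finset.mem_insert, not_or]
          exact ⟨hia, fun h => hi (Finset.mem_of_mem_erase h)⟩) hμ0 hμ1 hμne hadj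
      apply h.2.2 5 (by decide)
      apply hμT
      rw [Finset.mem_insert, not_or]
      refine ⟨?_, by simp⟩
      rintro rfl
      exact ha (by decide)
    refine ⟨fun i => (if i = a then 1 else 0) - μ i / μ a, ?_, ?_, ?_⟩
    · intro i hi
      by_cases hia : i = a
      · simp [hia, ha0]
      · have : μ i = 0 := by
          apply hμT
          rw [Finset.mem_insert, not_or]
          exact ⟨hia, fun h => hi (Finset.mem_of_mem_erase h)⟩
        simp [hia, this]
    · rw [Finset.sum_sub_distrib, ← Finset.sum_div, hμ0]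
      simp
    · simp only [sub_smul, Finset.sum_sub_distrib, ite_smul, one_smul, zero_smul]
      have : ∑ i, (μ i / μ a) • p i = 0 := by
        have : ∀ i, (μ i / μ a) • p i = (μ a)⁻¹ • (μ i • p i) := by
          intro i; rw [smul_smul]; congr 1; field_simp
        simp only [this, ← Finset.smul_sum, hμ1, smul_zero]
      rw [this]
      simp
  choose! s hsT hs1 hsp using hrep
  let ρ : Fin 10 → Fin 10 → ℝ := fun a i => s a i / lam i
  let S : Fin 10 → Finset (Fin 10 × Fin 10) := fun a =>
    (A ×ˢ B).filter fun x => ρ a x.1 < ρ a x.2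
  have hmemS : ∀ a i j, (i, j) ∈ S a ↔ i ∈ A ∧ j ∈ B ∧ ρ a i < ρ a j := by
    intro a i j
    simp only [S, Finset.mem_filter, Finset.mem_product, and_assoc]
  -- an edge from `a` to `k` forces a visible facet containing `k`
  have hcover : ∀ a, a ∉ T6 → ∀ k ∈ T6, DEdge p a k → ∃ i j, (i, j) ∈ S a ∧ i ≠ k ∧ j ≠ k := by
    intro a ha k hk hd
    by_contra hc
    push Not at hc
    have hBk : (B.erase k).Nonempty := by
      rw [← Finset.card_pos]
      have := Finset.pred_card_le_card_erase (s := B) (a := k)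
      omega
    obtain ⟨j0, hj0, hmax⟩ := Finset.exists_max_image (B.erase k) (ρ a) hBk
    rw [Finset.mem_erase] at hj0
    let s' : Fin 10 → ℝ := fun i => s a i - ρ a j0 * lam i
    have hs'T : ∀ i, i ∉ T6 → s' i = 0 := fun i hi => by
      simp only [s']; rw [hsT a ha i hi, hlT i hi]; ring
    have hs'1 : ∑ i, s' i = 1 := by
      simp only [s', Finset.sum_sub_distrib, ← Finset.mul_sum, hl0, hs1 a ha]; ring
    have hs'p : ∑ i, s' i • p i = p a := by
      simp only [s', sub_smul, mul_smul, Finset.sum_sub_distrib, ← Finset.smul_sum, hl1,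
        hsp a ha]
      simp
    have hs'0 : ∀ i ∈ T6, i ≠ k → 0 ≤ s' i := by
      intro i hi hik
      have hsi : s a i = ρ a i * lam i := by
        simp only [ρ]; rw [div_mul_cancel₀ _ (hlnz i hi)]
      have hs'i : s' i = (ρ a i - ρ a j0) * lam i := by
        simp only [s']; rw [hsi]; ring
      rw [hs'i]
      rcases lt_or_gt_of_ne (hlnz i hi) with hneg | hpos
      · have := hmax i (Finset.mem_erase.2 ⟨hik, (hmemB i).2 ⟨hi, hneg⟩⟩)
        exact mul_nonneg_of_nonpos_of_nonpos (by linarith) hneg.le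
      · have h1 : ¬ ρ a i < ρ a j0 := by
          intro hlt
          exact hj0.1 (hc i j0 ((hmemS a i j0).2 ⟨(hmemA i).2 ⟨hi, hpos⟩, hj0.2, hlt⟩) hik)
        exact mul_nonneg (by linarith) hpos.le
    obtain ⟨kk, hkk, hlt⟩ := hd
    have h0 := coeff_zero p kk s' (p a) (kk (p a)) {k} hs'1 hs'p le_rfl
      (by intro i hi; rw [mem_singleton_iff] at hi; rw [hi, hkk])
      (by
        intro i hi
        rw [mem_singleton_iff] at hi
        by_cases hiT : i ∈ T6
        · right
          refine ⟨hs'0 i hiT hi, hlt i ?_ hi⟩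
          rintro rfl
          exact ha hiT
        · left
          exact hs'T i hiT)
    have h1 : ∀ i, i ≠ k → s' i = 0 := fun i hi => h0 i (by simpa using hi)
    have h2 : s' k = 1 := by rw [← hs'1]; exact (Fintype.sum_eq_single k h1).symm
    have h3 : p a = p k := by
      rw [← hs'p, Fintype.sum_eq_single k (fun i hi => by rw [h1 i hi, zero_smul]), h2, one_smul]
    have h4 := hp.injective h3
    rw [h4] at ha
    exact ha hk
  -- exchange
  have hexch : ∀ a i j i' j', (i, j) ∈ S a → (i', j') ∈ S a → (i, j') ∈ S a ∨ (i', j) ∈ S a := by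
    intro a i j i' j' h1 h2
    rw [hmemS] at h1 h2
    by_cases h : ρ a i < ρ a j'
    · left; exact (hmemS a i j').2 ⟨h1.1, h2.2.1, h⟩
    · right; exact (hmemS a i' j).2 ⟨h2.1, h1.2.1, by linarith [h1.2.2, h2.2.2]⟩
  -- disjointness
  have hdisj : ∀ a a', a ∉ T6 → a' ∉ T6 → a ≠ a' → Disjoint (S a) (S a') := by
    intro a a' ha ha' haa
    rw [Finset.disjoint_left]
    rintro ⟨i, j⟩ hS hS'
    rw [hmemS] at hS hS'
    obtain ⟨hiA, hjB, hlt⟩ := hS
    obtain ⟨-, -, hlt'⟩ := hS'
    have hiT := ((hmemA i).1 hiA).1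
    have hi0 := ((hmemA i).1 hiA).2
    have hjT := ((hmemB j).1 hjB).1
    have hj0 := ((hmemB j).1 hjB).2
    have hdis : Disjoint (segment ℝ (p a) (p a'))
        (convexHull ℝ (range fun t : T6 => p t)) := by
      rw [Set.disjoint_left]
      rintro x ⟨α, β, hα, hβ, hαβ, hx⟩ hxQ
      obtain ⟨q0, hq0, hq1, hqx⟩ := mem_hull (fun t : T6 => p t) x hxQ
      let q : Fin 10 → ℝ := fun i => if h : i ∈ T6 then q0 ⟨i, h⟩ else 0
      have hqT : ∀ i, i ∉ T6 → q i = 0 := fun i hi => by simp [q, hi]
      have hqnn : ∀ i, 0 ≤ q i := by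
        intro i; by_cases hi : i ∈ T6
        · simp [q, hi, hq0]
        · simp [q, hi]
      have hqsum : ∑ i, q i = 1 := by
        rw [← hq1, ← Finset.sum_subset (Finset.subset_univ T6) (fun i _ hi => hqT i hi),
          ← Finset.sum_attach T6]
        exact Finset.sum_congr rfl fun i _ => by simp [q]
      have hqp : ∑ i, q i • p i = x := by
        rw [← hqx, ← Finset.sum_subset (Finset.subset_univ T6)
          (fun i _ hi => by rw [hqT i hi, zero_smul]), ← Finset.sum_attach T6]
        exact Finset.sum_congr rfl fun i _ => by simp [q]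
      let μ : Fin 10 → ℝ := fun i => α * s a i + β * s a' i - q i
      have hμT : ∀ i, i ∉ T6 → μ i = 0 := fun i hi => by
        simp only [μ]; rw [hsT a ha i hi, hsT a' ha' i hi, hqT i hi]; ring
      have hμ0 : ∑ i, μ i = 0 := by
        simp only [μ, Finset.sum_sub_distrib, Finset.sum_add_distrib, ← Finset.mul_sum,
          hs1 a ha, hs1 a' ha', hqsum]
        linarith
      have hμ1 : ∑ i, μ i • p i = 0 := by
        simp only [μ, sub_smul, add_smul, mul_smul, Finset.sum_sub_distrib,
          Finset.sum_add_distrib, ← Finset.smul_sum, hsp a ha, hsp a' ha', hqp]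
        rw [hx, sub_self]
      let c := μ i / lam i
      let ν : Fin 10 → ℝ := fun l => μ l - c * lam l
      have hν : ∀ l, ν l = 0 := by
        by_contra hne
        push Not at hne
        have h := radon6 p hp ν T6 hT6.le
          (fun l hl => by simp only [ν]; rw [hμT l hl, hlT l hl]; ring)
          (by simp only [ν, Finset.sum_sub_distrib, ← Finset.mul_sum, hμ0, hl0]; ring)
          (by simp only [ν, sub_smul, mul_smul, Finset.sum_sub_distrib, ← Finset.smul_sum, hμ1,
                hl1]; simp) hne hadj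
        apply h.2.2 i hiT
        simp only [ν, c]
        rw [div_mul_cancel₀ _ (hlnz i hiT), sub_self]
      have hμi : μ i = c * lam i := by have := hν i; simp only [ν] at this; linarith
      have hμj : μ j = c * lam j := by have := hν j; simp only [ν] at this; linarith
      have hsi : s a i = ρ a i * lam i := by simp only [ρ]; rw [div_mul_cancel₀ _ (hlnz i hiT)]
      have hsj : s a j = ρ a j * lam j := by simp only [ρ]; rw [div_mul_cancel₀ _ (hlnz j hjT)]
      have hsi' : s a' i = ρ a' i * lam i := by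
        simp only [ρ]; rw [div_mul_cancel₀ _ (hlnz i hiT)]
      have hsj' : s a' j = ρ a' j * lam j := by
        simp only [ρ]; rw [div_mul_cancel₀ _ (hlnz j hjT)]
      simp only [μ] at hμi hμj
      rw [hsi, hsi'] at hμi
      rw [hsj, hsj'] at hμj
      have e1 : (α * ρ a i + β * ρ a' i - c) * lam i = q i := by linarith
      have e2 : (α * ρ a j + β * ρ a' j - c) * lam j = q j := by linarith
      have e3 : 0 ≤ α * ρ a i + β * ρ a' i - c := by
        by_contra hneg
        push Not at hneg
        have := mul_neg_of_neg_of_pos hneg hi0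
        linarith [hqnn i]
      have e4 : α * ρ a j + β * ρ a' j - c ≤ 0 := by
        by_contra hneg
        push Not at hneg
        have := mul_neg_of_pos_of_neg hneg hj0
        linarith [hqnn j]
      have e5 : α * ρ a i + β * ρ a' i < α * ρ a j + β * ρ a' j := by
        rcases eq_or_lt_of_le hα with h0 | h0
        · have hβ1 : β = 1 := by linarith
          rw [← h0, hβ1]; linarith
        · have f1 := mul_lt_mul_of_pos_left hlt h0
          have f2 := mul_le_mul_of_nonneg_left hlt'.le hβ
          linarith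
      linarith
    obtain ⟨f, u, v, hfu, huv, hfv⟩ := geometric_hahn_banach_compact_closed
      (convex_segment (p a) (p a'))
      (by rw [← convexHull_pair]; exact (Set.toFinite {p a, p a'}).isCompact_convexHull ℝ)
      (convex_convexHull ℝ _) ((Set.finite_range _).isClosed_convexHull ℝ) hdis
    have hT : ∀ t ∈ T6, v < f (p t) := fun t ht => hfv _ (subset_convexHull ℝ _ ⟨⟨t, ht⟩, rfl⟩)
    have hfa : f (p a) < u := hfu _ (left_mem_segment ℝ _ _)
    have hfa' : f (p a') < u := hfu _ (right_mem_segment ℝ _ _)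
    have key : ∀ b b', b ∉ T6 → b' ≠ b → f (p b) < u → f (p b') ≤ f (p b) → False := by
      intro b b' hb hbb hfb hle
      obtain ⟨w, hw, hd, h1, -⟩ := exists_edge p hp (-f) b b' hbb
      have h2 : f (p w) ≤ f (p b) := by
        have := h1 (by simpa using hle)
        simpa using this
      have hwT : w ∉ T6 := by
        intro hwT
        have := hT w hwT
        linarith
      have h3 := (hG b w hw.symm).1 hd
      have hdec : ∀ b w : Fin 10, b ∉ T6 → w ∉ T6 → adjB b w = false := by decide
      rw [hdec b w hb hwT] at h3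
      exact Bool.false_ne_true h3
    rcases le_total (f (p a')) (f (p a)) with hle | hle
    · exact key a a' ha haa.symm hfa hle
    · exact key a' a ha' haa hfa' hle
  -- cardinalities
  have hc3 : ∀ a, a ∉ T6 → (∀ k ∈ T6, DEdge p a k) → 3 ≤ (S a).card := by
    intro a ha hk
    obtain ⟨i, j, hij, -, -⟩ := hcover a ha 0 (by decide) (hk 0 (by decide))
    have hiT : i ∈ T6 := ((hmemA i).1 ((hmemS a i j).1 hij).1).1
    have hjT : j ∈ T6 := ((hmemB j).1 ((hmemS a i j).1 hij).2.1).1
    obtain ⟨i', j', hij', hi'i, -⟩ := hcover a ha i hiT (hk i hiT)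
    have h2lt : 2 < (S a).card := by
      rw [Finset.two_lt_card]
      by_cases hjj : j' = j
      · obtain ⟨i'', j'', hij'', -, hj''⟩ := hcover a ha j hjT (hk j hjT)
        refine ⟨(i, j), hij, (i', j'), hij', (i'', j''), hij'', ?_, ?_, ?_⟩
        · intro h; exact hi'i (Prod.mk.inj h).1.symm
        · intro h; exact hj'' (Prod.mk.inj h).2.symm
        · intro h; exact hj'' ((Prod.mk.inj h).2.symm.trans hjj)
      · rcases hexch a i j i' j' hij hij' with h3 | h3
        · refine ⟨(i, j), hij, (i', j'), hij', (i, j'), h3, ?_, ?_, ?_⟩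
          · intro h; exact hi'i (Prod.mk.inj h).1.symm
          · intro h; exact hjj (Prod.mk.inj h).2.symm
          · intro h; exact hi'i (Prod.mk.inj h).1
        · refine ⟨(i, j), hij, (i', j'), hij', (i', j), h3, ?_, ?_, ?_⟩
          · intro h; exact hi'i (Prod.mk.inj h).1.symm
          · intro h; exact hi'i (Prod.mk.inj h).1.symm
          · intro h; exact hjj (Prod.mk.inj h).2
    exact h2lt
  have hc2 : ∀ a k0, a ∉ T6 → (∀ k ∈ T6, k ≠ k0 → DEdge p a k) → 2 ≤ (S a).card := by
    intro a k0 ha hk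
    obtain ⟨k1, hk1, hk10⟩ : ∃ k1 ∈ T6, k1 ≠ k0 := by
      by_cases h : k0 = 0
      · exact ⟨1, by decide, by rw [h]; decide⟩
      · exact ⟨0, by decide, fun h' => h h'.symm⟩
    obtain ⟨i, j, hij, -, -⟩ := hcover a ha k1 hk1 (hk k1 hk1 hk10)
    have hiT : i ∈ T6 := ((hmemA i).1 ((hmemS a i j).1 hij).1).1
    have hjT : j ∈ T6 := ((hmemB j).1 ((hmemS a i j).1 hij).2.1).1
    have hne : i ≠ j := by
      intro h
      have h1 := ((hmemA i).1 ((hmemS a i j).1 hij).1).2
      have h2 := ((hmemB j).1 ((hmemS a i j).1 hij).2.1).2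
      rw [h] at h1
      linarith
    have h1lt : 1 < (S a).card := by
      rw [Finset.one_lt_card]
      by_cases hi0 : i = k0
      · have hj0 : j ≠ k0 := fun h => hne (hi0.trans h.symm)
        obtain ⟨i', j', hij', -, h'⟩ := hcover a ha j hjT (hk j hjT hj0)
        exact ⟨(i, j), hij, (i', j'), hij', fun h => h' (Prod.mk.inj h).2.symm⟩
      · obtain ⟨i', j', hij', h', -⟩ := hcover a ha i hiT (hk i hiT hi0)
        exact ⟨(i, j), hij, (i', j'), hij', fun h => h' (Prod.mk.inj h).1.symm⟩
    exact h1lt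
  have h6 : 3 ≤ (S 6).card := hc3 6 (by decide) (by
    intro k hk
    rw [hG 6 k (by rintro rfl; revert hk; decide)]
    revert k; decide)
  have h7 : 3 ≤ (S 7).card := hc3 7 (by decide) (by
    intro k hk
    rw [hG 7 k (by rintro rfl; revert hk; decide)]
    revert k; decide)
  have h8 : 2 ≤ (S 8).card := hc2 8 4 (by decide) (by
    intro k hk hk4
    rw [hG 8 k (by rintro rfl; revert hk; decide)]
    revert k; decide)
  have h9 : 2 ≤ (S 9).card := hc2 9 5 (by decide) (by
    intro k hk hk4
    rw [hG 9 k (by rintro rfl; revert hk; decide)]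
    revert k; decide)
  have hU : (S 6 ∪ S 7 ∪ S 8 ∪ S 9).card = (S 6).card + (S 7).card + (S 8).card + (S 9).card := by
    rw [Finset.card_union_of_disjoint, Finset.card_union_of_disjoint,
      Finset.card_union_of_disjoint]
    · exact hdisj 6 7 (by decide) (by decide) (by decide)
    · rw [Finset.disjoint_union_left]
      exact ⟨hdisj 6 8 (by decide) (by decide) (by decide),
        hdisj 7 8 (by decide) (by decide) (by decide)⟩
    · rw [Finset.disjoint_union_left, Finset.disjoint_union_left]
      exact ⟨⟨hdisj 6 9 (by decide) (by decide) (by decide),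
        hdisj 7 9 (by decide) (by decide) (by decide)⟩,
        hdisj 8 9 (by decide) (by decide) (by decide)⟩
  have hsub : S 6 ∪ S 7 ∪ S 8 ∪ S 9 ⊆ A ×ˢ B := by
    refine Finset.union_subset (Finset.union_subset (Finset.union_subset ?_ ?_) ?_) ?_ <;>
      exact Finset.filter_subset _ _
  have hle := Finset.card_le_card hsub
  rw [hU, Finset.card_product, hpos3, hneg3] at hle
  omega

lemma dim_le_five (p : Fin 10 → E) (hp : Exp p)
    (hG : ∀ v w, v ≠ w → (DEdge p v w ↔ adjB v w = true)) :
    Module.finrank ℝ (vectorSpan ℝ (range p)) ≤ 5 := by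
  have h := degree_ge p hp 8 ({0, 1, 2, 3, 5} : Finset (Fin 10)) (by
    intro w hw hd
    have h1 := (hG 8 w hw.symm).1 hd
    have hdec : ∀ w : Fin 10, adjB 8 w = true → w ∈ ({0, 1, 2, 3, 5} : Finset (Fin 10)) := by
      decide
    exact hdec w h1)
  exact h.trans (by decide)

end Pool.Agent.R180.PGraph
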